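import Pool.Agent.X276.Wqr

/-!
# Boundedness of the order of an element on a regular ring
-/

set_option autoImplicit false

universe u

namespace Pool.Agent.X276.Od

open IsLocalRing Pool.Agent.W418.LU2 MvPolynomial

/-- homogeneous forms in a part of a regular system of parameters with a unit coefficient have the
expected order -/
theorem form_notMem {A : Type u} [CommRing A] [IsRegularLocalRing A] {h : ℕ} {y : Fin h → A}
    (hy : Ind y) (n : ℕ) (P : MvPolynomial (Fin h) A) (hP : P.IsHomogeneous n)
    (m₀ : Fin h →₀ ℕ) (hm₀ : coeff m₀ P ∉ maximalIdeal A) :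
    eval y P ∉ maximalIdeal A ^ (n + 1) := by
  classical
  intro hmem
  obtain ⟨k, w, hw, hd⟩ := hy.extend
  have hz : Ind (Sum.elim y w) := by
    refine ind_of_span hw ?_
    rw [hd, Fintype.card_sum, Fintype.card_fin, Fintype.card_fin]
  let z : Fin (h + k) → A := Sum.elim y w ∘ finSumFinEquiv.symm
  have hz' : Ind z := hz.comp _ finSumFinEquiv.symm.injective
  have hspan : Ideal.span (Set.range z) = maximalIdeal A := by
    rw [← hw]
    congr 1
    exact finSumFinEquiv.symm.surjective.range_comp _
  let em : Fin h → Fin (h + k) := fun i => finSumFinEquiv (Sum.inl i)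
  have hem : Function.Injective em := finSumFinEquiv.injective.comp Sum.inl_injective
  have hzem : z ∘ em = y := by
    funext i
    simp [z, em]
  let Q := rename em P
  have hQ : Q.IsHomogeneous n := hP.rename_isHomogeneous
  have hev : eval z Q = eval y P := by
    rw [eval_rename, hzem]
  have hsum : ∑ m ∈ Q.support, coeff m Q * ∏ i, z i ^ m i ∈
      Ideal.span {y : A | ∃ m : Fin (h + k) →₀ ℕ, n + 1 ≤ ∑ i, 1 * m i ∧ y = ∏ i, z i ^ m i} := by
    rw [← eval_eq', hev]
    rw [← hspan, Ideal.mem_span_pow_iff_exists_isHomogeneous] at hmem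
    obtain ⟨G, hG, hGe⟩ := hmem
    rw [← hGe, eval_eq']
    refine Ideal.sum_mem _ fun m hm => Ideal.mul_mem_left _ _ ?_
    refine Ideal.subset_span ⟨m, ?_, rfl⟩
    have h1 := hG (mem_support_iff.1 hm)
    rw [Finsupp.weight_apply, Finsupp.sum_fintype _ _ (by simp)] at h1
    simp only [Pi.one_apply, smul_eq_mul, mul_one] at h1
    simp only [one_mul]
    exact h1.ge
  have hkey := Pool.Agent.X276.W.wqr A (h + k) z hz' (fun _ => 1) (fun _ => one_pos) n Q.support
    (fun m => coeff m Q) (by
      intro m hm
      have h1 := hQ (mem_support_iff.1 hm)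
      rw [Finsupp.weight_apply, Finsupp.sum_fintype _ _ (by simp)] at h1
      simp only [Pi.one_apply, smul_eq_mul, mul_one] at h1
      simp only [one_mul]
      exact h1) hsum
  have hc : coeff (Finsupp.mapDomain em m₀) Q = coeff m₀ P := coeff_rename_mapDomain em hem P m₀
  have hms : Finsupp.mapDomain em m₀ ∈ Q.support := by
    rw [mem_support_iff, hc]
    intro h0
    exact hm₀ (by rw [h0]; exact Ideal.zero_mem _)
  have h2 := hkey _ hms
  rw [hspan, hc] at h2
  exact hm₀ h2

section quot

variable {R : Type u} [CommRing R]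

/-- the localization of the quotient -/
theorem reg_quot (P Q : Ideal R) [hQ : Q.IsPrime]
    (Q' : Ideal (R ⧸ P)) [hQ' : Q'.IsPrime] (hc : Q'.comap (Ideal.Quotient.mk P) = Q)
    (h : IsRegularLocalRing (Localization.AtPrime Q')) :
    IsRegularLocalRing (Localization.AtPrime Q ⧸
      P.map (algebraMap R (Localization.AtPrime Q))) := by
  let A := Localization.AtPrime Q
  have hz : ∀ r ∈ P, ((Ideal.Quotient.mk (P.map (algebraMap R (Localization.AtPrime Q)))).comp
      (algebraMap R (Localization.AtPrime Q))) r = 0 := by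
    intro r hr
    rw [RingHom.comp_apply, Ideal.Quotient.eq_zero_iff_mem]
    exact Ideal.mem_map_of_mem _ hr
  let alg : (R ⧸ P) →+* (Localization.AtPrime Q ⧸ P.map (algebraMap R (Localization.AtPrime Q))) :=
    Ideal.Quotient.lift P _ hz
  let _ : Algebra (R ⧸ P) (Localization.AtPrime Q ⧸
      P.map (algebraMap R (Localization.AtPrime Q))) := alg.toAlgebra
  have h1 : IsLocalization (Q.primeCompl.map (Ideal.Quotient.mk P)) (Localization.AtPrime Q ⧸
      P.map (algebraMap R (Localization.AtPrime Q))) := by
    refine IsLocalization.of_surjective (S := Localization.AtPrime Q) Q.primeCompl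
      (Ideal.Quotient.mk P) Ideal.Quotient.mk_surjective
      (Ideal.Quotient.mk (P.map (algebraMap R (Localization.AtPrime Q))))
      Ideal.Quotient.mk_surjective ?_ ?_
    · ext r
      rfl
    · rw [Ideal.mk_ker, Ideal.mk_ker]
  have h2 : Q.primeCompl.map (Ideal.Quotient.mk P) = Q'.primeCompl := by
    ext y
    constructor
    · rintro ⟨r, hr, rfl⟩
      intro hy
      exact hr (by rw [← hc]; exact hy)
    · intro hy
      obtain ⟨r, rfl⟩ := Ideal.Quotient.mk_surjective y
      exact ⟨r, fun hr => hy (by rw [← hc] at hr; exact hr), rfl⟩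
  rw [h2] at h1
  exact IsRegularLocalRing.of_ringEquiv
    (IsLocalization.algEquiv Q'.primeCompl (Localization.AtPrime Q')
      (Localization.AtPrime Q ⧸ P.map (algebraMap R (Localization.AtPrime Q)))).toRingEquiv

theorem loc_mem (P : Ideal R) [P.IsPrime] (I : Ideal R) (p : R)
    (h : algebraMap R (Localization.AtPrime P) p ∈ I.map (algebraMap R (Localization.AtPrime P))) :
    ∃ s, s ∉ P ∧ s * p ∈ I := by
  rw [IsLocalization.mem_map_algebraMap_iff P.primeCompl] at h
  obtain ⟨⟨a, s⟩, h⟩ := h
  rw [← map_mul, IsLocalization.eq_iff_exists P.primeCompl] at h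
  obtain ⟨c, hc⟩ := h
  refine ⟨c * s, (c * s).2, ?_⟩
  have h1 : (c : R) * s * p = c * a := by
    rw [← hc]
    ring
  rw [h1]
  exact I.mul_mem_left _ a.2

/-- membership from a nonmember multiple -/
theorem mem_loc (P : Ideal R) [P.IsPrime] (I : Ideal R) (p s : R) (hs : s ∉ P)
    (h : s * p ∈ I) : algebraMap R (Localization.AtPrime P) p ∈
      I.map (algebraMap R (Localization.AtPrime P)) := by
  have h1 : algebraMap R (Localization.AtPrime P) (s * p) ∈
      I.map (algebraMap R (Localization.AtPrime P)) := Ideal.mem_map_of_mem _ h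
  rw [map_mul] at h1
  have hu : IsUnit (algebraMap R (Localization.AtPrime P) s) :=
    IsLocalization.map_units (Localization.AtPrime P) (⟨s, hs⟩ : P.primeCompl)
  exact (Ideal.unit_mul_mem_iff_mem _ hu).1 h1

end quot

section key

variable {R : Type u} [CommRing R] [IsRegularRing R]

/-- generators of a prime of a regular ring at its localization -/
theorem exists_gens (P : Ideal R) [P.IsPrime] : ∃ (h : ℕ) (x : Fin h → R),
    (maximalIdeal (Localization.AtPrime P)).spanFinrank = h ∧ (∀ i, x i ∈ P) ∧
    Ideal.span (Set.range fun i => algebraMap R (Localization.AtPrime P) (x i)) =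
      maximalIdeal (Localization.AtPrime P) := by
  classical
  obtain ⟨T, hT1, hT2⟩ := Submodule.FG.exists_span_finset_card_eq_spanFinrank
    (IsNoetherian.noetherian (maximalIdeal (Localization.AtPrime P)))
  have hfrac : ∀ τ : T, ∃ a : R, a ∈ P ∧ ∃ u v : Localization.AtPrime P,
      (τ : Localization.AtPrime P) = u * algebraMap R (Localization.AtPrime P) a ∧
      algebraMap R (Localization.AtPrime P) a = v * (τ : Localization.AtPrime P) := by
    rintro ⟨τ, hτ⟩
    have hτ' : τ ∈ maximalIdeal (Localization.AtPrime P) := by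
      rw [← hT2]
      exact Submodule.subset_span hτ
    obtain ⟨a, s, rfl⟩ := IsLocalization.exists_mk'_eq P.primeCompl τ
    refine ⟨a, ?_, IsLocalization.mk' _ 1 s, algebraMap R (Localization.AtPrime P) s, ?_, ?_⟩
    · have h1 := Ideal.mul_mem_right (algebraMap R (Localization.AtPrime P) s) _ hτ'
      rw [IsLocalization.mk'_spec] at h1
      exact (IsLocalization.AtPrime.to_map_mem_maximal_iff (Localization.AtPrime P) P a).mp h1
    · rw [mul_comm, ← IsLocalization.mk'_eq_mul_mk'_one]
    · exact (IsLocalization.mk'_spec' (Localization.AtPrime P) a s).symm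
  choose a haP u v hu hv using hfrac
  let em := T.equivFin
  refine ⟨T.card, fun i => a (em.symm i), hT1.symm, fun i => haP _, ?_⟩
  apply le_antisymm
  · rw [Ideal.span_le]
    rintro _ ⟨i, rfl⟩
    change algebraMap R (Localization.AtPrime P) (a (em.symm i)) ∈ _
    rw [hv]
    apply Ideal.mul_mem_left
    rw [← hT2]
    exact Submodule.subset_span (em.symm i).2
  · rw [← hT2]
    refine Submodule.span_le.2 ?_
    intro τ hτ
    have h1 := hu ⟨τ, hτ⟩
    change τ ∈ Ideal.span _
    rw [show τ = _ from h1]
    apply Ideal.mul_mem_left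
    refine Ideal.subset_span ⟨em ⟨τ, hτ⟩, ?_⟩
    simp

/-- The order of `c` is bounded on a nonempty open subset of `V(P)`. -/
theorem local_bound (c : R) (hc : ∀ P ∈ minimalPrimes R, c ∉ P) (P : Ideal R) [hP : P.IsPrime]
    (g : R) (hg : g ∉ P)
    (hreg : ∀ (Q : Ideal R) [Q.IsPrime], P ≤ Q → g ∉ Q →
      IsRegularLocalRing (Localization.AtPrime Q ⧸
        P.map (algebraMap R (Localization.AtPrime Q)))) :
    ∃ (f : R) (N : ℕ), f ∉ P ∧ ∀ (Q : Ideal R) [Q.IsPrime], P ≤ Q → f ∉ Q →
      algebraMap R (Localization.AtPrime Q) c ∉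
        maximalIdeal (Localization.AtPrime Q) ^ N := by
  classical
  obtain ⟨h, x, hh, hxP, hx⟩ := exists_gens P
  set AP := Localization.AtPrime P with hAP
  have hxmap : (Ideal.span (Set.range x)).map (algebraMap R (Localization.AtPrime P)) =
      maximalIdeal (Localization.AtPrime P) := by
    rw [← hx, Ideal.map_span, ← Set.range_comp]
    rfl
  -- the order at `P`
  have hc0 : algebraMap R (Localization.AtPrime P) c ≠ 0 := by
    intro h0
    obtain ⟨s, hs⟩ := (IsLocalization.map_eq_zero_iff P.primeCompl
      (Localization.AtPrime P) c).1 h0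
    obtain ⟨P0, hP0, hle⟩ := Ideal.exists_minimalPrimes_le (I := ⊥) (J := P) bot_le
    have hpr : P0.IsPrime := hP0.1.1
    have h1 : (s : R) * c ∈ P0 := by rw [hs]; exact P0.zero_mem
    rcases hpr.mem_or_mem h1 with h2 | h2
    · exact s.2 (hle h2)
    · exact hc P0 hP0 h2
  have hex : ∃ n : ℕ, algebraMap R (Localization.AtPrime P) c ∉
      maximalIdeal (Localization.AtPrime P) ^ n := by
    by_contra hcon
    push Not at hcon
    apply hc0
    have h1 := Ideal.iInf_pow_eq_bot_of_isLocalRing (maximalIdeal (Localization.AtPrime P))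
      (maximalIdeal.isMaximal _).ne_top
    rw [← Submodule.mem_bot (Localization.AtPrime P), ← h1, Submodule.mem_iInf]
    exact hcon
  have hn0 : Nat.find hex ≠ 0 := by
    intro h0
    have h1 := Nat.find_spec hex
    rw [h0, pow_zero, Ideal.one_eq_top] at h1
    exact h1 trivial
  obtain ⟨n, hn⟩ : ∃ n, Nat.find hex = n + 1 := ⟨Nat.find hex - 1, by omega⟩
  have hn1 : algebraMap R (Localization.AtPrime P) c ∈
      maximalIdeal (Localization.AtPrime P) ^ n := by
    by_contra hcon
    have := Nat.find_min' hex hcon
    omega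
  have hn2 : algebraMap R (Localization.AtPrime P) c ∉
      maximalIdeal (Localization.AtPrime P) ^ (n + 1) := by
    rw [← hn]
    exact Nat.find_spec hex
  -- the form
  rw [← hxmap, ← Ideal.map_pow] at hn1
  obtain ⟨f3, hf3, hf3c⟩ := loc_mem P _ c hn1
  rw [Ideal.mem_span_pow_iff_exists_isHomogeneous] at hf3c
  obtain ⟨F, hF, hFe⟩ := hf3c
  obtain ⟨m₀, hm₀⟩ : ∃ m₀, coeff m₀ F ∉ P := by
    by_contra hcon
    push Not at hcon
    apply hn2
    have h1 : f3 * c ∈ P ^ (n + 1) := by
      rw [← hFe, eval_eq', pow_succ']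
      refine Ideal.sum_mem _ fun m hm => Ideal.mul_mem_mul (hcon m) ?_
      have h2 : ∏ i, x i ^ m i ∈ (Ideal.span (Set.range x)) ^ n := by
        rw [Ideal.mem_span_pow_iff_exists_isHomogeneous]
        refine ⟨monomial m 1, isHomogeneous_monomial _ ?_, ?_⟩
        · have h3 := hF (mem_support_iff.1 hm)
          rw [Finsupp.weight_apply, Finsupp.sum_fintype _ _ (by simp)] at h3
          simp only [Pi.one_apply, smul_eq_mul, mul_one] at h3
          rw [Finsupp.degree_eq_sum]
          exact h3
        · rw [eval_monomial, one_mul, Finsupp.prod_fintype _ _ (by simp)]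
      have h4 : Ideal.span (Set.range x) ≤ P := by
        rw [Ideal.span_le]
        rintro _ ⟨i, rfl⟩
        exact hxP i
      exact Ideal.pow_right_mono h4 n h2
    have h5 := mem_loc P _ c f3 hf3 h1
    rw [Ideal.map_pow, Localization.AtPrime.map_eq_maximalIdeal] at h5
    exact h5
  -- generators on an open set
  obtain ⟨f1, hf1, hf1P⟩ : ∃ f1, f1 ∉ P ∧ ∀ y ∈ P, f1 * y ∈ Ideal.span (Set.range x) := by
    obtain ⟨T, hT⟩ := (IsNoetherian.noetherian P : P.FG)
    have h1 : ∀ y ∈ P, ∃ s, s ∉ P ∧ s * y ∈ Ideal.span (Set.range x) := by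
      intro y hy
      refine loc_mem P _ y ?_
      rw [hxmap, ← Localization.AtPrime.map_eq_maximalIdeal]
      exact Ideal.mem_map_of_mem _ hy
    choose! s hs hs2 using h1
    have hTP : ∀ y ∈ T, y ∈ P := fun y hy => by rw [← hT]; exact Submodule.subset_span hy
    refine ⟨∏ y ∈ T, s y, ?_, ?_⟩
    · intro h2
      obtain ⟨y, hy, hy2⟩ := (hP.prod_mem_iff).1 h2
      exact hs y (hTP y hy) hy2
    · intro y hy
      rw [← hT] at hy
      induction hy using Submodule.span_induction with
      | mem y hy =>
        rw [← Finset.mul_prod_erase T s hy, mul_right_comm, mul_comm]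
        exact Ideal.mul_mem_left _ _ (hs2 y (hTP y hy))
      | zero => rw [mul_zero]; exact Ideal.zero_mem _
      | add y z _ _ hy hz => rw [mul_add]; exact Ideal.add_mem _ hy hz
      | smul a y _ hy => rw [smul_eq_mul, mul_left_comm]; exact Ideal.mul_mem_left _ _ hy
  refine ⟨f1 * f3 * coeff m₀ F * g, n + 1, ?_, ?_⟩
  · intro h1
    rcases hP.mem_or_mem h1 with h2 | h2
    · rcases hP.mem_or_mem h2 with h3 | h3
      · rcases hP.mem_or_mem h3 with h4 | h4
        · exact hf1 h4
        · exact hf3 h4
      · exact hm₀ h3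
    · exact hg h2
  · intro Q hQ hPQ hfQ hcon
    have hgQ : g ∉ Q := fun h1 => hfQ (Q.mul_mem_left _ h1)
    have hmQ : coeff m₀ F ∉ Q := fun h1 => hfQ (Q.mul_mem_right _ (Q.mul_mem_left _ h1))
    have hf1Q : f1 ∉ Q := fun h1 =>
      hfQ (Q.mul_mem_right _ (Q.mul_mem_right _ (Q.mul_mem_right _ h1)))
    have hregA : IsRegularLocalRing (Localization.AtPrime Q) := inferInstance
    have hregQ := hreg Q hPQ hgQ
    set K := P.map (algebraMap R (Localization.AtPrime Q)) with hK
    let y : Fin h → Localization.AtPrime Q := fun i => algebraMap R (Localization.AtPrime Q) (x i)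
    have hKy : K = Ideal.span (Set.range y) := by
      apply le_antisymm
      · rw [hK, Ideal.map_le_iff_le_comap]
        intro r hr
        have h1 := mem_loc Q _ r f1 hf1Q (hf1P r hr)
        rw [Ideal.map_span, ← Set.range_comp] at h1
        exact h1
      · rw [Ideal.span_le]
        rintro _ ⟨i, rfl⟩
        exact Ideal.mem_map_of_mem _ (hxP i)
    have hymem : ∀ i, y i ∈ maximalIdeal (Localization.AtPrime Q) := by
      intro i
      rw [← Localization.AtPrime.map_eq_maximalIdeal]
      exact Ideal.mem_map_of_mem _ (hPQ (hxP i))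
    have hind : Ind y := by
      refine ⟨hymem, ?_⟩
      intro b hb i₀
      by_contra hbi
      have hbu : IsUnit (b i₀) := by
        by_contra h1
        exact hbi h1
      have h1 : ∑ i, b i * y i ∈ K ⊓ maximalIdeal (Localization.AtPrime Q) ^ 2 := by
        refine ⟨?_, hb⟩
        rw [hKy]
        exact Ideal.sum_mem _ fun i _ => Ideal.mul_mem_left _ _ (Ideal.subset_span ⟨i, rfl⟩)
      have h2 := Pool.Agent.H379R3.inf_sq_le K h1
      -- Nakayama
      let K' : Ideal (Localization.AtPrime Q) := Ideal.span (y '' {i | i ≠ i₀})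
      have hK'K : K' ≤ K := by
        rw [hKy]
        exact Ideal.span_mono (Set.image_subset_range _ _)
      have h3 : y i₀ ∈ K' ⊔ maximalIdeal (Localization.AtPrime Q) • K := by
        rw [← Ideal.unit_mul_mem_iff_mem _ hbu]
        rw [← Finset.add_sum_erase _ _ (Finset.mem_univ i₀)] at h2
        have h4 : ∑ i ∈ Finset.univ.erase i₀, b i * y i ∈ K' :=
          Ideal.sum_mem _ fun i hi => Ideal.mul_mem_left _ _
            (Ideal.subset_span ⟨i, (Finset.mem_erase.1 hi).1, rfl⟩)
        have h5 : b i₀ * y i₀ = - ∑ i ∈ Finset.univ.erase i₀, b i * y i +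
            (b i₀ * y i₀ + ∑ i ∈ Finset.univ.erase i₀, b i * y i) := by ring
        rw [h5]
        exact Ideal.add_mem _ (Ideal.mem_sup_left (neg_mem h4)) (Ideal.mem_sup_right h2)
      have h6 : K ≤ K' ⊔ maximalIdeal (Localization.AtPrime Q) • K := by
        conv_lhs => rw [hKy]
        rw [Ideal.span_le]
        rintro _ ⟨i, rfl⟩
        by_cases hi : i = i₀
        · rw [hi]; exact h3
        · exact Ideal.mem_sup_left (Ideal.subset_span ⟨i, hi, rfl⟩)
      have h7 : K ≤ K' :=
        Submodule.le_of_le_smul_of_le_jacobson_bot (IsNoetherian.noetherian K)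
          (IsLocalRing.maximalIdeal_le_jacobson _) h6
      have h8 : y i₀ ∈ K' := h7 (by rw [hKy]; exact Ideal.subset_span ⟨i₀, rfl⟩)
      have h9 : algebraMap R (Localization.AtPrime Q) (x i₀) ∈
          (Ideal.span (x '' {i | i ≠ i₀})).map (algebraMap R (Localization.AtPrime Q)) := by
        rw [Ideal.map_span, ← Set.image_comp]
        exact h8
      obtain ⟨s, hs, hs2⟩ := loc_mem Q _ _ h9
      have h10 := mem_loc P _ _ s (fun h => hs (hPQ h)) hs2
      -- too few generators
      have h11 : maximalIdeal (Localization.AtPrime P) =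
          Ideal.span ((fun i => algebraMap R (Localization.AtPrime P) (x i)) '' {i | i ≠ i₀}) := by
        apply le_antisymm
        · rw [← hx, Ideal.span_le]
          rintro _ ⟨i, rfl⟩
          by_cases hi : i = i₀
          · rw [Ideal.map_span, ← Set.image_comp] at h10
            rw [hi]
            exact h10
          · exact Ideal.subset_span ⟨i, hi, rfl⟩
        · rw [← hx]
          exact Ideal.span_mono (Set.image_subset_range _ _)
      have h12 : (maximalIdeal (Localization.AtPrime P)).spanFinrank ≤
          ((fun i => algebraMap R (Localization.AtPrime P) (x i)) '' {i | i ≠ i₀}).ncard := by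
        conv_lhs => rw [h11]
        exact Submodule.spanFinrank_span_le_ncard_of_finite (Set.toFinite _)
      have h13 : ((fun i => algebraMap R (Localization.AtPrime P) (x i)) ''
          {i | i ≠ i₀}).ncard ≤ ({i | i ≠ i₀} : Set (Fin h)).ncard :=
        Set.ncard_image_le (Set.toFinite _)
      have h14 : ({i | i ≠ i₀} : Set (Fin h)).ncard = h - 1 := by
        have : ({i | i ≠ i₀} : Set (Fin h)) = ((Finset.univ.erase i₀ : Finset (Fin h)) :
            Set (Fin h)) := by
          ext i; simp
        rw [this, Set.ncard_coe_finset, Finset.card_erase_of_mem (Finset.mem_univ _),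
          Finset.card_univ, Fintype.card_fin]
      have h15 : 0 < h := i₀.pos
      rw [hh] at h12
      omega
    have hform := form_notMem hind n (F.map (algebraMap R (Localization.AtPrime Q)))
      (hF.map _) m₀ (by
        rw [coeff_map]
        intro h1
        exact hmQ ((IsLocalization.AtPrime.to_map_mem_maximal_iff (Localization.AtPrime Q) Q _).1
          h1))
    apply hform
    have h1 : eval y (F.map (algebraMap R (Localization.AtPrime Q))) =
        algebraMap R (Localization.AtPrime Q) (eval x F) := by
      rw [eval_map]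
      change _ = algebraMap R (Localization.AtPrime Q) (eval₂ (RingHom.id R) x F)
      rw [eval₂_comp_left (algebraMap R (Localization.AtPrime Q)) (RingHom.id R) x F]
      rfl
    rw [h1, hFe, map_mul]
    exact Ideal.mul_mem_left _ _ hcon

/-- The order of `c` is bounded. -/
theorem bound (c : R) (hc : ∀ P ∈ minimalPrimes R, c ∉ P)
    (hJ : ∀ (P : Ideal R) [P.IsPrime], ∃ g ∉ P, ∀ (Q : Ideal R) [Q.IsPrime], P ≤ Q → g ∉ Q →
      IsRegularLocalRing (Localization.AtPrime Q ⧸
        P.map (algebraMap R (Localization.AtPrime Q)))) :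
    ∃ N : ℕ, ∀ (Q : Ideal R) [Q.IsPrime], algebraMap R (Localization.AtPrime Q) c ∉
      maximalIdeal (Localization.AtPrime Q) ^ N := by
  have main : ∀ I : Ideal R, ∃ N : ℕ, ∀ (Q : Ideal R) [Q.IsPrime], I ≤ Q →
      algebraMap R (Localization.AtPrime Q) c ∉ maximalIdeal (Localization.AtPrime Q) ^ N := by
    intro I
    induction I using WellFoundedGT.induction with
    | ind I ih =>
      by_cases hI : I = ⊤
      · refine ⟨0, fun Q hQ hle => ?_⟩
        exact absurd (top_le_iff.1 (hI ▸ hle)) hQ.ne_top
      · by_cases hp : I.IsPrime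
        · obtain ⟨g, hg, hreg⟩ := hJ I
          obtain ⟨f, N, hf, hN⟩ := local_bound c hc I g hg hreg
          have hlt : I < I ⊔ Ideal.span {f} := by
            refine lt_of_le_of_ne le_sup_left ?_
            intro h
            apply hf
            rw [h]
            exact Ideal.mem_sup_right (Ideal.mem_span_singleton_self f)
          obtain ⟨N', hN'⟩ := ih _ hlt
          refine ⟨max N N', fun Q hQ hle hcon => ?_⟩
          by_cases hfQ : f ∈ Q
          · exact hN' Q (sup_le hle ((Ideal.span_singleton_le_iff_mem _).2 hfQ))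
              (Ideal.pow_le_pow_right (le_max_right N N') hcon)
          · exact hN Q hle hfQ (Ideal.pow_le_pow_right (le_max_left N N') hcon)
        · have hab : ∃ a b : R, a ∉ I ∧ b ∉ I ∧ a * b ∈ I := by
            by_contra hcon
            push Not at hcon
            apply hp
            refine ⟨hI, fun {a b} hab => ?_⟩
            by_contra h
            push Not at h
            exact hcon a b h.1 h.2 hab
          obtain ⟨a, b, ha, hb, hab⟩ := hab
          have hlt : ∀ f, f ∉ I → I < I ⊔ Ideal.span {f} := by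
            intro f hf
            refine lt_of_le_of_ne le_sup_left ?_
            intro h
            apply hf
            rw [h]
            exact Ideal.mem_sup_right (Ideal.mem_span_singleton_self f)
          obtain ⟨N, hN⟩ := ih _ (hlt a ha)
          obtain ⟨N', hN'⟩ := ih _ (hlt b hb)
          refine ⟨max N N', fun Q hQ hle hcon => ?_⟩
          rcases hQ.mem_or_mem (hle hab) with h | h
          · exact hN Q (sup_le hle ((Ideal.span_singleton_le_iff_mem _).2 h))
              (Ideal.pow_le_pow_right (le_max_left N N') hcon)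
          · exact hN' Q (sup_le hle ((Ideal.span_singleton_le_iff_mem _).2 h))
              (Ideal.pow_le_pow_right (le_max_right N N') hcon)
  obtain ⟨N, hN⟩ := main ⊥
  exact ⟨N, fun Q hQ => hN Q bot_le⟩

end key

end Pool.Agent.X276.Od
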