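import Pool.Agent.H51R3.PS.Common
import Pool.Agent.H607R3.PS.Grade
import Pool.Agent.H594.PSRegP
import Pool.Agent.H841.PSRes

set_option autoImplicit false

/-! # The two remaining tasks (dimension and grade) for the second ring `R[[t]]/(s t)`. -/

namespace Pool.Agent.X276.GC

open Pool.Agent.H607R3.PS H51R3.PS IsLocalRing

variable {T : Type} [CommRing T] {α β γ : T}

/-- the class of the variable -/
noncomputable def tt (T : Type) [CommRing T] (α β γ : T) : RP T α β γ :=
  Ideal.Quotient.mk _ PowerSeries.X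

theorem s_tt : toRP (RR.s : RR T α β γ) * tt T α β γ = 0 := by
  change Ideal.Quotient.mk _ (PowerSeries.C (RR.s : RR T α β γ)) *
    Ideal.Quotient.mk _ PowerSeries.X = 0
  rw [← map_mul, Ideal.Quotient.eq_zero_iff_mem]
  exact Ideal.subset_span rfl

/-- The map to power series over `R/s`. -/
noncomputable def toA (T : Type) [CommRing T] (α β γ : T) :
    RP T α β γ →+* PowerSeries (RR T α β γ ⧸ (Ideal.span {RR.s} : Ideal (RR T α β γ))) :=
  Ideal.Quotient.lift _ (PowerSeries.map (Ideal.Quotient.mk _)) (by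
    intro f hf
    rw [Ideal.mem_span_singleton] at hf
    obtain ⟨c, rfl⟩ := hf
    have : Ideal.Quotient.mk (Ideal.span {RR.s} : Ideal (RR T α β γ)) RR.s = 0 := by
      rw [Ideal.Quotient.eq_zero_iff_mem]
      exact Ideal.subset_span rfl
    rw [map_mul, map_mul, PowerSeries.map_C, this, map_zero, zero_mul, zero_mul])

theorem toA_surj : Function.Surjective (toA T α β γ) := by
  intro f
  obtain ⟨g, hg⟩ : ∃ g : PowerSeries (RR T α β γ),
      PowerSeries.map (Ideal.Quotient.mk (Ideal.span {RR.s} : Ideal (RR T α β γ))) g = f := by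
    choose c hc using fun n => Ideal.Quotient.mk_surjective
      (I := (Ideal.span {RR.s} : Ideal (RR T α β γ))) (PowerSeries.coeff n f)
    refine ⟨PowerSeries.mk c, ?_⟩
    ext n
    rw [PowerSeries.coeff_map, PowerSeries.coeff_mk, hc]
  exact ⟨Ideal.Quotient.mk _ g, hg⟩

theorem dim_RP [IsLocalRing T] [IsNoetherianRing T] [IsDomain T] (hB : Base T α β γ) :
    (4 : WithBot ℕ∞) ≤ ringKrullDim (RP T α β γ) := by
  calc (4 : WithBot ℕ∞) = 3 + 1 := by norm_num
    _ ≤ ringKrullDim (RR T α β γ ⧸ (Ideal.span {RR.s} : Ideal (RR T α β γ))) + 1 :=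
        add_le_add (dimA hB) le_rfl
    _ ≤ ringKrullDim (PowerSeries (RR T α β γ ⧸ (Ideal.span {RR.s} : Ideal (RR T α β γ)))) :=
        ringKrullDim_succ_le_ringKrullDim_powerseries
    _ ≤ _ := ringKrullDim_le_of_surjective (toA T α β γ) toA_surj

/-- constant coefficient -/
noncomputable def cc (T : Type) [CommRing T] (α β γ : T) : RP T α β γ →+* RR T α β γ :=
  Ideal.Quotient.lift _ (PowerSeries.constantCoeff (R := RR T α β γ)) (by
    intro f hf
    rw [Ideal.mem_span_singleton] at hf
    obtain ⟨c, rfl⟩ := hf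
    simp)

theorem cc_toRP (u : RR T α β γ) : cc T α β γ (toRP u) = u := by
  change PowerSeries.constantCoeff (PowerSeries.C u) = u
  simp

theorem cc_tt : cc T α β γ (tt T α β γ) = 0 := by
  change PowerSeries.constantCoeff (PowerSeries.X) = (0 : RR T α β γ)
  simp

/-- every element is constant plus multiple of t -/
theorem split (f : RP T α β γ) :
    ∃ g : RP T α β γ, f = toRP (cc T α β γ f) + tt T α β γ * g := by
  obtain ⟨f, rfl⟩ := Ideal.Quotient.mk_surjective f
  obtain ⟨g, hg⟩ : ∃ g : PowerSeries (RR T α β γ),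
      f = PowerSeries.C (PowerSeries.constantCoeff f) + PowerSeries.X * g := by
    refine ⟨PowerSeries.mk fun p => PowerSeries.coeff (p + 1) f, ?_⟩
    rw [← PowerSeries.sub_const_eq_X_mul_shift]
    ring
  refine ⟨Ideal.Quotient.mk _ g, ?_⟩
  conv_lhs => rw [hg]
  rw [map_add, map_mul]
  rfl

theorem gen_mem (i : Fin 7) : gens (toRP (RR.x : RR T α β γ)) (toRP RR.y) (toRP RR.z)
    (toRP RR.w) (toRP RR.s) i ∈ cP T α β γ := Ideal.subset_span ⟨i, rfl⟩

/-- primes over `cP` and `t + γ` contain everything. -/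
theorem prime_all (P : Ideal (RP T α β γ)) [hP : P.IsPrime] (hc : cP T α β γ ≤ P)
    (hu : tt T α β γ + toRP (RR.emb γ : RR T α β γ) ∈ P) :
    toRP (RR.emb α : RR T α β γ) ∈ P ∧ toRP (RR.emb β : RR T α β γ) ∈ P ∧
    toRP (RR.emb γ : RR T α β γ) ∈ P ∧ toRP (RR.x : RR T α β γ) ∈ P ∧
    toRP (RR.w : RR T α β γ) ∈ P ∧ tt T α β γ ∈ P := by
  have hA : toRP (RR.emb α : RR T α β γ) ∈ P := hP.mem_of_pow_mem 4 (hc mem_F)
  have hBt : toRP (RR.emb β : RR T α β γ) ∈ P := hP.mem_of_pow_mem 2 (hc mem_G)
  have hz : toRP (RR.z : RR T α β γ) ∈ P := by rw [RR.z_eq]; exact hBt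
  have hsw : toRP (RR.s : RR T α β γ) + toRP (RR.w : RR T α β γ) =
      toRP (RR.emb γ : RR T α β γ) := by
    rw [← map_add, RR.s_add_w]
  have hws : toRP (RR.w : RR T α β γ) * toRP (RR.s : RR T α β γ) = 0 := by
    rw [← map_mul, RR.ws, map_zero]
  have hs : toRP (RR.s : RR T α β γ) ∈ P := by
    have h0 : toRP (RR.s : RR T α β γ) * tt T α β γ ∈ P := by rw [s_tt]; exact P.zero_mem
    rcases hP.mem_or_mem h0 with h | h
    · exact h
    · have h1 : toRP (RR.emb γ : RR T α β γ) ∈ P := by
        have := P.sub_mem hu h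
        rwa [add_sub_cancel_left] at this
      have h2 : toRP (RR.w : RR T α β γ) * toRP (RR.s : RR T α β γ) ∈ P := by
        rw [hws]; exact P.zero_mem
      rcases hP.mem_or_mem h2 with h3 | h3
      · rw [← hsw] at h1
        have := P.sub_mem h1 h3
        rwa [add_sub_cancel_right] at this
      · exact h3
  have hw : toRP (RR.w : RR T α β γ) ∈ P := by
    have h4 := hc (gen_mem (T := T) (α := α) (β := β) (γ := γ) 4)
    have h5 : toRP (RR.w : RR T α β γ) ^ 4 + toRP (RR.s : RR T α β γ) * toRP RR.y * toRP RR.z ∈ P :=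
      h4
    have h6 : toRP (RR.s : RR T α β γ) * toRP RR.y * toRP RR.z ∈ P := P.mul_mem_left _ hz
    have := P.sub_mem h5 h6
    rw [add_sub_cancel_right] at this
    exact hP.mem_of_pow_mem 4 this
  have hx : toRP (RR.x : RR T α β γ) ∈ P := by
    have h4 := hc (gen_mem (T := T) (α := α) (β := β) (γ := γ) 3)
    have h5 : toRP (RR.x : RR T α β γ) ^ 2 + toRP (RR.s : RR T α β γ) ^ 2 * toRP RR.z ∈ P :=
      h4
    have h6 : toRP (RR.s : RR T α β γ) ^ 2 * toRP RR.z ∈ P := P.mul_mem_left _ hz
    have := P.sub_mem h5 h6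
    rw [add_sub_cancel_right] at this
    exact hP.mem_of_pow_mem 2 this
  have hg : toRP (RR.emb γ : RR T α β γ) ∈ P := by
    rw [← hsw]; exact P.add_mem hs hw
  refine ⟨hA, hBt, hg, hx, hw, ?_⟩
  have := P.sub_mem hu hg
  rwa [add_sub_cancel_right] at this

theorem prime_max [IsLocalRing T] [IsNoetherianRing T] [IsDomain T] (hB : Base T α β γ)
    [IsLocalRing (RP T α β γ)] [IsLocalRing (RR T α β γ)]
    (P : Ideal (RP T α β γ)) [hP : P.IsPrime] (hc : cP T α β γ ≤ P)
    (hu : tt T α β γ + toRP (RR.emb γ : RR T α β γ) ∈ P) :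
    maximalIdeal (RP T α β γ) ≤ P := by
  obtain ⟨h1, h2, h3, h4, h5, h6⟩ := prime_all P hc hu
  have hT : ∀ t ∈ maximalIdeal T, toRP (RR.emb t : RR T α β γ) ∈ P := by
    intro t ht
    have hle : maximalIdeal T ≤ P.comap ((toRP : RR T α β γ →+* RP T α β γ).comp RR.emb) := by
      rw [hB.max, Ideal.span_le]
      intro u hu
      simp only [Set.mem_insert_iff, Set.mem_singleton_iff] at hu
      rcases hu with rfl | rfl | rfl
      · exact h1
      · exact h2
      · exact h3
    exact hle ht
  intro f hf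
  obtain ⟨g, hg⟩ := split f
  have hnu : ¬ IsUnit (cc T α β γ f).a := by
    intro hun
    -- then cc f is a unit
    have h0 : IsUnit (cc T α β γ f) := by
      by_contra hcon
      -- the first coordinate map is local
      have hm : (cc T α β γ f) ∈ maximalIdeal (RR T α β γ) := hcon
      have hloc : IsLocalHom (algebraMap T (RR T α β γ)) := by
        have : Algebra.IsIntegral T (RR T α β γ) := inferInstance
        have hinj : Function.Injective (algebraMap T (RR T α β γ)) := by
          intro a b hab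
          exact congrArg RR.a hab
        exact (algebraMap_isIntegral_iff.mpr this).isLocalHom hinj
      have hxm : (RR.x : RR T α β γ) ∈ maximalIdeal (RR T α β γ) := by
        have hα : (RR.emb α : RR T α β γ) ∈ maximalIdeal (RR T α β γ) :=
          fun h => (mem_max hB).1 (isUnit_of_map_unit (algebraMap T (RR T α β γ)) α h)
        have hβ : (RR.emb β : RR T α β γ) ∈ maximalIdeal (RR T α β γ) :=
          fun h => (mem_max hB).2.1 (isUnit_of_map_unit (algebraMap T (RR T α β γ)) β h)
        have hx2 : (RR.x : RR T α β γ) ^ 2 = RR.emb α * RR.x + RR.emb β * RR.w := by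
          ext <;> simp [RR.x, RR.w, pow_two]
        apply (inferInstance : (maximalIdeal (RR T α β γ)).IsPrime).mem_of_pow_mem 2
        rw [hx2]
        exact Ideal.add_mem _ (Ideal.mul_mem_right _ _ hα) (Ideal.mul_mem_right _ _ hβ)
      have hwm : (RR.w : RR T α β γ) ∈ maximalIdeal (RR T α β γ) := by
        have hγ : (RR.emb γ : RR T α β γ) ∈ maximalIdeal (RR T α β γ) :=
          fun h => (mem_max hB).2.2 (isUnit_of_map_unit (algebraMap T (RR T α β γ)) γ h)
        have hw2 : (RR.w : RR T α β γ) ^ 2 = RR.emb γ * RR.w := by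
          ext <;> simp [RR.w, pow_two]
        apply (inferInstance : (maximalIdeal (RR T α β γ)).IsPrime).mem_of_pow_mem 2
        rw [hw2]
        exact Ideal.mul_mem_right _ _ hγ
      rw [RR.decomp (cc T α β γ f)] at hm
      have h7 : (RR.emb (cc T α β γ f).b : RR T α β γ) * RR.x ∈ maximalIdeal (RR T α β γ) :=
        Ideal.mul_mem_left _ _ hxm
      have h8 : (RR.emb (cc T α β γ f).c : RR T α β γ) * RR.w ∈ maximalIdeal (RR T α β γ) :=
        Ideal.mul_mem_left _ _ hwm
      have h9 := Ideal.sub_mem _ (Ideal.sub_mem _ hm h8) h7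
      rw [add_sub_cancel_right, add_sub_cancel_right] at h9
      exact h9 (hun.map (RR.emb : T →+* RR T α β γ))
    -- so f is a unit
    have h10 : IsUnit f := by
      have hlo : IsLocalHom (cc T α β γ) := by
        refine ⟨fun a ha => ?_⟩
        by_contra hcon
        have hcm : a ∈ maximalIdeal (RP T α β γ) := hcon
        have hsurj : Function.Surjective (cc T α β γ) := fun u => ⟨toRP u, cc_toRP u⟩
        have hker : RingHom.ker (cc T α β γ) ≤ maximalIdeal (RP T α β γ) :=
          IsLocalRing.le_maximalIdeal (RingHom.ker_ne_top _)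
        obtain ⟨b, hb⟩ := ha.exists_right_inv
        obtain ⟨b, rfl⟩ := hsurj b
        have : 1 - a * b ∈ RingHom.ker (cc T α β γ) := by
          rw [RingHom.mem_ker, map_sub, map_mul, map_one, hb, sub_self]
        have h11 := Ideal.add_mem _ (hker this) (Ideal.mul_mem_right b _ hcm)
        rw [sub_add_cancel] at h11
        exact (Ideal.ne_top_iff_one _).mp (maximalIdeal.isMaximal _).ne_top h11
      exact isUnit_of_map_unit (cc T α β γ) f h0
    exact hf h10
  rw [hg]
  refine P.add_mem ?_ (P.mul_mem_right _ h6)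
  rw [RR.decomp (cc T α β γ f)]
  rw [map_add, map_add, map_mul, map_mul]
  exact P.add_mem (P.add_mem (hT _ hnu) (P.mul_mem_left _ h4)) (P.mul_mem_left _ h5)

theorem dim_le_one {Q : Type} [CommRing Q] [IsLocalRing Q] [IsNoetherianRing Q] (u : Q)
    (hmem : u ∈ maximalIdeal Q)
    (h : ∀ P : Ideal Q, P.IsPrime → u ∈ P → maximalIdeal Q ≤ P) : ringKrullDim Q ≤ 1 := by
  rw [← IsLocalRing.maximalIdeal_height_eq_ringKrullDim]
  have hmin : maximalIdeal Q ∈ (Ideal.span {u} : Ideal Q).minimalPrimes := by
    refine ⟨⟨inferInstance, ?_⟩, ?_⟩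
    · rw [Ideal.span_le, Set.singleton_subset_iff]
      exact hmem
    · rintro P ⟨hP, hP2⟩ -
      exact h P hP (hP2 (Ideal.subset_span rfl))
  have h := Ideal.height_le_one_of_isPrincipal_of_mem_minimalPrimes _ _ hmin
  exact_mod_cast h

theorem dim_Q [IsLocalRing T] [IsNoetherianRing T] [IsDomain T] (hB : Base T α β γ)
    [IsLocalRing (RP T α β γ)] [IsLocalRing (RR T α β γ)] :
    ringKrullDim (RP T α β γ ⧸ cP T α β γ) ≤ 1 := by
  have hne : cP T α β γ ≠ ⊤ := cP_ne_top (mem_max hB).1 (mem_max hB).2.1 (mem_max hB).2.2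
  have : Nontrivial (RP T α β γ ⧸ cP T α β γ) := Ideal.Quotient.nontrivial_iff.mpr hne
  have : IsLocalRing (RP T α β γ ⧸ cP T α β γ) :=
    IsLocalRing.of_surjective' (Ideal.Quotient.mk _) Ideal.Quotient.mk_surjective
  have : IsNoetherianRing (RP T α β γ) := noeth_RP
  set π := Ideal.Quotient.mk (cP T α β γ) with hπ
  set u : RP T α β γ := tt T α β γ + toRP (RR.emb γ : RR T α β γ) with hu
  have hmem : π u ∈ maximalIdeal (RP T α β γ ⧸ cP T α β γ) := by
    intro hun
    obtain ⟨v, hv⟩ := hun.exists_right_inv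
    obtain ⟨v, rfl⟩ := Ideal.Quotient.mk_surjective v
    -- evaluate at residue field
    have hker : ∀ f ∈ cP T α β γ, ((residue T).comp (rho.comp (cc T α β γ))) f = 0 := by
      intro f hf
      have hle : cP T α β γ ≤ RingHom.ker ((residue T).comp (rho.comp (cc T α β γ))) := by
        unfold cP cI
        rw [Ideal.span_le]
        rintro _ ⟨i, rfl⟩
        have h1 := rho_gens (T := T) (α := α) (β := β) (γ := γ) i
        have h2 : cc T α β γ (gens (toRP (RR.x : RR T α β γ)) (toRP RR.y) (toRP RR.z)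
            (toRP RR.w) (toRP RR.s) i) = gens (RR.x : RR T α β γ) RR.y RR.z RR.w RR.s i := by
          fin_cases i <;> simp [gens, cc_toRP]
        change (residue T) (rho (cc T α β γ _)) = 0
        rw [h2, residue_eq_zero_iff]
        have hle2 : (Ideal.span {α, β} : Ideal T) ≤ maximalIdeal T := by
          rw [Ideal.span_le]
          intro t ht
          rw [Set.mem_insert_iff, Set.mem_singleton_iff] at ht
          rcases ht with rfl | rfl
          · exact (mem_max hB).1
          · exact (mem_max hB).2.1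
        exact hle2 h1
      exact hle hf
    have h3 := congrArg (Ideal.Quotient.lift _ _ hker) hv
    rw [map_mul, map_one, Ideal.Quotient.lift_mk] at h3
    have h4 : ((residue T).comp (rho.comp (cc T α β γ))) u = 0 := by
      change (residue T) (rho (cc T α β γ u)) = 0
      rw [hu, map_add, cc_tt, cc_toRP, zero_add, residue_eq_zero_iff]
      exact (mem_max hB).2.2
    rw [h4, zero_mul] at h3
    exact zero_ne_one h3
  refine dim_le_one (π u) hmem ?_
  intro Q hQ hQ2
  have h5 : cP T α β γ ≤ Q.comap π := by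
    intro f hf
    rw [Ideal.mem_comap, Ideal.Quotient.eq_zero_iff_mem.mpr hf]
    exact Q.zero_mem
  have h6 := prime_max hB (Q.comap π) h5 hQ2
  intro q hq
  obtain ⟨q, rfl⟩ := Ideal.Quotient.mk_surjective q
  apply h6
  intro hun
  exact hq (hun.map π)

/-- the prime of small height -/
noncomputable def rr (T : Type) [CommRing T] (α β γ : T) : Ideal (RP T α β γ) :=
  (Ideal.span {α, β} : Ideal T).comap (rho.comp (cc T α β γ))

theorem cP_le_rr : cP T α β γ ≤ rr T α β γ := by
  unfold cP cI
  rw [Ideal.span_le]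
  rintro _ ⟨i, rfl⟩
  have h2 : cc T α β γ (gens (toRP (RR.x : RR T α β γ)) (toRP RR.y) (toRP RR.z)
      (toRP RR.w) (toRP RR.s) i) = gens (RR.x : RR T α β γ) RR.y RR.z RR.w RR.s i := by
    fin_cases i <;> simp [gens, cc_toRP]
  change rho (cc T α β γ _) ∈ (Ideal.span {α, β} : Ideal T)
  rw [h2]
  exact rho_gens i

theorem s_notMem [IsLocalRing T] [IsNoetherianRing T] [IsDomain T] (hB : Base T α β γ) :
    toRP (RR.s : RR T α β γ) ∉ rr T α β γ := by
  intro h
  change rho (cc T α β γ (toRP (RR.s : RR T α β γ))) ∈ (Ideal.span {α, β} : Ideal T) at h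
  rw [cc_toRP] at h
  exact hB.notMem h

theorem height_rr [IsLocalRing T] [IsNoetherianRing T] [IsDomain T] (hB : Base T α β γ)
    [IsLocalRing (RR T α β γ)] : (rr T α β γ).height ≤ 2 := by
  have := hB.prime2
  have hrp : (rr T α β γ).IsPrime := Ideal.IsPrime.comap _
  have : IsNoetherianRing (RP T α β γ) := noeth_RP
  obtain ⟨l, hl1, hl2⟩ := Ideal.exists_ltSeries_length_eq_height (rr T α β γ)
  rw [← hl2]
  by_contra hcon
  have hlen : 3 ≤ l.length := by
    by_contra h3
    exact hcon (by exact_mod_cast (by omega : l.length ≤ 2))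
  have hle : ∀ i, (l i).asIdeal ≤ rr T α β γ := by
    intro i
    have h1 : l i ≤ RelSeries.last l := LTSeries.monotone l (Fin.le_last i)
    have h2 : (RelSeries.last l).asIdeal = rr T α β γ := by rw [hl1]
    rw [← h2]
    exact h1
  have ht : ∀ i, tt T α β γ ∈ (l i).asIdeal := by
    intro i
    have h0 : toRP (RR.s : RR T α β γ) * tt T α β γ ∈ (l i).asIdeal := by
      rw [s_tt]; exact Ideal.zero_mem _
    rcases (l i).isPrime.mem_or_mem h0 with h | h
    · exact absurd (hle i h) (s_notMem hB)
    · exact h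
  let m : LTSeries (PrimeSpectrum (RR T α β γ)) :=
    { length := l.length
      toFun := fun i => PrimeSpectrum.comap (toRP : RR T α β γ →+* RP T α β γ) (l i)
      step := by
        intro i
        have hlt : l i.castSucc < l i.succ := l.step i
        have hle2 : PrimeSpectrum.comap (toRP : RR T α β γ →+* RP T α β γ) (l i.castSucc) ≤
            PrimeSpectrum.comap (toRP : RR T α β γ →+* RP T α β γ) (l i.succ) := by
          intro u hu
          exact hlt.le hu
        refine lt_of_le_of_ne hle2 ?_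
        intro heq
        apply hlt.not_ge
        intro f hf
        obtain ⟨g, hg⟩ := split f
        have h1 : tt T α β γ * g ∈ (l i.succ).asIdeal := Ideal.mul_mem_right _ _ (ht _)
        have h2 : toRP (cc T α β γ f) ∈ (l i.succ).asIdeal := by
          have := Ideal.sub_mem _ hf h1
          conv at this =>
            rw [hg]
          have e : toRP (cc T α β γ f) + tt T α β γ * g - tt T α β γ * g =
            toRP (cc T α β γ f) := by ring
          have h9 : f - tt T α β γ * g = toRP (cc T α β γ f) := by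
            rw [sub_eq_iff_eq_add]; exact hg
          have h10 := Ideal.sub_mem _ hf h1
          rwa [h9] at h10
        have h3 : cc T α β γ f ∈ (PrimeSpectrum.comap (toRP : RR T α β γ →+* RP T α β γ)
            (l i.succ)).asIdeal := h2
        rw [← heq] at h3
        have h4 : toRP (cc T α β γ f) ∈ (l i.castSucc).asIdeal := h3
        rw [hg]
        exact Ideal.add_mem _ h4 (Ideal.mul_mem_right _ _ (ht _)) }
  have hlast : (RelSeries.last m).asIdeal ≤ (Ideal.span {α, β} : Ideal T).comap rho := by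
    intro u hu
    have hu' : toRP u ∈ (l (Fin.last _)).asIdeal := hu
    have := hle _ hu'
    change rho (cc T α β γ (toRP u)) ∈ (Ideal.span {α, β} : Ideal T) at this
    rw [cc_toRP] at this
    exact this
  have hlt : RelSeries.last m < closedPoint (RR T α β γ) := by
    refine lt_of_le_of_ne ?_ ?_
    · exact IsLocalRing.le_maximalIdeal (RelSeries.last m).isPrime.ne_top
    · intro heq
      have hs : (RR.s : RR T α β γ) ∈ (closedPoint (RR T α β γ)).asIdeal := by
        -- s * w = 0 and s is not a unit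
        intro hun
        have h1 : (RR.w : RR T α β γ) = 0 := by
          have := (RR.ws : (RR.w * RR.s : RR T α β γ) = 0)
          exact (hun.mul_left_eq_zero).mp this
        have h2 := congrArg RR.c h1
        exact one_ne_zero h2
      rw [← heq] at hs
      exact hB.notMem (hlast hs)
  let m' : LTSeries (PrimeSpectrum (RR T α β γ)) := m.snoc (closedPoint (RR T α β γ)) hlt
  have h1 := Order.LTSeries.length_le_krullDim m'
  have h2 : m'.length = l.length + 1 := rfl
  rw [h2] at h1
  have h3 : ((l.length + 1 : ℕ) : WithBot ℕ∞) ≤ 3 := h1.trans (dimR hB)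
  have h4 : l.length + 1 ≤ 3 := by exact_mod_cast h3
  omega

theorem length_le_height {A : Type} [CommRing A] [IsNoetherianRing A] (P : Ideal A) [P.IsPrime]
    (S : Type) [CommRing S] [Algebra A S] [IsLocalization.AtPrime S P]
    {rs : List A} (hreg : RingTheory.Sequence.IsWeaklyRegular A rs) (hmem : ∀ r ∈ rs, r ∈ P) :
    ((rs.length : ℕ) : WithBot ℕ∞) ≤ (P.height : WithBot ℕ∞) := by
  have : IsNoetherianRing S := IsLocalization.isNoetherianRing P.primeCompl S inferInstance
  have : IsLocalRing S := IsLocalization.AtPrime.isLocalRing S P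
  have h1 : RingTheory.Sequence.IsRegular S (rs.map (algebraMap A S)) :=
    RingTheory.Sequence.IsWeaklyRegular.isRegular_of_isLocalization_of_mem S P hreg hmem
  have h2 := ringKrullDim_add_length_eq_ringKrullDim_of_isRegular _ h1
  rw [List.length_map, IsLocalization.AtPrime.ringKrullDim_eq_height P S] at h2
  have hnt : Nontrivial (S ⧸ Ideal.ofList (rs.map (algebraMap A S))) := by
    apply Ideal.Quotient.nontrivial_iff.mpr
    intro h
    apply h1.2
    rw [h, smul_eq_mul, Ideal.top_mul]
  have h3 : (0 : WithBot ℕ∞) ≤ ringKrullDim (S ⧸ Ideal.ofList (rs.map (algebraMap A S))) :=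
    ringKrullDim_nonneg_of_nontrivial
  calc ((rs.length : ℕ) : WithBot ℕ∞) = 0 + ((rs.length : ℕ) : WithBot ℕ∞) := (zero_add _).symm
    _ ≤ _ := add_le_add h3 le_rfl
    _ = _ := h2

theorem taskGradeP [IsLocalRing T] [IsNoetherianRing T] [IsDomain T] (hB : Base T α β γ)
    [IsLocalRing (RR T α β γ)] :
    ¬ ∃ rs : List (RP T α β γ), rs.length = 3 ∧ (∀ r ∈ rs, r ∈ cP T α β γ) ∧
      RingTheory.Sequence.IsWeaklyRegular (RP T α β γ) rs := by
  rintro ⟨rs, hlen, hmem, hreg⟩
  have := hB.prime2
  have hrp : (rr T α β γ).IsPrime := Ideal.IsPrime.comap _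
  have : IsNoetherianRing (RP T α β γ) := noeth_RP
  have h1 := length_le_height (rr T α β γ) (Localization.AtPrime (rr T α β γ)) hreg
    (fun r hr => cP_le_rr (hmem r hr))
  have h4 := height_rr hB
  rw [hlen] at h1
  have h5 : ((3 : ℕ) : ℕ∞) ≤ (rr T α β γ).height := WithBot.coe_le_coe.mp h1
  have h6 := h5.trans h4
  exact absurd (by exact_mod_cast h6 : (3 : ℕ) ≤ 2) (by decide)

end Pool.Agent.X276.GC
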