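import Mathlib

set_option autoImplicit false

open Polynomial

namespace Pool.Agent.X276.Brace

theorem jac_int : IsJacobsonRing ℤ := by
  rw [isJacobsonRing_iff_prime_eq]
  intro P hP
  by_cases h : P = ⊥
  · subst h
    rw [eq_bot_iff]
    intro x hx
    rw [Ideal.mem_jacobson_bot] at hx
    have h1 := hx x
    rw [Int.isUnit_iff] at h1
    rw [Ideal.mem_bot]
    rcases h1 with h1 | h1
    · have : x * x = 0 := by linarith
      exact mul_self_eq_zero.1 this
    · exfalso
      nlinarith [mul_self_nonneg x]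
  · have : P.IsMaximal := IsPrime.to_maximal_ideal h
    exact Ideal.jacobson_eq_self_of_isMaximal

/-- `f` is congruent to `1` modulo `X` -/
def One1 (f : ℤ[X]) : Prop := ∃ b, f = 1 + X * b

theorem One1.mul {f g : ℤ[X]} (hf : One1 f) (hg : One1 g) : One1 (f * g) := by
  obtain ⟨b, rfl⟩ := hf
  obtain ⟨c, rfl⟩ := hg
  exact ⟨b + c + X * b * c, by ring⟩

theorem One1.one : One1 1 := ⟨0, by ring⟩

theorem One1.pow {f : ℤ[X]} (hf : One1 f) (n : ℕ) : One1 (f ^ n) := by
  induction n with
  | zero => simpa using One1.one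
  | succ n ih => rw [pow_succ]; exact ih.mul hf

theorem One1.prod {ι : Type*} (s : Finset ι) (f : ι → ℤ[X]) (hf : ∀ i ∈ s, One1 (f i)) :
    One1 (∏ i ∈ s, f i) := by
  classical
  induction s using Finset.induction_on with
  | empty => simpa using One1.one
  | insert a s ha ih =>
    rw [Finset.prod_insert ha]
    exact (hf a (Finset.mem_insert_self a s)).mul (ih fun i hi => hf i (Finset.mem_insert_of_mem hi))

/-- the algebraic core -/
theorem A0 {V : Type*} [AddCommGroup V] [Module ℚ V] [FiniteDimensional ℚ V]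
    (J : Ideal ℤ[X]) (Rel : ℤ[X] → V → Prop)
    (h1 : Rel 1 0) (hmul : ∀ f w f' w', Rel f w → Rel f' w' → Rel (f * f') (w + w'))
    (heq : ∀ f f' w, Rel f w → Rel f' w → f - f' ∈ J)
    (hex : ∀ b, ∃ w, Rel (1 + X * b) w)
    (hinj : ∀ b c, (1 + X * b) * c ∈ J → c ∈ J) :
    ∃ k : ℕ, (X : ℤ[X]) ^ k ∈ J := by
  classical
  by_contra hk
  push Not at hk
  have : IsJacobsonRing ℤ := jac_int
  have step : ∀ F : ℤ[X], One1 F → ∃ (c : ℤ[X]) (m : Ideal ℤ[X]), J ≤ m ∧ m ≠ ⊤ ∧
      1 + X * F * c ∈ m := by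
    intro F hF
    have hrad2 : X * F ∉ J.jacobson := by
      rw [← Ideal.radical_eq_jacobson]
      rintro ⟨k, hkk⟩
      obtain ⟨b, hb⟩ := hF.pow k
      apply hk k
      apply hinj b
      rw [← hb]
      have : F ^ k * X ^ k = (X * F) ^ k := by rw [mul_pow, mul_comm]
      rw [this]; exact hkk
    rw [Ideal.jacobson, Ideal.mem_sInf] at hrad2
    push Not at hrad2
    obtain ⟨m, ⟨hJm, hmax⟩, hXF⟩ := hrad2
    obtain ⟨y, i, hi, hyi⟩ := hmax.exists_inv hXF
    refine ⟨-y, m, hJm, hmax.ne_top, ?_⟩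
    have : 1 + X * F * -y = i := by
      have h2 : i = 1 - y * (X * F) := by rw [← hyi]; ring
      rw [h2]; ring
    rw [this]; exact hi
  have seq : ∀ n : ℕ, ∃ (f : ℕ → ℤ[X]) (m : ℕ → Ideal ℤ[X]),
      (∀ i < n, One1 (f i) ∧ J ≤ m i ∧ m i ≠ ⊤ ∧ f i ∈ m i) ∧
      (∀ i < n, ∀ j < n, i ≠ j → IsCoprime (f i) (f j)) := by
    intro n
    induction n with
    | zero => exact ⟨fun _ => 1, fun _ => ⊥, by simp, by simp⟩
    | succ n ih =>
      obtain ⟨f, m, h1, h2⟩ := ih
      have hF : One1 (∏ i ∈ Finset.range n, f i) :=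
        One1.prod _ _ fun i hi => (h1 i (Finset.mem_range.1 hi)).1
      obtain ⟨c, m', hJ, hne, hmem⟩ := step _ hF
      have hcop : ∀ i < n, IsCoprime (1 + X * (∏ i ∈ Finset.range n, f i) * c) (f i) := by
        intro i hi
        obtain ⟨q, hq⟩ := Finset.dvd_prod_of_mem f (Finset.mem_range.2 hi)
        refine ⟨1, -(X * q * c), ?_⟩
        rw [hq]; ring
      refine ⟨Function.update f n (1 + X * (∏ i ∈ Finset.range n, f i) * c),
        Function.update m n m', ?_, ?_⟩
      · intro i hi
        rcases Nat.lt_succ_iff_lt_or_eq.1 hi with hi | rfl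
        · rw [Function.update_of_ne hi.ne, Function.update_of_ne hi.ne]
          exact h1 i hi
        · rw [Function.update_self, Function.update_self]
          exact ⟨⟨(∏ i ∈ Finset.range i, f i) * c, by ring⟩, hJ, hne, hmem⟩
      · intro i hi j hj hij
        rcases Nat.lt_succ_iff_lt_or_eq.1 hi with hi | rfl
        · rcases Nat.lt_succ_iff_lt_or_eq.1 hj with hj | rfl
          · rw [Function.update_of_ne hi.ne, Function.update_of_ne hj.ne]
            exact h2 i hi j hj hij
          · rw [Function.update_of_ne hi.ne, Function.update_self]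
            exact (hcop i hi).symm
        · rcases Nat.lt_succ_iff_lt_or_eq.1 hj with hj | rfl
          · rw [Function.update_self, Function.update_of_ne hj.ne]
            exact hcop j hj
          · exact absurd rfl hij
  obtain ⟨f, m, hf, hcop⟩ := seq (Module.finrank ℚ V + 1)
  have hw : ∀ i : Fin (Module.finrank ℚ V + 1), ∃ w, Rel (f i) w := by
    intro i
    obtain ⟨b, hb⟩ := (hf i i.2).1
    rw [hb]; exact hex b
  choose w hw using hw
  have hdep : ¬ LinearIndependent ℤ w := by
    intro hli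
    have h3 : LinearIndependent ℚ w := (LinearIndependent.iff_fractionRing ℤ ℚ).1 hli
    have := h3.fintype_card_le_finrank
    simp at this
  rw [Fintype.not_linearIndependent_iff] at hdep
  obtain ⟨g, hg, i0, hi0⟩ := hdep
  have hpow : ∀ (f : ℤ[X]) (w : V), Rel f w → ∀ n : ℕ, Rel (f ^ n) (n • w) := by
    intro f w h n
    induction n with
    | zero => simpa using h1
    | succ n ih => rw [pow_succ, succ_nsmul]; exact hmul _ _ _ _ ih h
  have hprod : ∀ (e : Fin (Module.finrank ℚ V + 1) → ℕ)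
      (s : Finset (Fin (Module.finrank ℚ V + 1))),
      Rel (∏ i ∈ s, f i ^ e i) (∑ i ∈ s, e i • w i) := by
    intro e s
    induction s using Finset.induction_on with
    | empty => simpa using h1
    | insert a s ha ih =>
      rw [Finset.prod_insert ha, Finset.sum_insert ha]
      exact hmul _ _ _ _ (hpow _ _ (hw a) _) ih
  have hP := hprod (fun i => (g i).toNat) Finset.univ
  have hN := hprod (fun i => (-g i).toNat) Finset.univ
  have hsum : (∑ i, (g i).toNat • w i) = ∑ i, (-g i).toNat • w i := by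
    rw [← sub_eq_zero, ← Finset.sum_sub_distrib, ← hg]
    apply Finset.sum_congr rfl
    intro i _
    rw [← natCast_zsmul, ← natCast_zsmul, ← sub_smul]
    congr 1
    omega
  rw [hsum] at hP
  have hPN := heq _ _ _ hP hN
  have hcc : ∀ (e : Fin (Module.finrank ℚ V + 1) → ℕ) (i : Fin (Module.finrank ℚ V + 1)),
      e i = 0 → IsCoprime (f i) (∏ j : Fin (Module.finrank ℚ V + 1), f j ^ e j) := by
    intro e i he
    apply IsCoprime.prod_right
    intro j _
    by_cases hij : i = j
    · subst hij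
      rw [he, pow_zero]; exact isCoprime_one_right
    · exact (hcop i i.2 j j.2 (fun h => hij (Fin.ext h))).pow_right
  have fin : ∀ (e : Fin (Module.finrank ℚ V + 1) → ℕ) (i : Fin (Module.finrank ℚ V + 1)),
      e i = 0 → (∏ j : Fin (Module.finrank ℚ V + 1), f j ^ e j) ∈ m i → False := by
    intro e i he hmem
    obtain ⟨a, b, hab⟩ := hcc e i he
    apply (hf i i.2).2.2.1
    rw [Ideal.eq_top_iff_one, ← hab]
    exact Ideal.add_mem _ (Ideal.mul_mem_left _ _ (hf i i.2).2.2.2) (Ideal.mul_mem_left _ _ hmem)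
  have inm : ∀ (e : Fin (Module.finrank ℚ V + 1) → ℕ) (i : Fin (Module.finrank ℚ V + 1)),
      e i ≠ 0 → (∏ j : Fin (Module.finrank ℚ V + 1), f j ^ e j) ∈ m i := by
    intro e i he
    have : f i ∣ ∏ j : Fin (Module.finrank ℚ V + 1), f j ^ e j :=
      (dvd_pow_self (f i) he).trans (Finset.dvd_prod_of_mem (fun j : Fin _ => f j ^ e j) (Finset.mem_univ i))
    obtain ⟨q, hq⟩ := this
    rw [hq]; exact Ideal.mul_mem_right _ _ (hf i i.2).2.2.2
  rcases lt_or_gt_of_ne hi0 with hneg | hpos
  · have h4 := inm (fun i => (-g i).toNat) i0 (by omega)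
    apply fin (fun i => (g i).toNat) i0 (by omega)
    have h5 := (hf i0 i0.2).2.1 hPN
    have h6 := Ideal.add_mem _ h5 h4
    simpa using h6
  · have h4 := inm (fun i => (g i).toNat) i0 (by omega)
    apply fin (fun i => (-g i).toNat) i0 (by omega)
    have h5 := (hf i0 i0.2).2.1 hPN
    have h6 := Ideal.sub_mem _ h4 h5
    simpa using h6

end Pool.Agent.X276.Brace
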