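import Mathlib

set_option autoImplicit false

namespace Pool.Agent.X276.Brace

/-- The free nilpotent group of class two and rank three over `ℚ`, in exponential coordinates:
`(u, s) (v, t) = (u + v, s + t + (u × v) / 2)` for `u, v, s, t ∈ ℚ³`. -/
@[ext] structure H6 where
  a : ℚ
  b : ℚ
  c : ℚ
  x : ℚ
  y : ℚ
  z : ℚ

namespace H6

instance : Mul H6 := ⟨fun g h => ⟨g.a + h.a, g.b + h.b, g.c + h.c,
  g.x + h.x + (g.b * h.c - g.c * h.b) / 2,
  g.y + h.y + (g.c * h.a - g.a * h.c) / 2,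
  g.z + h.z + (g.a * h.b - g.b * h.a) / 2⟩⟩

instance : One H6 := ⟨⟨0, 0, 0, 0, 0, 0⟩⟩

instance : Inv H6 := ⟨fun g => ⟨-g.a, -g.b, -g.c, -g.x, -g.y, -g.z⟩⟩

@[simp] theorem mul_a (g h : H6) : (g * h).a = g.a + h.a := rfl
@[simp] theorem mul_b (g h : H6) : (g * h).b = g.b + h.b := rfl
@[simp] theorem mul_c (g h : H6) : (g * h).c = g.c + h.c := rfl
@[simp] theorem mul_x (g h : H6) : (g * h).x = g.x + h.x + (g.b * h.c - g.c * h.b) / 2 := rfl
@[simp] theorem mul_y (g h : H6) : (g * h).y = g.y + h.y + (g.c * h.a - g.a * h.c) / 2 := rfl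
@[simp] theorem mul_z (g h : H6) : (g * h).z = g.z + h.z + (g.a * h.b - g.b * h.a) / 2 := rfl
@[simp] theorem one_a : (1 : H6).a = 0 := rfl
@[simp] theorem one_b : (1 : H6).b = 0 := rfl
@[simp] theorem one_c : (1 : H6).c = 0 := rfl
@[simp] theorem one_x : (1 : H6).x = 0 := rfl
@[simp] theorem one_y : (1 : H6).y = 0 := rfl
@[simp] theorem one_z : (1 : H6).z = 0 := rfl
@[simp] theorem inv_a (g : H6) : (g⁻¹).a = -g.a := rfl
@[simp] theorem inv_b (g : H6) : (g⁻¹).b = -g.b := rfl
@[simp] theorem inv_c (g : H6) : (g⁻¹).c = -g.c := rfl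
@[simp] theorem inv_x (g : H6) : (g⁻¹).x = -g.x := rfl
@[simp] theorem inv_y (g : H6) : (g⁻¹).y = -g.y := rfl
@[simp] theorem inv_z (g : H6) : (g⁻¹).z = -g.z := rfl

instance : Group H6 := Group.ofLeftAxioms
  (fun g h k => by ext <;> simp <;> ring)
  (fun g => by ext <;> simp)
  (fun g => by ext <;> simp; all_goals ring)

/-- `t • g` in exponential coordinates -/
def scale (t : ℚ) (g : H6) : H6 := ⟨t * g.a, t * g.b, t * g.c, t * g.x, t * g.y, t * g.z⟩

theorem scale_mul (s t : ℚ) (g : H6) : scale s g * scale t g = scale (s + t) g := by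
  ext <;> simp [scale] <;> ring

theorem pow_eq (g : H6) (n : ℕ) : g ^ n = scale n g := by
  induction n with
  | zero => ext <;> simp [scale]
  | succ n ih =>
    have h1 : scale 1 g = g := by ext <;> simp [scale]
    rw [pow_succ, ih]
    conv_lhs => rw [← h1]
    rw [show scale n (scale 1 g) = scale n g by rw [h1], scale_mul]
    push_cast; rfl

theorem zpow_eq (g : H6) (n : ℤ) : g ^ n = scale n g := by
  cases n with
  | ofNat n => simpa using pow_eq g n
  | negSucc n =>
    rw [zpow_negSucc, pow_eq]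
    ext <;> simp [scale] <;> ring

/-- the coordinates -/
def vec (g : H6) : ℚ × ℚ × ℚ × ℚ × ℚ × ℚ := (g.a, g.b, g.c, g.x, g.y, g.z)

theorem vec_inj {g h : H6} (e : vec g = vec h) : g = h := by
  simp only [vec, Prod.mk.injEq] at e
  obtain ⟨h1, h2, h3, h4, h5, h6⟩ := e
  ext <;> assumption

/-- the first coordinates -/
def uu (g : H6) : ℚ × ℚ × ℚ := (g.a, g.b, g.c)

theorem uu_mul (g h : H6) : uu (g * h) = uu g + uu h := rfl

theorem comm_iff {g h : H6} (e : g * h = h * g) :
    g.b * h.c = g.c * h.b ∧ g.c * h.a = g.a * h.c ∧ g.a * h.b = g.b * h.a := by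
  have h1 := congrArg H6.x e
  have h2 := congrArg H6.y e
  have h3 := congrArg H6.z e
  simp only [mul_x, mul_y, mul_z] at h1 h2 h3
  refine ⟨by linarith, by linarith, by linarith⟩

theorem vec_mul {g h : H6} (e : g * h = h * g) : vec (g * h) = vec g + vec h := by
  obtain ⟨h1, h2, h3⟩ := comm_iff e
  simp only [vec, mul_a, mul_b, mul_c, mul_x, mul_y, mul_z, Prod.mk_add_mk, h1, h2, h3]
  simp

theorem central {g : H6} (e : uu g = 0) (h : H6) : g * h = h * g := by
  have e1 : g.a = 0 := congrArg Prod.fst e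
  have e2 : g.b = 0 := congrArg (fun v => v.2.1) e
  have e3 : g.c = 0 := congrArg (fun v => v.2.2) e
  ext <;> simp [e1, e2, e3] <;> ring

theorem uu_comm (g h : H6) : uu (g * h * g⁻¹ * h⁻¹) = 0 := by
  simp [uu]

theorem uu_quot {g h : H6} (e : uu g = uu h) : uu (g * h⁻¹) = 0 := by
  have e1 : g.a = h.a := congrArg Prod.fst e
  have e2 : g.b = h.b := congrArg (fun v => v.2.1) e
  have e3 : g.c = h.c := congrArg (fun v => v.2.2) e
  simp [uu, e1, e2, e3]

theorem torsionfree {g : H6} {n : ℕ} (hn : n ≠ 0) (e : g ^ n = 1) : g = 1 := by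
  rw [pow_eq] at e
  have hn' : (n : ℚ) ≠ 0 := by exact_mod_cast hn
  ext
  · have := congrArg H6.a e; simpa [scale, hn'] using this
  · have := congrArg H6.b e; simpa [scale, hn'] using this
  · have := congrArg H6.c e; simpa [scale, hn'] using this
  · have := congrArg H6.x e; simpa [scale, hn'] using this
  · have := congrArg H6.y e; simpa [scale, hn'] using this
  · have := congrArg H6.z e; simpa [scale, hn'] using this

end H6

end Pool.Agent.X276.Brace
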