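import Pool.Agent.X276.BraceA0
import Pool.Agent.X276.BraceH6

set_option autoImplicit false

open Polynomial

namespace Pool.Agent.X276.Brace

section act

variable {G M : Type*} [Group G] [AddCommGroup M] [DistribMulAction G M]

/-- the operator `g - 1` -/
noncomputable def rr (M : Type*) [AddCommGroup M] [DistribMulAction G M] (g : G) : AddMonoid.End M :=
  DistribMulAction.toAddMonoidEnd G M g - 1

theorem rr_apply (g : G) (m : M) : rr M g m = g • m - m := rfl

/-- the operator `b (g - 1)` -/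
noncomputable def pe (g : G) (b : ℤ[X]) (m : M) : M := (aeval (rr M g) b : AddMonoid.End M) m

theorem pe_add (g : G) (b c : ℤ[X]) (m : M) : pe g (b + c) m = pe g b m + pe g c m := by
  simp only [pe, map_add]; rfl

theorem pe_sub (g : G) (b c : ℤ[X]) (m : M) : pe g (b - c) m = pe g b m - pe g c m := by
  simp only [pe, map_sub]; rfl

theorem pe_mul (g : G) (b c : ℤ[X]) (m : M) : pe g (b * c) m = pe g b (pe g c m) := by
  simp only [pe, map_mul]; rfl

theorem pe_one (g : G) (m : M) : pe g 1 m = m := by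
  simp only [pe, map_one]; rfl

theorem pe_zero' (g : G) (m : M) : pe g 0 m = 0 := by
  simp only [pe, map_zero]; rfl

theorem pe_X (g : G) (m : M) : pe g X m = g • m - m := by
  simp only [pe, aeval_X]; rfl

theorem pe_C (g : G) (a : ℤ) (m : M) : pe g (C a) m = a • m := by
  simp only [pe, aeval_C]
  rw [Algebra.algebraMap_eq_smul_one]; rfl

theorem pe_natCast (g : G) (n : ℕ) (m : M) : pe g (n : ℤ[X]) m = n • m := by
  have : (n : ℤ[X]) = C (n : ℤ) := by simp
  rw [this, pe_C, natCast_zsmul]

theorem pe_map_add (g : G) (b : ℤ[X]) (m n : M) : pe g b (m + n) = pe g b m + pe g b n :=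
  map_add _ _ _

theorem pe_map_zero (g : G) (b : ℤ[X]) : pe g b (0 : M) = 0 := map_zero _

theorem pe_map_sub (g : G) (b : ℤ[X]) (m n : M) : pe g b (m - n) = pe g b m - pe g b n :=
  map_sub _ _ _

theorem pe_map_nsmul (g : G) (b : ℤ[X]) (k : ℕ) (m : M) : pe g b (k • m) = k • pe g b m :=
  map_nsmul _ _ _

theorem pe_comm (g : G) (b c : ℤ[X]) (m : M) : pe g b (pe g c m) = pe g c (pe g b m) := by
  rw [← pe_mul, mul_comm, pe_mul]

theorem pe_oneX (g : G) (m : M) : pe g (1 + X) m = g • m := by
  rw [pe_add, pe_one, pe_X]; abel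

theorem pe_oneX_pow (g : G) (n : ℕ) (m : M) : pe g ((1 + X) ^ n) m = g ^ n • m := by
  induction n with
  | zero => simp [pe_one]
  | succ n ih => rw [pow_succ', pe_mul, ih, pe_oneX, pow_succ', mul_smul]

theorem pe_pow_succ (g : G) (k : ℕ) (m : M) : pe g (X ^ (k + 1)) m = pe g (X ^ k) (g • m - m) := by
  rw [pow_succ, pe_mul, pe_X]

/-- stable additive subgroups are stable under polynomials in `g - 1` -/
theorem pe_mem {g : G} {B : AddSubgroup M} (hB : ∀ m ∈ B, g • m ∈ B) (b : ℤ[X]) {m : M}
    (hm : m ∈ B) : pe g b m ∈ B := by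
  induction b using Polynomial.induction_on generalizing m with
  | C a => rw [pe_C]; exact B.zsmul_mem hm a
  | add p q hp hq => rw [pe_add]; exact B.add_mem (hp hm) (hq hm)
  | monomial n a h =>
    rw [pow_succ, ← mul_assoc, pe_mul, pe_X]
    exact h (B.sub_mem (hB m hm) hm)

/-- commuting modulo a stable subgroup -/
theorem pe_smul_mod {g h : G} {B : AddSubgroup M} (hB : ∀ m ∈ B, g • m ∈ B)
    (hc : ∀ m, h • g • m - g • h • m ∈ B) (b : ℤ[X]) (m : M) :
    h • pe g b m - pe g b (h • m) ∈ B := by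
  induction b using Polynomial.induction_on generalizing m with
  | C a => rw [pe_C, pe_C, smul_comm, sub_self]; exact B.zero_mem
  | add p q hp hq =>
    rw [pe_add, pe_add, smul_add]
    have : h • pe g p m + h • pe g q m - (pe g p (h • m) + pe g q (h • m)) =
      (h • pe g p m - pe g p (h • m)) + (h • pe g q m - pe g q (h • m)) := by abel
    rw [this]; exact B.add_mem (hp m) (hq m)
  | monomial n a ih =>
    rw [pow_succ, ← mul_assoc, pe_mul _ (C a * X ^ n), pe_mul _ (C a * X ^ n), pe_X, pe_X]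
    have h1 := ih (g • m - m)
    have h2 : pe g (C a * X ^ n) (h • (g • m - m)) - pe g (C a * X ^ n) (g • h • m - h • m) ∈ B := by
      rw [← pe_map_sub]
      apply pe_mem hB
      have : h • (g • m - m) - (g • h • m - h • m) = h • g • m - g • h • m := by
        rw [smul_sub]; abel
      rw [this]; exact hc m
    have := B.add_mem h1 h2
    simpa using this

theorem pe_smul_comm {g h : G} (hc : h * g = g * h) (b : ℤ[X]) (m : M) :
    h • pe g b m = pe g b (h • m) := by
  have := pe_smul_mod (g := g) (h := h) (B := (⊥ : AddSubgroup M))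
    (fun m hm => by rw [AddSubgroup.mem_bot] at hm ⊢; rw [hm, smul_zero])
    (fun m => by rw [← mul_smul, ← mul_smul, hc, sub_self]; exact AddSubgroup.zero_mem _) b m
  rw [AddSubgroup.mem_bot] at this
  exact sub_eq_zero.1 this

/-- `((1 + X) ^ n - 1) / X` -/
noncomputable def Qp (n : ℕ) : ℤ[X] := ∑ i ∈ Finset.range n, (1 + X) ^ i

theorem X_mul_Qp (n : ℕ) : X * Qp n = (1 + X) ^ n - 1 := by
  have := mul_geom_sum (1 + X : ℤ[X]) n
  rw [add_sub_cancel_left] at this
  exact this

theorem Qp_eq (n : ℕ) : ∃ S, Qp n = (n : ℤ[X]) + X * S := by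
  induction n with
  | zero => exact ⟨0, by simp [Qp]⟩
  | succ n ih =>
    obtain ⟨S, hS⟩ := ih
    refine ⟨S + Qp n, ?_⟩
    have h1 : Qp (n + 1) = Qp n + (1 + X) ^ n := by rw [Qp, Finset.sum_range_succ, ← Qp]
    have h2 := X_mul_Qp n
    have h3 : (1 + X : ℤ[X]) ^ n = X * Qp n + 1 := by rw [h2]; ring
    rw [h1, h3]
    nth_rewrite 1 [hS]
    push_cast
    ring

theorem Qp_prime {q : ℕ} (hq : q.Prime) (k : ℕ) :
    ∃ S, Qp (q ^ k) = X ^ (q ^ k - 1) + (q : ℤ[X]) * S := by
  obtain ⟨r, hr⟩ := exists_add_pow_prime_pow_eq hq (1 : ℤ[X]) X k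
  refine ⟨r, ?_⟩
  have h1 := X_mul_Qp (q ^ k)
  rw [hr] at h1
  have hpos : 0 < q ^ k := pow_pos hq.pos k
  have h2 : (X : ℤ[X]) ^ q ^ k = X * X ^ (q ^ k - 1) := by
    rw [← pow_succ']; congr 1; omega
  have h3 : X * Qp (q ^ k) = X * (X ^ (q ^ k - 1) + (q : ℤ[X]) * r) := by
    rw [h1, h2]; ring
  exact mul_left_cancel₀ X_ne_zero h3

end act

/-- bijective cocycles -/
structure IsCoc {G M : Type*} [Group G] [AddCommGroup M] [DistribMulAction G M] (π : G → M) :
    Prop where
  bij : Function.Bijective π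
  coc : ∀ g h, π (g * h) = π g + g • π h

namespace IsCoc

variable {G M : Type*} [Group G] [AddCommGroup M] [DistribMulAction G M] {π : G → M}

theorem map_one (hπ : IsCoc π) : π 1 = 0 := by
  have := hπ.coc 1 1
  rw [one_smul, mul_one] at this
  simpa using this

theorem map_inv (hπ : IsCoc π) (g : G) : π g⁻¹ = -(g⁻¹ • π g) := by
  have := hπ.coc g⁻¹ g
  rw [inv_mul_cancel, hπ.map_one] at this
  exact eq_neg_of_add_eq_zero_left this.symm

theorem inj (hπ : IsCoc π) {g h : G} (e : π g = π h) : g = h := hπ.bij.1 e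

theorem ex (hπ : IsCoc π) (m : M) : ∃ g, π g = m := hπ.bij.2 m

theorem map_pow (hπ : IsCoc π) (g : G) (n : ℕ) : π (g ^ n) = pe g (Qp n) (π g) := by
  induction n with
  | zero => simp [hπ.map_one, Qp, pe_zero']
  | succ n ih =>
    have h1 : Qp (n + 1) = Qp n + (1 + X) ^ n := by rw [Qp, Finset.sum_range_succ, ← Qp]
    rw [pow_succ, hπ.coc, ih, h1, pe_add, pe_oneX_pow]

/-- symmetric identity for commuting elements -/
theorem comm_id (hπ : IsCoc π) {g h : G} (e : g * h = h * g) :
    g • π h - π h = h • π g - π g := by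
  have h1 := hπ.coc g h
  have h2 := hπ.coc h g
  rw [e] at h1
  have h3 := h1.symm.trans h2
  have h4 : g • π h = π h + h • π g - π g := by rw [← h3]; abel
  rw [h4]; abel

end IsCoc

/-- the first consequence of the algebraic core: a group element `z` commuting with the relevant
elements is unipotent on `π z` -/
theorem A1 {G M : Type*} [Group G] [AddCommGroup M] [DistribMulAction G M] {π : G → M}
    (hπ : IsCoc π) (ι : G →* H6) (hι : Function.Injective ι) (z : G)
    (hz : ∀ g b, π g = pe z b (π z) → g * z = z * g) :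
    ∃ k : ℕ, pe z (X ^ k) (π z) = 0 := by
  have key : ∀ g b, π g = pe z b (π z) → ∀ c, g • pe z c (π z) = pe z ((1 + X * b) * c) (π z) := by
    intro g b hg c
    have h1 := hz g b hg
    have h2 := hπ.comm_id h1
    have h3 : g • π z = pe z (1 + X * b) (π z) := by
      rw [pe_add, pe_one, pe_mul, pe_X, ← hg, ← h2]; abel
    rw [pe_smul_comm h1, h3, ← pe_mul, mul_comm c]
  let J : Ideal ℤ[X] :=
    { carrier := {b | pe z b (π z) = 0}
      add_mem' := by
        intro a b ha hb
        simp only [Set.mem_ofPred_eq] at *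
        rw [pe_add, ha, hb, add_zero]
      zero_mem' := pe_zero' z _
      smul_mem' := by
        intro c b hb
        simp only [Set.mem_ofPred_eq, smul_eq_mul] at *
        rw [pe_mul, hb, pe_map_zero] }
  have hJ : ∀ b, b ∈ J ↔ pe z b (π z) = 0 := fun b => Iff.rfl
  have hcomp : ∀ g b g' b', π g = pe z b (π z) → π g' = pe z b' (π z) →
      π (g * g') = pe z (b + b' + X * b * b') (π z) := by
    intro g b g' b' hg hg'
    rw [hπ.coc, hg', key g b hg b', hg, ← pe_add]
    congr 1; ring
  obtain ⟨k, hk⟩ := A0 J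
    (fun f w => ∃ g b, π g = pe z b (π z) ∧ f = 1 + X * b ∧ w = H6.vec (ι g))
    ⟨1, 0, by rw [hπ.map_one, pe_zero'], by ring, by rw [map_one]; rfl⟩
    (by
      rintro f w f' w' ⟨g, b, hg, rfl, rfl⟩ ⟨g', b', hg', rfl, rfl⟩
      refine ⟨g * g', b + b' + X * b * b', hcomp g b g' b' hg hg', by ring, ?_⟩
      have hcom : g * g' = g' * g := by
        apply hπ.inj
        rw [hcomp g b g' b' hg hg', hcomp g' b' g b hg' hg]
        congr 1; ring
      rw [map_mul, H6.vec_mul]
      rw [← map_mul, ← map_mul, hcom])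
    (by
      rintro f f' w ⟨g, b, hg, rfl, hw⟩ ⟨g', b', hg', rfl, hw'⟩
      have hgg : g = g' := hι (H6.vec_inj (hw.symm.trans hw'))
      subst hgg
      rw [hJ]
      have : (1 + X * b - (1 + X * b') : ℤ[X]) = X * (b - b') := by ring
      rw [this, pe_mul, pe_sub, ← hg, ← hg', sub_self, pe_map_zero])
    (by
      intro b
      obtain ⟨g, hg⟩ := hπ.ex (pe z b (π z))
      exact ⟨_, g, b, hg, rfl, rfl⟩)
    (by
      intro b c hbc
      rw [hJ] at hbc ⊢
      obtain ⟨g, hg⟩ := hπ.ex (pe z b (π z))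
      rw [← key g b hg c] at hbc
      exact (smul_eq_zero_iff_eq g).1 hbc)
  exact ⟨k, hk⟩

section tf

variable {G M : Type*} [Group G] [AddCommGroup M] [DistribMulAction G M] {π : G → M}

/-- the module is torsion-free -/
theorem torsionfree (hπ : IsCoc π) (ι : G →* H6) (hι : Function.Injective ι) {n : ℕ} (hn : n ≠ 0)
    {m : M} (hm : n • m = 0) : m = 0 := by
  have prime : ∀ q : ℕ, q.Prime → ∀ m : M, q • m = 0 → m = 0 := by
    intro q hq m hm
    by_contra hm0
    have hmul : ∀ g h, q • π g = 0 → q • π h = 0 → q • π (g * h) = 0 := by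
      intro g h h1 h2
      rw [hπ.coc, smul_add, h1, smul_comm, h2, smul_zero, add_zero]
    have hinv : ∀ g, q • π g = 0 → q • π g⁻¹ = 0 := by
      intro g h1
      rw [hπ.map_inv, smul_neg, smul_comm, h1, smul_zero, neg_zero]
    have hz : ∃ z, z ≠ 1 ∧ q • π z = 0 ∧ ∀ g, q • π g = 0 → g * z = z * g := by
      by_cases hab : ∀ g h, q • π g = 0 → q • π h = 0 → g * h = h * g
      · obtain ⟨z, hz⟩ := hπ.ex m
        refine ⟨z, ?_, by rw [hz, hm], fun g hg => hab g z hg (by rw [hz, hm])⟩
        rintro rfl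
        exact hm0 (by rw [← hz, hπ.map_one])
      · push Not at hab
        obtain ⟨g, h, hg, hh, hne⟩ := hab
        refine ⟨g * h * g⁻¹ * h⁻¹, ?_, hmul _ _ (hmul _ _ (hmul _ _ hg hh) (hinv _ hg)) (hinv _ hh),
          ?_⟩
        · intro e
          apply hne
          have h3 : g * h * g⁻¹ = h := by
            rw [mul_eq_one_iff_eq_inv, inv_inv] at e; exact e
          rw [mul_inv_eq_iff_eq_mul] at h3; exact h3
        · intro k _
          have h8 : H6.uu (ι (g * h * g⁻¹ * h⁻¹)) = 0 := by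
            simp only [map_mul, _root_.map_inv]
            exact H6.uu_comm _ _
          have h9 := H6.central h8 (ι k)
          rw [← map_mul, ← map_mul] at h9
          exact (hι h9).symm
    obtain ⟨z, hz1, hqz, hzc⟩ := hz
    obtain ⟨k, hk⟩ := A1 hπ ι hι z (fun g b hg => hzc g (by rw [hg, ← pe_map_nsmul, hqz, pe_map_zero]))
    have hlt : k < q ^ k := Nat.lt_pow_self hq.one_lt
    obtain ⟨S, hS⟩ := Qp_prime hq k
    have h5 : π (z ^ q ^ k) = 0 := by
      rw [hπ.map_pow, hS, pe_add, mul_comm, pe_mul, pe_natCast, hqz, pe_map_zero, add_zero]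
      have h6 : q ^ k - 1 = (q ^ k - 1 - k) + k := by omega
      rw [h6, pow_add, pe_mul, hk, pe_map_zero]
    have h7 : z ^ q ^ k = 1 := hπ.inj (by rw [h5, hπ.map_one])
    apply hz1
    apply hι
    rw [map_one]
    apply H6.torsionfree (n := q ^ k) (by omega)
    rw [← map_pow, h7, map_one]
  induction n using Nat.strong_induction_on generalizing m with
  | _ n ih =>
    rcases Nat.eq_or_lt_of_le (Nat.one_le_iff_ne_zero.2 hn) with h1 | h1
    · rw [← h1, one_smul] at hm; exact hm
    · obtain ⟨t, ht⟩ := Nat.minFac_dvd n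
      have hp : n.minFac.Prime := Nat.minFac_prime (by omega)
      rw [ht, mul_smul] at hm
      have h2 := prime _ hp _ hm
      have ht0 : t ≠ 0 := by
        rintro rfl
        omega
      refine ih t ?_ ht0 h2
      calc t < n.minFac * t := lt_mul_left (Nat.pos_of_ne_zero ht0) hp.one_lt
        _ = n := ht.symm

end tf

end Pool.Agent.X276.Brace
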