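import Pool.Agent.X276.BraceNil

set_option autoImplicit false

open Polynomial

namespace Pool.Agent.X276.Brace

section

variable {G M : Type*} [Group G] [AddCommGroup M] [DistribMulAction G M] {π : G → M}

/-- stable additive subgroups -/
def St (G : Type*) {M : Type*} [Group G] [AddCommGroup M] [DistribMulAction G M]
    (B : AddSubgroup M) : Prop := ∀ g : G, ∀ m ∈ B, g • m ∈ B

/-- pure additive subgroups -/
def Pu (B : AddSubgroup M) : Prop := ∀ (n : ℕ) (m : M), n ≠ 0 → n • m ∈ B → m ∈ B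

/-- isolation -/
theorem iso_lem {g : G} {B : AddSubgroup M} (hB : ∀ m ∈ B, g • m ∈ B) (hpure : Pu B)
    (hun : ∃ k : ℕ, ∀ m : M, pe g (X ^ k) m = 0) {n : ℕ} (hn : n ≠ 0) {x : M}
    (h : g ^ n • x - x ∈ B) : g • x - x ∈ B := by
  apply Qinj hB hpure hun hn
  rw [← pe_X, ← pe_mul, mul_comm, X_mul_Qp, pe_sub, pe_one, pe_oneX_pow]
  exact h

/-- one step of the search for fixed vectors -/
theorem fix_step {B D : AddSubgroup M} (hB : St G B) (hD : St G D) (g : G)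
    (hun : ∃ k : ℕ, ∀ m : M, pe g (X ^ k) m = 0)
    (hcomm : ∀ h : G, ∀ m ∈ D, g • h • m - h • g • m ∈ B) (hne : ∃ x ∈ D, x ∉ B) :
    ∃ D' : AddSubgroup M, St G D' ∧ D' ≤ D ∧ (∃ x ∈ D', x ∉ B) ∧ ∀ m ∈ D', g • m - m ∈ B := by
  classical
  refine ⟨{ carrier := {m | m ∈ D ∧ g • m - m ∈ B}
            add_mem' := ?_, zero_mem' := ?_, neg_mem' := ?_ }, ?_, fun m hm => hm.1, ?_,
    fun m hm => hm.2⟩
  · rintro a b ⟨ha, ha'⟩ ⟨hb, hb'⟩
    refine ⟨D.add_mem ha hb, ?_⟩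
    have : g • (a + b) - (a + b) = (g • a - a) + (g • b - b) := by rw [smul_add]; abel
    rw [this]; exact B.add_mem ha' hb'
  · exact ⟨D.zero_mem, by rw [smul_zero, sub_self]; exact B.zero_mem⟩
  · rintro a ⟨ha, ha'⟩
    refine ⟨D.neg_mem ha, ?_⟩
    have : g • (-a) - -a = -(g • a - a) := by rw [smul_neg]; abel
    rw [this]; exact B.neg_mem ha'
  · rintro h m ⟨hm, hm'⟩
    refine ⟨hD h m hm, ?_⟩
    have : g • h • m - h • m = (g • h • m - h • g • m) + h • (g • m - m) := by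
      rw [smul_sub]; abel
    rw [this]; exact B.add_mem (hcomm h m hm) (hB h _ hm')
  · obtain ⟨x, hx, hxB⟩ := hne
    obtain ⟨k, hk⟩ := hun
    have hex : ∃ j : ℕ, pe g (X ^ j) x ∈ B := ⟨k, by rw [hk]; exact B.zero_mem⟩
    have hj := Nat.find_spec hex
    have hmin := fun i => Nat.find_min (H := hex) (m := i)
    set j := Nat.find hex with hjdef
    rcases Nat.eq_zero_or_pos j with h0 | hpos
    · rw [h0, pow_zero, pe_one] at hj; exact absurd hj hxB
    · obtain ⟨i, hi⟩ : ∃ i, j = i + 1 := ⟨j - 1, by omega⟩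
      refine ⟨pe g (X ^ i) x, ⟨pe_mem (hD g) _ hx, ?_⟩, hmin i (by omega)⟩
      rw [← pe_X, ← pe_mul, ← pow_succ', ← hi]; exact hj

/-- existence of fixed vectors -/
theorem fixed (hπ : IsCoc π) {ι : G →* H6} {z1 z2 z3 x1 x2 x3 : G}
    (hf : Full ι z1 z2 z3 x1 x2 x3) {B D : AddSubgroup M} (hB : St G B) (hD : St G D)
    (hpure : Pu B) (hne : ∃ x ∈ D, x ∉ B) :
    ∃ x ∈ D, x ∉ B ∧ ∀ g : G, g • x - x ∈ B := by
  have un := fun g => unip hπ hf g
  have hc0 : ∀ z : G, H6.uu (ι z) = 0 → ∀ h : G, ∀ m : M, z • h • m - h • z • m ∈ B := by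
    intro z hz h m
    rw [← mul_smul, ← mul_smul, cen hf.inj hz, sub_self]; exact B.zero_mem
  obtain ⟨D1, s1, l1, n1, f1⟩ := fix_step hB hD z1 (un z1)
    (fun h m _ => hc0 z1 (by rw [hf.hz1]; rfl) h m) hne
  obtain ⟨D2, s2, l2, n2, f2⟩ := fix_step hB s1 z2 (un z2)
    (fun h m _ => hc0 z2 (by rw [hf.hz2]; rfl) h m) n1
  obtain ⟨D3, s3, l3, n3, f3⟩ := fix_step hB s2 z3 (un z3)
    (fun h m _ => hc0 z3 (by rw [hf.hz3]; rfl) h m) n2
  -- stabilizers
  have stab : ∀ D' : AddSubgroup M, St G D' → ∃ S : Subgroup G, ∀ g, g ∈ S ↔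
      ∀ m ∈ D', g • m - m ∈ B := by
    intro D' hD'
    refine ⟨{ carrier := {g | ∀ m ∈ D', g • m - m ∈ B}
              mul_mem' := ?_, one_mem' := ?_, inv_mem' := ?_ }, fun g => Iff.rfl⟩
    · intro a b ha hb m hm
      have : (a * b) • m - m = a • (b • m - m) + (a • m - m) := by
        rw [mul_smul, smul_sub]; abel
      rw [this]; exact B.add_mem (hB a _ (hb m hm)) (ha m hm)
    · intro m _
      rw [one_smul, sub_self]; exact B.zero_mem
    · intro a ha m hm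
      have : a⁻¹ • m - m = -(a⁻¹ • (a • m - m)) := by
        rw [smul_sub, inv_smul_smul]; abel
      rw [this]; exact B.neg_mem (hB _ _ (ha m hm))
  obtain ⟨S3, hS3⟩ := stab D3 s3
  have hz : ∀ z : G, H6.uu (ι z) = 0 → ∀ m ∈ D3, z • m - m ∈ B := by
    intro z hz m hm
    obtain ⟨n, hn, a, b, c, e⟩ := hf.gen z hz
    apply iso_lem (hB z) hpure (un z) hn
    have h1 : z ^ n ∈ S3 := by
      rw [e]
      refine S3.mul_mem (S3.mul_mem (S3.zpow_mem ?_ a) (S3.zpow_mem ?_ b)) (S3.zpow_mem ?_ c)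
      · rw [hS3]; exact fun m hm => f1 m (l2 (l3 hm))
      · rw [hS3]; exact fun m hm => f2 m (l3 hm)
      · rw [hS3]; exact f3
    exact (hS3 _).1 h1 m hm
  have hc1 : ∀ g h : G, ∀ m ∈ D3, g • h • m - h • g • m ∈ B := by
    intro g h m hm
    have h1 := hz (g * h * g⁻¹ * h⁻¹) (by
      simp only [map_mul, map_inv]; exact H6.uu_comm _ _) ((h * g) • m) (s3 _ _ hm)
    have : (g * h * g⁻¹ * h⁻¹) • (h * g) • m - (h * g) • m = g • h • m - h • g • m := by
      rw [← mul_smul, ← mul_smul, ← mul_smul]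
      congr 2; group
    rwa [this] at h1
  obtain ⟨D4, s4, l4, n4, f4⟩ := fix_step hB s3 x1 (un x1) (fun h m hm => hc1 x1 h m hm) n3
  obtain ⟨D5, s5, l5, n5, f5⟩ := fix_step hB s4 x2 (un x2) (fun h m hm => hc1 x2 h m (l4 hm)) n4
  obtain ⟨D6, s6, l6, n6, f6⟩ := fix_step hB s5 x3 (un x3)
    (fun h m hm => hc1 x3 h m (l4 (l5 hm))) n5
  obtain ⟨S6, hS6⟩ := stab D6 s6
  obtain ⟨x, hx, hxB⟩ := n6
  refine ⟨x, l1 (l2 (l3 (l4 (l5 (l6 hx))))), hxB, fun g => ?_⟩
  obtain ⟨n, hn, a, b, c, z, hzz, e⟩ := hf.gen' g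
  apply iso_lem (hB g) hpure (un g) hn
  have h1 : g ^ n ∈ S6 := by
    rw [e]
    refine S6.mul_mem (S6.mul_mem (S6.mul_mem (S6.zpow_mem ?_ a) (S6.zpow_mem ?_ b))
      (S6.zpow_mem ?_ c)) ?_
    · rw [hS6]; exact fun m hm => f4 m (l5 (l6 hm))
    · rw [hS6]; exact fun m hm => f5 m (l6 hm)
    · rw [hS6]; exact f6
    · rw [hS6]; exact fun m hm => hz z hzz m (l4 (l5 (l6 hm)))
  exact (hS6 _).1 h1 x hx

/-- the infinitely `p`-divisible elements -/
def Md (M : Type*) [AddCommGroup M] (p : ℕ) : AddSubgroup M where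
  carrier := {m | ∀ k : ℕ, ∃ y : M, (p ^ k) • y = m}
  add_mem' := by
    intro a b ha hb k
    obtain ⟨y, hy⟩ := ha k
    obtain ⟨z, hz⟩ := hb k
    exact ⟨y + z, by rw [smul_add, hy, hz]⟩
  zero_mem' := fun k => ⟨0, smul_zero _⟩
  neg_mem' := by
    intro a ha k
    obtain ⟨y, hy⟩ := ha k
    exact ⟨-y, by rw [smul_neg, hy]⟩

theorem Md_stable (p : ℕ) : St G (Md M p) := by
  intro g m hm k
  obtain ⟨y, hy⟩ := hm k
  exact ⟨g • y, by rw [← hy, smul_comm]⟩

/-- torsion-freeness -/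
def TF (M : Type*) [AddCommGroup M] : Prop := ∀ (n : ℕ) (m : M), n ≠ 0 → n • m = 0 → m = 0

theorem TF.cancel (htf : TF M) {n : ℕ} (hn : n ≠ 0) {x y : M} (h : n • x = n • y) : x = y := by
  rw [← sub_eq_zero]
  apply htf n _ hn
  rw [smul_sub, h, sub_self]

theorem Md_pure (htf : TF M) {p : ℕ} (hp : p.Prime) : Pu (Md M p) := by
  have h1 : ∀ m : M, p • m ∈ Md M p → m ∈ Md M p := by
    intro m hm k
    obtain ⟨y, hy⟩ := hm (k + 1)
    refine ⟨y, ?_⟩
    apply htf.cancel hp.ne_zero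
    rw [← mul_smul, ← pow_succ', hy]
  have h2 : ∀ (n : ℕ) (m : M), n.Coprime p → n • m ∈ Md M p → m ∈ Md M p := by
    intro n m hn hm k
    obtain ⟨y, hy⟩ := hm k
    have hc : IsCoprime (n : ℤ) ((p ^ k : ℕ) : ℤ) := by
      rw [Nat.isCoprime_iff_coprime]
      exact Nat.Coprime.pow_right k hn
    obtain ⟨a, b, hab⟩ := hc
    refine ⟨a • y + b • m, ?_⟩
    have h3 : (a * (n : ℤ) + b * ((p ^ k : ℕ) : ℤ)) • m = m := by rw [hab, one_smul]
    rw [add_smul, mul_smul, natCast_zsmul, ← hy] at h3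
    calc p ^ k • (a • y + b • m) = a • p ^ k • y + (b * ((p ^ k : ℕ) : ℤ)) • m := by
          rw [smul_add, smul_comm (p ^ k) a y, smul_comm (p ^ k) b m, ← natCast_zsmul m (p ^ k),
            smul_smul]
      _ = m := h3
  intro n m hn hm
  induction n using Nat.strong_induction_on generalizing m with
  | _ n ih =>
    by_cases hpn : p ∣ n
    · obtain ⟨t, ht⟩ := hpn
      rw [ht, mul_smul] at hm
      have ht0 : t ≠ 0 := by rintro rfl; exact hn (by rw [ht, mul_zero])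
      refine ih t ?_ _ ht0 (h1 _ hm)
      calc t < p * t := lt_mul_left (Nat.pos_of_ne_zero ht0) hp.one_lt
        _ = n := ht.symm
    · exact h2 n m ((Nat.Prime.coprime_iff_not_dvd hp).2 hpn).symm hm

/-- infinitely `p`-divisible group elements -/
def Dv (p : ℕ) (g : G) : Prop := ∀ k : ℕ, ∃ h : G, h ^ (p ^ k) = g

/-- `(g - 1) M` is divisible for divisible `g` -/
theorem lower1 (hπ : IsCoc π) {ι : G →* H6} {z1 z2 z3 x1 x2 x3 : G}
    (hf : Full ι z1 z2 z3 x1 x2 x3) {p : ℕ} (hp : p.Prime) {g : G} (hg : Dv p g) (m : M) :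
    g • m - m ∈ Md M p := by
  have htf : TF M := fun n m hn hm => torsionfree hπ ι hf.inj hn hm
  have hpu := Md_pure htf hp
  have hst := Md_stable (G := G) (M := M) p
  obtain ⟨N, hN⟩ := unip hπ hf g
  -- comparison of g and its roots
  have hroot : ∀ (h : G) (n j : ℕ) (m : M), h ^ n = g →
      pe g (X ^ j) m = pe h (Qp n ^ j) (pe h (X ^ j) m) := by
    intro h n j m e
    rw [← pe_mul, ← mul_pow, mul_comm (Qp n)]
    induction j generalizing m with
    | zero => rw [pow_zero, pow_zero, pe_one, pe_one]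
    | succ j ih =>
      rw [pow_succ, pe_mul, ih, pow_succ (X * Qp n), pe_mul h]
      congr 1
      rw [pe_X, X_mul_Qp, pe_sub, pe_one, pe_oneX_pow, e]
  have hQ : ∀ (h : G) (n j : ℕ) (m : M), n ≠ 0 → pe h (Qp n ^ j) m ∈ Md M p → m ∈ Md M p := by
    intro h n j m hn
    induction j generalizing m with
    | zero => intro hm; rwa [pow_zero, pe_one] at hm
    | succ j ih =>
      intro hm
      rw [pow_succ, pe_mul] at hm
      exact Qinj (hst h) hpu (unip hπ hf h) hn (ih _ hm)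
  have main : ∀ d j : ℕ, j + d = N → 1 ≤ j → ∀ m : M, pe g (X ^ j) m ∈ Md M p := by
    intro d
    induction d with
    | zero =>
      intro j hj _ m
      rw [show j = N by omega, hN]; exact AddSubgroup.zero_mem _
    | succ d ih =>
      intro j hj hj1 m k
      obtain ⟨h, hh⟩ := hg k
      have hn0 : p ^ k ≠ 0 := pow_ne_zero _ hp.ne_zero
      have h1 : pe h (X ^ (j + 1)) m ∈ Md M p := by
        have h2 := ih (j + 1) (by omega) (by omega) m
        rw [hroot h (p ^ k) _ _ hh] at h2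
        exact hQ h _ _ _ hn0 h2
      obtain ⟨S, hS⟩ := Qp_eq (p ^ k)
      obtain ⟨S', hS'⟩ : ∃ S', Qp (p ^ k) ^ j = ((p ^ k : ℕ) : ℤ[X]) ^ j + X * S' := by
        rw [hS]
        have := sub_dvd_pow_sub_pow (((p ^ k : ℕ) : ℤ[X]) + X * S) ((p ^ k : ℕ) : ℤ[X]) j
        rw [add_sub_cancel_left] at this
        obtain ⟨c, hc⟩ := this
        refine ⟨S * c, ?_⟩
        rw [← mul_assoc, ← hc]; ring
      have h3 : pe h (X * S') (pe h (X ^ j) m) ∈ Md M p := by
        rw [mul_comm, pe_mul, ← pe_mul h X, ← pow_succ']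
        exact pe_mem (hst h) S' h1
      obtain ⟨y, hy⟩ := h3 k
      refine ⟨(p ^ k) ^ (j - 1) • pe h (X ^ j) m + y, ?_⟩
      rw [hroot h (p ^ k) _ _ hh, hS', pe_add, smul_add, hy, smul_smul, ← pow_succ',
        show j - 1 + 1 = j by omega, ← Nat.cast_pow, pe_natCast]
  rcases Nat.eq_zero_or_pos N with h0 | hpos
  · have : ∀ m : M, m = 0 := by
      intro m
      have := hN m
      rwa [h0, pow_zero, pe_one] at this
    rw [this (g • m - m)]; exact AddSubgroup.zero_mem _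
  · have := main (N - 1) 1 (by omega) le_rfl m
    rwa [pow_one, pe_X] at this

/-- `π g` is divisible for divisible `g` -/
theorem lower2 (hπ : IsCoc π) {ι : G →* H6} {z1 z2 z3 x1 x2 x3 : G}
    (hf : Full ι z1 z2 z3 x1 x2 x3) {p : ℕ} (hp : p.Prime) {g : G} (hg : Dv p g) :
    π g ∈ Md M p := by
  have htf : TF M := fun n m hn hm => torsionfree hπ ι hf.inj hn hm
  have hpu := Md_pure htf hp
  have hst := Md_stable (G := G) (M := M) p
  intro k
  obtain ⟨h, hh⟩ := hg k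
  have hn0 : p ^ k ≠ 0 := pow_ne_zero _ hp.ne_zero
  have h1 : h • π h - π h ∈ Md M p := by
    apply iso_lem (hst h) hpu (unip hπ hf h) hn0
    rw [hh]; exact lower1 hπ hf hp hg _
  obtain ⟨S, hS⟩ := Qp_eq (p ^ k)
  have h2 : pe h (X * S) (π h) ∈ Md M p := by
    rw [mul_comm, pe_mul, pe_X]; exact pe_mem (hst h) S h1
  obtain ⟨y, hy⟩ := h2 k
  refine ⟨π h + y, ?_⟩
  rw [smul_add, hy, ← hh, hπ.map_pow, hS, pe_add, pe_natCast]

end

end Pool.Agent.X276.Brace
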