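import Pool.Agent.X276.BraceGrp

set_option autoImplicit false
set_option linter.all false

namespace Pool.Agent.X276.Brace

theorem cond_w4 (n m : ℕ) (hn : n + 1 = 2 * m) (h2 : (n : ℚ)⁻¹ ∈ Zi 2) (h3 : (n : ℚ)⁻¹ ∈ Zi 3)
    (h5 : (n : ℚ)⁻¹ ∈ Zi 5) (h7 : (n : ℚ)⁻¹ ∈ Zi 7) (h13 : (n : ℚ)⁻¹ ∈ Zi 13)
    (h17 : (n : ℚ)⁻¹ ∈ Zi 17) : Cond (H6.scale (n : ℚ)⁻¹ ⟨0, 1, 1, 1 / 2, 0, 0⟩) := by
  have e3 : (1 / 2 : ℚ) ∈ Zi 3 := half_mem_Zi (by norm_num)
  have e13 : (1 / 2 : ℚ) ∈ Zi 13 := half_mem_Zi (by norm_num)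
  have e17 : (1 / 2 : ℚ) ∈ Zi 17 := half_mem_Zi (by norm_num)
  have hn0 : (n : ℚ) ≠ 0 := by
    have : n ≠ 0 := by omega
    exact_mod_cast this
  have hq : (n : ℚ) + 1 = 2 * m := by exact_mod_cast hn
  set t : ℚ := (n : ℚ)⁻¹ with ht
  have htn : t * n = 1 := inv_mul_cancel₀ hn0
  have ex : t * (1 / 2) + t * t / 2 = (m : ℚ) * (t * t) := by
    have h1 : (m : ℚ) = (n + 1) / 2 := by rw [hq]; ring
    rw [h1]
    linear_combination (-t / 2) * htn
  have z : ∀ {p : ℕ} [Fact p.Prime], (0 : ℚ) ∈ Zi p := fun {p} _ => (Zi p).zero_mem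
  constructor <;> simp only [H6.scale, mul_zero, zero_mul, zero_div, add_zero, zero_add, mul_one,
    sub_self, zero_sub, sub_zero]
  · exact z
  · exact h2
  · exact h2
  · rw [ex]
    exact (Zi 2).mul_mem (natCast_mem _ m) ((Zi 2).mul_mem h2 h2)
  · exact z
  · exact z
  · exact h3
  · exact h3
  · exact (Zi 3).mul_mem h3 e3
  · exact z
  · exact h5
  · exact z
  · exact z
  · exact h7
  · exact z
  · exact z
  · exact z
  · exact z
  · exact h13
  · exact (Zi 13).neg_mem h13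
  · exact (Zi 13).mul_mem h13 e13
  · exact h17
  · exact (Zi 17).neg_mem h17
  · exact (Zi 17).mul_mem h17 e17

theorem cond_w5 (n m : ℕ) (hn : n = 2 * m + 1) (h2 : (n : ℚ)⁻¹ ∈ Zi 2) (h3 : (n : ℚ)⁻¹ ∈ Zi 3)
    (h5 : (n : ℚ)⁻¹ ∈ Zi 5) (h7 : (n : ℚ)⁻¹ ∈ Zi 7) (h11 : (n : ℚ)⁻¹ ∈ Zi 11)
    (h17 : (n : ℚ)⁻¹ ∈ Zi 17) : Cond (H6.scale (n : ℚ)⁻¹ ⟨1, 0, 1, 0, -1 / 2, 0⟩) := by
  have e5 : (1 / 2 : ℚ) ∈ Zi 5 := half_mem_Zi (by norm_num)
  have e11 : (1 / 2 : ℚ) ∈ Zi 11 := half_mem_Zi (by norm_num)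
  have e17 : (1 / 2 : ℚ) ∈ Zi 17 := half_mem_Zi (by norm_num)
  have hn0 : (n : ℚ) ≠ 0 := by
    have : n ≠ 0 := by omega
    exact_mod_cast this
  have hq : (n : ℚ) = 2 * m + 1 := by exact_mod_cast hn
  set t : ℚ := (n : ℚ)⁻¹ with ht
  have htn : t * n = 1 := inv_mul_cancel₀ hn0
  have ex : t * (-1 / 2) + t * t / 2 = -((m : ℚ) * (t * t)) := by
    have h1 : (m : ℚ) = (n - 1) / 2 := by rw [hq]; ring
    rw [h1]
    linear_combination (t / 2) * htn
  have z : ∀ {p : ℕ} [Fact p.Prime], (0 : ℚ) ∈ Zi p := fun {p} _ => (Zi p).zero_mem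
  constructor <;> simp only [H6.scale, mul_zero, zero_mul, zero_div, add_zero, zero_add, mul_one,
    sub_self, zero_sub, sub_zero]
  · exact h2
  · exact z
  · exact h2
  · exact z
  · rw [ex]
    exact (Zi 2).neg_mem ((Zi 2).mul_mem (natCast_mem _ m) ((Zi 2).mul_mem h2 h2))
  · exact z
  · exact z
  · exact h3
  · exact z
  · exact h5
  · exact h5
  · have : t * (-1 / 2) = -(t * (1 / 2)) := by ring
    rw [this]; exact (Zi 5).neg_mem ((Zi 5).mul_mem h5 e5)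
  · exact h7
  · exact z
  · exact z
  · exact h11
  · exact (Zi 11).neg_mem h11
  · have : t * (-1 / 2) = -(t * (1 / 2)) := by ring
    rw [this]; exact (Zi 11).neg_mem ((Zi 11).mul_mem h11 e11)
  · exact z
  · exact z
  · exact z
  · exact h17
  · exact h17
  · have : t * (-1 / 2) = -(t * (1 / 2)) := by ring
    rw [this]; exact (Zi 17).neg_mem ((Zi 17).mul_mem h17 e17)

theorem cond_w6 (n m : ℕ) (hn : n + 1 = 2 * m) (h2 : (n : ℚ)⁻¹ ∈ Zi 2) (h3 : (n : ℚ)⁻¹ ∈ Zi 3)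
    (h5 : (n : ℚ)⁻¹ ∈ Zi 5) (h7 : (n : ℚ)⁻¹ ∈ Zi 7) (h11 : (n : ℚ)⁻¹ ∈ Zi 11)
    (h13 : (n : ℚ)⁻¹ ∈ Zi 13) : Cond (H6.scale (n : ℚ)⁻¹ ⟨1, 1, 0, 0, 0, 1 / 2⟩) := by
  have e7 : (1 / 2 : ℚ) ∈ Zi 7 := half_mem_Zi (by norm_num)
  have e11 : (1 / 2 : ℚ) ∈ Zi 11 := half_mem_Zi (by norm_num)
  have e13 : (1 / 2 : ℚ) ∈ Zi 13 := half_mem_Zi (by norm_num)
  have hn0 : (n : ℚ) ≠ 0 := by
    have : n ≠ 0 := by omega
    exact_mod_cast this
  have hq : (n : ℚ) + 1 = 2 * m := by exact_mod_cast hn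
  set t : ℚ := (n : ℚ)⁻¹ with ht
  have htn : t * n = 1 := inv_mul_cancel₀ hn0
  have ex : t * (1 / 2) + t * t / 2 = (m : ℚ) * (t * t) := by
    have h1 : (m : ℚ) = (n + 1) / 2 := by rw [hq]; ring
    rw [h1]
    linear_combination (-t / 2) * htn
  have z : ∀ {p : ℕ} [Fact p.Prime], (0 : ℚ) ∈ Zi p := fun {p} _ => (Zi p).zero_mem
  constructor <;> simp only [H6.scale, mul_zero, zero_mul, zero_div, add_zero, zero_add, mul_one,
    sub_self, zero_sub, sub_zero]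
  · exact h2
  · exact h2
  · exact z
  · exact z
  · exact z
  · rw [ex]
    exact (Zi 2).mul_mem (natCast_mem _ m) ((Zi 2).mul_mem h2 h2)
  · exact h3
  · exact z
  · exact z
  · exact h5
  · exact z
  · exact z
  · exact h7
  · exact h7
  · exact (Zi 7).mul_mem h7 e7
  · exact h11
  · exact h11
  · exact (Zi 11).mul_mem h11 e11
  · exact h13
  · exact h13
  · exact (Zi 13).mul_mem h13 e13
  · exact z
  · exact z
  · exact z

theorem mem_of_int (a b c x y z : ℤ) (h1 : b * c = 0) (h2 : c * a = 0) (h3 : a * b = 0) (g : H6)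
    (hg : g = ⟨a, b, c, x, y, z⟩) : g ∈ PP := by
  rw [hg]; exact cond_int a b c x y z h1 h2 h3

def X1 : PP := ⟨⟨1, 0, 0, 0, 0, 0⟩, mem_of_int 1 0 0 0 0 0 rfl rfl rfl _ (by simp)⟩
def X2 : PP := ⟨⟨0, 1, 0, 0, 0, 0⟩, mem_of_int 0 1 0 0 0 0 rfl rfl rfl _ (by simp)⟩
def X3 : PP := ⟨⟨0, 0, 1, 0, 0, 0⟩, mem_of_int 0 0 1 0 0 0 rfl rfl rfl _ (by simp)⟩
def Z1 : PP := ⟨⟨0, 0, 0, 1, 0, 0⟩, mem_of_int 0 0 0 1 0 0 rfl rfl rfl _ (by simp)⟩
def Z2 : PP := ⟨⟨0, 0, 0, 0, 1, 0⟩, mem_of_int 0 0 0 0 1 0 rfl rfl rfl _ (by simp)⟩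
def Z3 : PP := ⟨⟨0, 0, 0, 0, 0, 1⟩, mem_of_int 0 0 0 0 0 1 rfl rfl rfl _ (by simp)⟩

theorem full : Full PP.subtype Z1 Z2 Z3 X1 X2 X3 where
  inj := Subtype.coe_injective
  hz1 := rfl
  hz2 := rfl
  hz3 := rfl
  hx1 := rfl
  hx2 := rfl
  hx3 := rfl

theorem odd1 (q k : ℕ) (hq : q % 2 = 1) : ∃ m, q ^ k + 1 = 2 * m := by
  have h1 : Odd (q ^ k) := (Nat.odd_iff.2 hq).pow
  obtain ⟨m, hm⟩ := h1
  exact ⟨m + 1, by omega⟩

theorem odd2 (q k : ℕ) (hq : q % 2 = 1) : ∃ m, q ^ k = 2 * m + 1 := by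
  have h1 : Odd (q ^ k) := (Nat.odd_iff.2 hq).pow
  obtain ⟨m, hm⟩ := h1
  exact ⟨m, hm⟩

theorem dv_lin {p : ℕ} (hp : p ≠ 0) (g : PP) (h2 : ¬ 2 ∣ p)
    (hx : g.1.b * g.1.c = 0) (hy : g.1.c * g.1.a = 0) (hz : g.1.a * g.1.b = 0)
    (h3 : ¬ 3 ∣ p ∨ (g.1.b = 0 ∧ g.1.c = 0 ∧ g.1.x = 0))
    (h5 : ¬ 5 ∣ p ∨ (g.1.a = 0 ∧ g.1.c = 0 ∧ g.1.y = 0))
    (h7 : ¬ 7 ∣ p ∨ (g.1.a = 0 ∧ g.1.b = 0 ∧ g.1.z = 0))
    (h11 : ¬ 11 ∣ p) (h13 : ¬ 13 ∣ p) (h17 : ¬ 17 ∣ p) : Dv p g := by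
  have := dv_of (g := g.1) hp g.2 (fun k => cond_lin g.1 (invp h2) g.2 hx hy hz
    (h3.imp (fun h => invp h) id) (h5.imp (fun h => invp h) id) (h7.imp (fun h => invp h) id)
    (invp h11) (invp h13) (invp h17))
  exact this

theorem arith : Arith PP.subtype Z1 Z2 Z3 X1 X2 X3 3 5 7 11 13 17 where
  pr1 := by norm_num
  pr2 := by norm_num
  pr3 := by norm_num
  pr4 := by norm_num
  pr5 := by norm_num
  pr6 := by norm_num
  d1x := dv_lin (by norm_num) _ (by norm_num) (by simp [X1]) (by simp [X1]) (by simp [X1])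
    (Or.inr (by simp [X1])) (Or.inl (by norm_num)) (Or.inl (by norm_num)) (by norm_num)
    (by norm_num) (by norm_num)
  d1y := dv_lin (by norm_num) _ (by norm_num) (by simp [Z2]) (by simp [Z2]) (by simp [Z2])
    (Or.inr (by simp [Z2])) (Or.inl (by norm_num)) (Or.inl (by norm_num)) (by norm_num)
    (by norm_num) (by norm_num)
  d1z := dv_lin (by norm_num) _ (by norm_num) (by simp [Z3]) (by simp [Z3]) (by simp [Z3])
    (Or.inr (by simp [Z3])) (Or.inl (by norm_num)) (Or.inl (by norm_num)) (by norm_num)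
    (by norm_num) (by norm_num)
  d2x := dv_lin (by norm_num) _ (by norm_num) (by simp [X2]) (by simp [X2]) (by simp [X2])
    (Or.inl (by norm_num)) (Or.inr (by simp [X2])) (Or.inl (by norm_num)) (by norm_num)
    (by norm_num) (by norm_num)
  d2y := dv_lin (by norm_num) _ (by norm_num) (by simp [Z1]) (by simp [Z1]) (by simp [Z1])
    (Or.inl (by norm_num)) (Or.inr (by simp [Z1])) (Or.inl (by norm_num)) (by norm_num)
    (by norm_num) (by norm_num)
  d2z := dv_lin (by norm_num) _ (by norm_num) (by simp [Z3]) (by simp [Z3]) (by simp [Z3])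
    (Or.inl (by norm_num)) (Or.inr (by simp [Z3])) (Or.inl (by norm_num)) (by norm_num)
    (by norm_num) (by norm_num)
  d3x := dv_lin (by norm_num) _ (by norm_num) (by simp [X3]) (by simp [X3]) (by simp [X3])
    (Or.inl (by norm_num)) (Or.inl (by norm_num)) (Or.inr (by simp [X3])) (by norm_num)
    (by norm_num) (by norm_num)
  d3y := dv_lin (by norm_num) _ (by norm_num) (by simp [Z1]) (by simp [Z1]) (by simp [Z1])
    (Or.inl (by norm_num)) (Or.inl (by norm_num)) (Or.inr (by simp [Z1])) (by norm_num)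
    (by norm_num) (by norm_num)
  d3z := dv_lin (by norm_num) _ (by norm_num) (by simp [Z2]) (by simp [Z2]) (by simp [Z2])
    (Or.inl (by norm_num)) (Or.inl (by norm_num)) (Or.inr (by simp [Z2])) (by norm_num)
    (by norm_num) (by norm_num)
  d4 := by
    have e : (X2 * X3).1 = (⟨0, 1, 1, 1 / 2, 0, 0⟩ : H6) := by
      show (⟨0, 1, 0, 0, 0, 0⟩ : H6) * ⟨0, 0, 1, 0, 0, 0⟩ = _
      ext <;> simp
    have h := dv_of (p := 11) (by norm_num) (g := (X2 * X3).1) (X2 * X3).2 (fun k => by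
      obtain ⟨m, hm⟩ := odd1 11 k (by norm_num)
      rw [e]
      exact cond_w4 (11 ^ k) m hm (invp (by norm_num)) (invp (by norm_num)) (invp (by norm_num))
        (invp (by norm_num)) (invp (by norm_num)) (invp (by norm_num)))
    exact h
  d5 := by
    have e : (X1 * X3).1 = (⟨1, 0, 1, 0, -1 / 2, 0⟩ : H6) := by
      show (⟨1, 0, 0, 0, 0, 0⟩ : H6) * ⟨0, 0, 1, 0, 0, 0⟩ = _
      ext <;> simp
    have h := dv_of (p := 13) (by norm_num) (g := (X1 * X3).1) (X1 * X3).2 (fun k => by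
      obtain ⟨m, hm⟩ := odd2 13 k (by norm_num)
      rw [e]
      exact cond_w5 (13 ^ k) m hm (invp (by norm_num)) (invp (by norm_num)) (invp (by norm_num))
        (invp (by norm_num)) (invp (by norm_num)) (invp (by norm_num)))
    exact h
  d6 := by
    have e : (X1 * X2).1 = (⟨1, 1, 0, 0, 0, 1 / 2⟩ : H6) := by
      show (⟨1, 0, 0, 0, 0, 0⟩ : H6) * ⟨0, 1, 0, 0, 0, 0⟩ = _
      ext <;> simp
    have h := dv_of (p := 17) (by norm_num) (g := (X1 * X2).1) (X1 * X2).2 (fun k => by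
      obtain ⟨m, hm⟩ := odd1 17 k (by norm_num)
      rw [e]
      exact cond_w6 (17 ^ k) m hm (invp (by norm_num)) (invp (by norm_num)) (invp (by norm_num))
        (invp (by norm_num)) (invp (by norm_num)) (invp (by norm_num)))
    exact h
  c1 := fun g h => ⟨of_dv h (fun g => g.b) (fun _ _ => rfl) (fun _ h => h.b3),
    of_dv h (fun g => g.c) (fun _ _ => rfl) (fun _ h => h.c3),
    of_dv h (fun g => g.x) (fun _ _ => rfl) (fun _ h => h.x3)⟩
  c2 := fun g h => ⟨of_dv h (fun g => g.a) (fun _ _ => rfl) (fun _ h => h.a5),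
    of_dv h (fun g => g.c) (fun _ _ => rfl) (fun _ h => h.c5),
    of_dv h (fun g => g.y) (fun _ _ => rfl) (fun _ h => h.y5)⟩
  c3 := fun g h => ⟨of_dv h (fun g => g.a) (fun _ _ => rfl) (fun _ h => h.a7),
    of_dv h (fun g => g.b) (fun _ _ => rfl) (fun _ h => h.b7),
    of_dv h (fun g => g.z) (fun _ _ => rfl) (fun _ h => h.z7)⟩
  c4 := fun g h => ⟨of_dv h (fun g => g.a) (fun _ _ => rfl) (fun _ h => h.a11),
    sub_eq_zero.1 (of_dv h (fun g => g.b - g.c) (fun _ _ => by simp only [H6.scale]; ring)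
      (fun _ h => h.b11)),
    of_dv h (fun g => g.y + g.z) (fun _ _ => by simp only [H6.scale]; ring) (fun _ h => h.y11)⟩
  c5 := fun g h => ⟨of_dv h (fun g => g.b) (fun _ _ => rfl) (fun _ h => h.b13),
    sub_eq_zero.1 (of_dv h (fun g => g.a - g.c) (fun _ _ => by simp only [H6.scale]; ring)
      (fun _ h => h.a13)),
    of_dv h (fun g => g.x + g.z) (fun _ _ => by simp only [H6.scale]; ring) (fun _ h => h.x13)⟩
  c6 := fun g h => ⟨of_dv h (fun g => g.c) (fun _ _ => rfl) (fun _ h => h.c17),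
    sub_eq_zero.1 (of_dv h (fun g => g.a - g.b) (fun _ _ => by simp only [H6.scale]; ring)
      (fun _ h => h.a17)),
    of_dv h (fun g => g.x + g.y) (fun _ _ => by simp only [H6.scale]; ring) (fun _ h => h.x17)⟩
  half := by
    intro g hg
    have h1 : g.1 = (⟨0, 0, 0, 0, 0, 1 / 2⟩ : H6) := hg
    have h2 := g.2
    rw [h1] at h2
    have h3 := Cond.z2 h2
    simp only [mul_zero, zero_div, add_zero] at h3
    exact half_not_mem h3

/-- The group `PP` is not the multiplicative group of a left brace. -/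
theorem no_brace {A : Type*} [AddCommGroup A] [Group A]
    (hb : ∀ a b c : A, a * (b + c) = a * b - a + a * c) (e : A ≃* PP) : False := by
  have h0 : ∀ a : A, a * 0 = a := by
    intro a
    have := hb a 0 0
    rw [add_zero] at this
    have h1 : a * 0 - (a * 0 - a + a * 0) = 0 := sub_eq_zero.2 this
    have h2 : a - a * 0 = a * 0 - (a * 0 - a + a * 0) := by abel
    rw [h1] at h2
    exact (sub_eq_zero.1 h2).symm
  have h10 : (1 : A) = 0 := by
    have := h0 1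
    rw [one_mul] at this; exact this.symm
  have hsub : ∀ a x y : A, a * (x - y) = a * x - a * y + a := by
    intro a x y
    have := hb a (x - y) y
    rw [sub_add_cancel] at this
    rw [this]; abel
  letI : DistribMulAction PP A :=
    { smul := fun g m => e.symm g * m - e.symm g
      one_smul := fun m => by
        show e.symm 1 * m - e.symm 1 = m
        rw [map_one, one_mul, h10, sub_zero]
      mul_smul := fun g h m => by
        show e.symm (g * h) * m - e.symm (g * h) =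
          e.symm g * (e.symm h * m - e.symm h) - e.symm g
        rw [map_mul, hsub, mul_assoc]; abel
      smul_zero := fun g => by
        show e.symm g * 0 - e.symm g = 0
        rw [h0, sub_self]
      smul_add := fun g m n => by
        show e.symm g * (m + n) - e.symm g = (e.symm g * m - e.symm g) + (e.symm g * n - e.symm g)
        rw [hb]; abel }
  have hπ : IsCoc (fun g : PP => e.symm g) :=
    { bij := e.symm.bijective
      coc := fun g h => by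
        show e.symm (g * h) = e.symm g + (e.symm g * e.symm h - e.symm g)
        rw [map_mul]; abel }
  exact rigid hπ full arith

end Pool.Agent.X276.Brace
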