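import Pool.Agent.X276.BraceRig

set_option autoImplicit false

namespace Pool.Agent.X276.Brace

instance : Fact (Nat.Prime 5) := ⟨by norm_num⟩
instance : Fact (Nat.Prime 7) := ⟨by norm_num⟩
instance : Fact (Nat.Prime 11) := ⟨by norm_num⟩
instance : Fact (Nat.Prime 13) := ⟨by norm_num⟩
instance : Fact (Nat.Prime 17) := ⟨by norm_num⟩

/-- the `p`-integral rational numbers -/
def Zi (p : ℕ) [Fact p.Prime] : Subring ℚ where
  carrier := {q | padicNorm p q ≤ 1}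
  mul_mem' := by
    intro a b ha hb
    simp only [Set.mem_ofPred_eq] at *
    rw [padicNorm.mul]
    exact mul_le_one₀ ha (padicNorm.nonneg _) hb
  one_mem' := by simp
  add_mem' := by
    intro a b ha hb
    simp only [Set.mem_ofPred_eq] at *
    exact (padicNorm.nonarchimedean).trans (max_le ha hb)
  zero_mem' := by simp
  neg_mem' := by
    intro a ha
    simp only [Set.mem_ofPred_eq] at *
    rwa [padicNorm.neg]

theorem mem_Zi {p : ℕ} [Fact p.Prime] {q : ℚ} : q ∈ Zi p ↔ padicNorm p q ≤ 1 := Iff.rfl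

theorem inv_mem_Zi {p : ℕ} [Fact p.Prime] {n : ℕ} (h : ¬ p ∣ n) : (n : ℚ)⁻¹ ∈ Zi p := by
  have hn : (n : ℚ) ≠ 0 := by
    intro h0
    apply h
    have : n = 0 := by exact_mod_cast h0
    rw [this]; exact dvd_zero _
  have h1 : padicNorm p (n : ℚ) = 1 := (padicNorm.nat_eq_one_iff n).2 h
  have h2 : padicNorm p (n : ℚ) * padicNorm p (n : ℚ)⁻¹ = 1 := by
    rw [← padicNorm.mul, mul_inv_cancel₀ hn, padicNorm.one]
  rw [h1, one_mul] at h2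
  rw [mem_Zi, h2]

theorem zero_of_div {p : ℕ} [hp : Fact p.Prime] {q : ℚ}
    (h : ∀ k : ℕ, ∃ r ∈ Zi p, (p : ℚ) ^ k * r = q) : q = 0 := by
  by_contra hq
  have hpos : 0 < padicNorm p q := lt_of_le_of_ne (padicNorm.nonneg _)
    (fun h => hq (padicNorm.zero_of_padicNorm_eq_zero h.symm))
  have hp1 : (1 : ℚ) < p := by exact_mod_cast hp.out.one_lt
  obtain ⟨k, hk⟩ := pow_unbounded_of_one_lt (padicNorm p q)⁻¹ hp1
  obtain ⟨r, hr, e⟩ := h k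
  rw [mem_Zi] at hr
  have h1 : padicNorm p q = padicNorm p ((p : ℚ) ^ k) * padicNorm p r := by
    rw [← padicNorm.mul, e]
  have h2 : padicNorm p ((p : ℚ) ^ k) = ((p : ℚ) ^ k)⁻¹ := by
    have h3 : ∀ k : ℕ, padicNorm p ((p : ℚ) ^ k) = ((p : ℚ) ^ k)⁻¹ := by
      intro k
      induction k with
      | zero => simp
      | succ k ih =>
        rw [pow_succ, padicNorm.mul, ih, padicNorm.padicNorm_p_of_prime, mul_inv]
    exact h3 k
  have h4 : (0 : ℚ) < (p : ℚ) ^ k := by positivity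
  have h5 : padicNorm p q ≤ ((p : ℚ) ^ k)⁻¹ := by
    rw [h1, h2]
    exact mul_le_of_le_one_right (by positivity) hr
  have h6 : ((p : ℚ) ^ k)⁻¹ < padicNorm p q := by
    rw [inv_lt_comm₀ h4 hpos]; exact hk
  exact absurd h5 (not_le.2 h6)

theorem half_mem_Zi {p : ℕ} [Fact p.Prime] (h : ¬ p ∣ 2) : (1 / 2 : ℚ) ∈ Zi p := by
  have := inv_mem_Zi (p := p) (n := 2) h
  rw [one_div]
  exact_mod_cast this

theorem half_not_mem : (1 / 2 : ℚ) ∉ Zi 2 := by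
  rw [mem_Zi]
  have : padicNorm 2 (1 / 2 : ℚ) = 2 := by
    have h1 : padicNorm 2 ((2 : ℕ) : ℚ) = ((2 : ℕ) : ℚ)⁻¹ := padicNorm.padicNorm_p_of_prime
    have h2 : padicNorm 2 ((2 : ℕ) : ℚ) * padicNorm 2 (1 / 2 : ℚ) = 1 := by
      rw [← padicNorm.mul]; norm_num
    rw [h1] at h2
    generalize padicNorm 2 (1 / 2 : ℚ) = N at h2 ⊢
    push_cast at h2
    linarith
  rw [this]; norm_num

/-- The arithmetic conditions defining the group. -/
structure Cond (g : H6) : Prop where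
  a2 : g.a ∈ Zi 2
  b2 : g.b ∈ Zi 2
  c2 : g.c ∈ Zi 2
  x2 : g.x + g.b * g.c / 2 ∈ Zi 2
  y2 : g.y + g.c * g.a / 2 ∈ Zi 2
  z2 : g.z + g.a * g.b / 2 ∈ Zi 2
  b3 : g.b ∈ Zi 3
  c3 : g.c ∈ Zi 3
  x3 : g.x ∈ Zi 3
  a5 : g.a ∈ Zi 5
  c5 : g.c ∈ Zi 5
  y5 : g.y ∈ Zi 5
  a7 : g.a ∈ Zi 7
  b7 : g.b ∈ Zi 7
  z7 : g.z ∈ Zi 7
  a11 : g.a ∈ Zi 11
  b11 : g.b - g.c ∈ Zi 11
  y11 : g.y + g.z ∈ Zi 11
  b13 : g.b ∈ Zi 13
  a13 : g.a - g.c ∈ Zi 13
  x13 : g.x + g.z ∈ Zi 13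
  c17 : g.c ∈ Zi 17
  a17 : g.a - g.b ∈ Zi 17
  x17 : g.x + g.y ∈ Zi 17

theorem Cond.mul {g h : H6} (hg : Cond g) (hh : Cond h) : Cond (g * h) := by
  have e3 : (1 / 2 : ℚ) ∈ Zi 3 := half_mem_Zi (by norm_num)
  have e5 : (1 / 2 : ℚ) ∈ Zi 5 := half_mem_Zi (by norm_num)
  have e7 : (1 / 2 : ℚ) ∈ Zi 7 := half_mem_Zi (by norm_num)
  have e11 : (1 / 2 : ℚ) ∈ Zi 11 := half_mem_Zi (by norm_num)
  have e13 : (1 / 2 : ℚ) ∈ Zi 13 := half_mem_Zi (by norm_num)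
  have e17 : (1 / 2 : ℚ) ∈ Zi 17 := half_mem_Zi (by norm_num)
  constructor
  · exact (Zi 2).add_mem hg.a2 hh.a2
  · exact (Zi 2).add_mem hg.b2 hh.b2
  · exact (Zi 2).add_mem hg.c2 hh.c2
  · have : (g * h).x + (g * h).b * (g * h).c / 2 =
      (g.x + g.b * g.c / 2) + (h.x + h.b * h.c / 2) + g.b * h.c := by simp; ring
    rw [this]
    exact (Zi 2).add_mem ((Zi 2).add_mem hg.x2 hh.x2) ((Zi 2).mul_mem hg.b2 hh.c2)
  · have : (g * h).y + (g * h).c * (g * h).a / 2 =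
      (g.y + g.c * g.a / 2) + (h.y + h.c * h.a / 2) + g.c * h.a := by simp; ring
    rw [this]
    exact (Zi 2).add_mem ((Zi 2).add_mem hg.y2 hh.y2) ((Zi 2).mul_mem hg.c2 hh.a2)
  · have : (g * h).z + (g * h).a * (g * h).b / 2 =
      (g.z + g.a * g.b / 2) + (h.z + h.a * h.b / 2) + g.a * h.b := by simp; ring
    rw [this]
    exact (Zi 2).add_mem ((Zi 2).add_mem hg.z2 hh.z2) ((Zi 2).mul_mem hg.a2 hh.b2)
  · exact (Zi 3).add_mem hg.b3 hh.b3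
  · exact (Zi 3).add_mem hg.c3 hh.c3
  · have : (g * h).x = g.x + h.x + 1 / 2 * (g.b * h.c - g.c * h.b) := by simp; ring
    rw [this]
    exact (Zi 3).add_mem ((Zi 3).add_mem hg.x3 hh.x3) ((Zi 3).mul_mem e3
      ((Zi 3).sub_mem ((Zi 3).mul_mem hg.b3 hh.c3) ((Zi 3).mul_mem hg.c3 hh.b3)))
  · exact (Zi 5).add_mem hg.a5 hh.a5
  · exact (Zi 5).add_mem hg.c5 hh.c5
  · have : (g * h).y = g.y + h.y + 1 / 2 * (g.c * h.a - g.a * h.c) := by simp; ring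
    rw [this]
    exact (Zi 5).add_mem ((Zi 5).add_mem hg.y5 hh.y5) ((Zi 5).mul_mem e5
      ((Zi 5).sub_mem ((Zi 5).mul_mem hg.c5 hh.a5) ((Zi 5).mul_mem hg.a5 hh.c5)))
  · exact (Zi 7).add_mem hg.a7 hh.a7
  · exact (Zi 7).add_mem hg.b7 hh.b7
  · have : (g * h).z = g.z + h.z + 1 / 2 * (g.a * h.b - g.b * h.a) := by simp; ring
    rw [this]
    exact (Zi 7).add_mem ((Zi 7).add_mem hg.z7 hh.z7) ((Zi 7).mul_mem e7
      ((Zi 7).sub_mem ((Zi 7).mul_mem hg.a7 hh.b7) ((Zi 7).mul_mem hg.b7 hh.a7)))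
  · exact (Zi 11).add_mem hg.a11 hh.a11
  · have : (g * h).b - (g * h).c = (g.b - g.c) + (h.b - h.c) := by simp; ring
    rw [this]; exact (Zi 11).add_mem hg.b11 hh.b11
  · have : (g * h).y + (g * h).z = (g.y + g.z) + (h.y + h.z) +
      1 / 2 * (g.a * (h.b - h.c) - h.a * (g.b - g.c)) := by simp; ring
    rw [this]
    exact (Zi 11).add_mem ((Zi 11).add_mem hg.y11 hh.y11) ((Zi 11).mul_mem e11
      ((Zi 11).sub_mem ((Zi 11).mul_mem hg.a11 hh.b11) ((Zi 11).mul_mem hh.a11 hg.b11)))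
  · exact (Zi 13).add_mem hg.b13 hh.b13
  · have : (g * h).a - (g * h).c = (g.a - g.c) + (h.a - h.c) := by simp; ring
    rw [this]; exact (Zi 13).add_mem hg.a13 hh.a13
  · have : (g * h).x + (g * h).z = (g.x + g.z) + (h.x + h.z) +
      1 / 2 * (h.b * (g.a - g.c) - g.b * (h.a - h.c)) := by simp; ring
    rw [this]
    exact (Zi 13).add_mem ((Zi 13).add_mem hg.x13 hh.x13) ((Zi 13).mul_mem e13
      ((Zi 13).sub_mem ((Zi 13).mul_mem hh.b13 hg.a13) ((Zi 13).mul_mem hg.b13 hh.a13)))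
  · exact (Zi 17).add_mem hg.c17 hh.c17
  · have : (g * h).a - (g * h).b = (g.a - g.b) + (h.a - h.b) := by simp; ring
    rw [this]; exact (Zi 17).add_mem hg.a17 hh.a17
  · have : (g * h).x + (g * h).y = (g.x + g.y) + (h.x + h.y) +
      1 / 2 * (g.c * (h.a - h.b) - h.c * (g.a - g.b)) := by simp; ring
    rw [this]
    exact (Zi 17).add_mem ((Zi 17).add_mem hg.x17 hh.x17) ((Zi 17).mul_mem e17
      ((Zi 17).sub_mem ((Zi 17).mul_mem hg.c17 hh.a17) ((Zi 17).mul_mem hh.c17 hg.a17)))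

theorem Cond.inv {g : H6} (hg : Cond g) : Cond g⁻¹ := by
  constructor
  · exact (Zi 2).neg_mem hg.a2
  · exact (Zi 2).neg_mem hg.b2
  · exact (Zi 2).neg_mem hg.c2
  · have : (g⁻¹).x + (g⁻¹).b * (g⁻¹).c / 2 = -(g.x + g.b * g.c / 2) + g.b * g.c := by simp; ring
    rw [this]; exact (Zi 2).add_mem ((Zi 2).neg_mem hg.x2) ((Zi 2).mul_mem hg.b2 hg.c2)
  · have : (g⁻¹).y + (g⁻¹).c * (g⁻¹).a / 2 = -(g.y + g.c * g.a / 2) + g.c * g.a := by simp; ring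
    rw [this]; exact (Zi 2).add_mem ((Zi 2).neg_mem hg.y2) ((Zi 2).mul_mem hg.c2 hg.a2)
  · have : (g⁻¹).z + (g⁻¹).a * (g⁻¹).b / 2 = -(g.z + g.a * g.b / 2) + g.a * g.b := by simp; ring
    rw [this]; exact (Zi 2).add_mem ((Zi 2).neg_mem hg.z2) ((Zi 2).mul_mem hg.a2 hg.b2)
  · exact (Zi 3).neg_mem hg.b3
  · exact (Zi 3).neg_mem hg.c3
  · exact (Zi 3).neg_mem hg.x3
  · exact (Zi 5).neg_mem hg.a5
  · exact (Zi 5).neg_mem hg.c5
  · exact (Zi 5).neg_mem hg.y5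
  · exact (Zi 7).neg_mem hg.a7
  · exact (Zi 7).neg_mem hg.b7
  · exact (Zi 7).neg_mem hg.z7
  · exact (Zi 11).neg_mem hg.a11
  · have : (g⁻¹).b - (g⁻¹).c = -(g.b - g.c) := by simp; ring
    rw [this]; exact (Zi 11).neg_mem hg.b11
  · have : (g⁻¹).y + (g⁻¹).z = -(g.y + g.z) := by simp; ring
    rw [this]; exact (Zi 11).neg_mem hg.y11
  · exact (Zi 13).neg_mem hg.b13
  · have : (g⁻¹).a - (g⁻¹).c = -(g.a - g.c) := by simp; ring
    rw [this]; exact (Zi 13).neg_mem hg.a13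
  · have : (g⁻¹).x + (g⁻¹).z = -(g.x + g.z) := by simp; ring
    rw [this]; exact (Zi 13).neg_mem hg.x13
  · exact (Zi 17).neg_mem hg.c17
  · have : (g⁻¹).a - (g⁻¹).b = -(g.a - g.b) := by simp; ring
    rw [this]; exact (Zi 17).neg_mem hg.a17
  · have : (g⁻¹).x + (g⁻¹).y = -(g.x + g.y) := by simp; ring
    rw [this]; exact (Zi 17).neg_mem hg.x17

theorem Cond.one : Cond 1 := by
  constructor <;> simp

/-- the group -/
def PP : Subgroup H6 where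
  carrier := {g | Cond g}
  mul_mem' := Cond.mul
  one_mem' := Cond.one
  inv_mem' := Cond.inv

theorem mem_PP {g : H6} : g ∈ PP ↔ Cond g := Iff.rfl

/-- divisibility in the group -/
theorem dv_of {p : ℕ} (hp : p ≠ 0) {g : H6} (hg : g ∈ PP)
    (h : ∀ k : ℕ, Cond (H6.scale ((p ^ k : ℕ) : ℚ)⁻¹ g)) : Dv p (⟨g, hg⟩ : PP) := by
  intro k
  refine ⟨⟨H6.scale ((p ^ k : ℕ) : ℚ)⁻¹ g, h k⟩, Subtype.ext ?_⟩
  show (H6.scale ((p ^ k : ℕ) : ℚ)⁻¹ g) ^ (p ^ k) = g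
  rw [H6.pow_eq]
  have h0 : ((p ^ k : ℕ) : ℚ) ≠ 0 := by
    have : p ^ k ≠ 0 := pow_ne_zero _ hp
    exact_mod_cast this
  ext <;> simp only [H6.scale] <;> rw [mul_inv_cancel_left₀ h0]

theorem of_dv {p : ℕ} [hp : Fact p.Prime] {g : PP} (h : Dv p g) (f : H6 → ℚ)
    (hf : ∀ (t : ℚ) (g : H6), f (H6.scale t g) = t * f g) (hfc : ∀ g, Cond g → f g ∈ Zi p) :
    f g.1 = 0 := by
  apply zero_of_div (p := p)
  intro k
  obtain ⟨l, hl⟩ := h k
  refine ⟨f l.1, hfc _ l.2, ?_⟩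
  rw [← hl]
  show (p : ℚ) ^ k * f l.1 = f (l.1 ^ p ^ k)
  rw [H6.pow_eq, hf]
  push_cast; rfl

theorem cond_lin {t : ℚ} (w : H6) (h2 : t ∈ Zi 2) (hw : Cond w)
    (hx : w.b * w.c = 0) (hy : w.c * w.a = 0) (hz : w.a * w.b = 0)
    (h3 : t ∈ Zi 3 ∨ (w.b = 0 ∧ w.c = 0 ∧ w.x = 0))
    (h5 : t ∈ Zi 5 ∨ (w.a = 0 ∧ w.c = 0 ∧ w.y = 0))
    (h7 : t ∈ Zi 7 ∨ (w.a = 0 ∧ w.b = 0 ∧ w.z = 0))
    (h11 : t ∈ Zi 11) (h13 : t ∈ Zi 13) (h17 : t ∈ Zi 17) : Cond (H6.scale t w) := by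
  have m2 : ∀ {q : ℚ}, q ∈ Zi 2 → t * q ∈ Zi 2 := fun h => (Zi 2).mul_mem h2 h
  have m11 : ∀ {q : ℚ}, q ∈ Zi 11 → t * q ∈ Zi 11 := fun h => (Zi 11).mul_mem h11 h
  have m13 : ∀ {q : ℚ}, q ∈ Zi 13 → t * q ∈ Zi 13 := fun h => (Zi 13).mul_mem h13 h
  have m17 : ∀ {q : ℚ}, q ∈ Zi 17 → t * q ∈ Zi 17 := fun h => (Zi 17).mul_mem h17 h
  have or3 : ∀ {q : ℚ}, q ∈ Zi 3 → (t ∈ Zi 3 ∨ q = 0) → t * q ∈ Zi 3 := by
    rintro q hq (h | rfl)
    · exact (Zi 3).mul_mem h hq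
    · rw [mul_zero]; exact (Zi 3).zero_mem
  have or5 : ∀ {q : ℚ}, q ∈ Zi 5 → (t ∈ Zi 5 ∨ q = 0) → t * q ∈ Zi 5 := by
    rintro q hq (h | rfl)
    · exact (Zi 5).mul_mem h hq
    · rw [mul_zero]; exact (Zi 5).zero_mem
  have or7 : ∀ {q : ℚ}, q ∈ Zi 7 → (t ∈ Zi 7 ∨ q = 0) → t * q ∈ Zi 7 := by
    rintro q hq (h | rfl)
    · exact (Zi 7).mul_mem h hq
    · rw [mul_zero]; exact (Zi 7).zero_mem
  constructor
  · exact m2 hw.a2
  · exact m2 hw.b2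
  · exact m2 hw.c2
  · have := hw.x2
    rw [hx, zero_div, add_zero] at this
    have e : (H6.scale t w).x + (H6.scale t w).b * (H6.scale t w).c / 2 = t * w.x := by
      simp only [H6.scale]
      linear_combination t ^ 2 / 2 * hx
    rw [e]; exact m2 this
  · have := hw.y2
    rw [hy, zero_div, add_zero] at this
    have e : (H6.scale t w).y + (H6.scale t w).c * (H6.scale t w).a / 2 = t * w.y := by
      simp only [H6.scale]
      linear_combination t ^ 2 / 2 * hy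
    rw [e]; exact m2 this
  · have := hw.z2
    rw [hz, zero_div, add_zero] at this
    have e : (H6.scale t w).z + (H6.scale t w).a * (H6.scale t w).b / 2 = t * w.z := by
      simp only [H6.scale]
      linear_combination t ^ 2 / 2 * hz
    rw [e]; exact m2 this
  · exact or3 hw.b3 (h3.imp id fun h => h.1)
  · exact or3 hw.c3 (h3.imp id fun h => h.2.1)
  · exact or3 hw.x3 (h3.imp id fun h => h.2.2)
  · exact or5 hw.a5 (h5.imp id fun h => h.1)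
  · exact or5 hw.c5 (h5.imp id fun h => h.2.1)
  · exact or5 hw.y5 (h5.imp id fun h => h.2.2)
  · exact or7 hw.a7 (h7.imp id fun h => h.1)
  · exact or7 hw.b7 (h7.imp id fun h => h.2.1)
  · exact or7 hw.z7 (h7.imp id fun h => h.2.2)
  · exact m11 hw.a11
  · have := m11 hw.b11
    rw [mul_sub] at this; exact this
  · have := m11 hw.y11
    rw [mul_add] at this; exact this
  · exact m13 hw.b13
  · have := m13 hw.a13
    rw [mul_sub] at this; exact this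
  · have := m13 hw.x13
    rw [mul_add] at this; exact this
  · exact m17 hw.c17
  · have := m17 hw.a17
    rw [mul_sub] at this; exact this
  · have := m17 hw.x17
    rw [mul_add] at this; exact this

theorem cond_int (a b c x y z : ℤ) (h1 : b * c = 0) (h2 : c * a = 0) (h3 : a * b = 0) :
    Cond ⟨a, b, c, x, y, z⟩ := by
  have i : ∀ {p : ℕ} [Fact p.Prime] (n : ℤ), (n : ℚ) ∈ Zi p := fun {p} _ n => intCast_mem (Zi p) n
  have h1' : (b : ℚ) * c = 0 := by exact_mod_cast h1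
  have h2' : (c : ℚ) * a = 0 := by exact_mod_cast h2
  have h3' : (a : ℚ) * b = 0 := by exact_mod_cast h3
  have sb : ∀ {p : ℕ} [Fact p.Prime] (m n : ℤ), (m : ℚ) - n ∈ Zi p := fun {p} _ m n =>
    (Zi p).sub_mem (i m) (i n)
  have ad : ∀ {p : ℕ} [Fact p.Prime] (m n : ℤ), (m : ℚ) + n ∈ Zi p := fun {p} _ m n =>
    (Zi p).add_mem (i m) (i n)
  have k1 : (x : ℚ) + b * c / 2 ∈ Zi 2 := by rw [h1', zero_div, add_zero]; exact i _
  have k2 : (y : ℚ) + c * a / 2 ∈ Zi 2 := by rw [h2', zero_div, add_zero]; exact i _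
  have k3 : (z : ℚ) + a * b / 2 ∈ Zi 2 := by rw [h3', zero_div, add_zero]; exact i _
  exact ⟨i a, i b, i c, k1, k2, k3, i b, i c, i x, i a, i c, i y, i a, i b, i z, i a, sb b c,
    ad y z, i b, sb a c, ad x z, i c, sb a b, ad x y⟩

theorem invp {p q k : ℕ} [Fact p.Prime] (h : ¬ p ∣ q) : ((q ^ k : ℕ) : ℚ)⁻¹ ∈ Zi p :=
  inv_mem_Zi fun h1 => h ((Fact.out : p.Prime).dvd_of_dvd_pow h1)

end Pool.Agent.X276.Brace
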