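import Pool.Agent.X276.BraceUni

set_option autoImplicit false

open Polynomial

namespace Pool.Agent.X276.Brace

/-- `((1 + X)^n - 1) / X` is injective modulo pure subgroups, for unipotent elements -/
theorem Qinj {G M : Type*} [Group G] [AddCommGroup M] [DistribMulAction G M] {g : G}
    {B : AddSubgroup M} (hB : ∀ m ∈ B, g • m ∈ B)
    (hpure : ∀ (n : ℕ) (m : M), n ≠ 0 → n • m ∈ B → m ∈ B)
    (hun : ∃ k : ℕ, ∀ m : M, pe g (X ^ k) m = 0) {n : ℕ} (hn : n ≠ 0) {y : M}
    (h : pe g (Qp n) y ∈ B) : y ∈ B := by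
  classical
  by_contra hy
  obtain ⟨k, hk⟩ := hun
  have hex : ∃ j : ℕ, pe g (X ^ j) y ∈ B := ⟨k, by rw [hk]; exact B.zero_mem⟩
  have hj := Nat.find_spec hex
  have hmin := fun i => Nat.find_min (H := hex) (m := i)
  set j := Nat.find hex with hjdef
  rcases Nat.eq_zero_or_pos j with h0 | hpos
  · rw [h0, pow_zero, pe_one] at hj; exact hy hj
  · obtain ⟨i, hi⟩ : ∃ i, j = i + 1 := ⟨j - 1, by omega⟩
    have h1 := hmin i (by omega)
    obtain ⟨S, hS⟩ := Qp_eq n
    have h2 := pe_mem hB (X ^ i) h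
    rw [pe_comm, hS, pe_add, pe_natCast] at h2
    have h3 : pe g (X * S) (pe g (X ^ i) y) ∈ B := by
      rw [mul_comm, pe_mul, ← pe_mul g X, ← pow_succ', ← hi]
      exact pe_mem hB S hj
    have h4 := B.sub_mem h2 h3
    rw [add_sub_cancel_right] at h4
    exact h1 (hpure n _ hn h4)

theorem nilp_all {Z M : Type*} [CommGroup Z] [AddCommGroup M] [DistribMulAction Z M]
    (htf : ∀ (n : ℕ) (m : M), n ≠ 0 → n • m = 0 → m = 0)
    (hun : ∀ z : Z, ∃ k : ℕ, ∀ m : M, pe z (X ^ k) m = 0) (z1 z2 z3 : Z)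
    (hgen : ∀ z : Z, ∃ n : ℕ, n ≠ 0 ∧ ∃ a b c : ℤ, z ^ n = z1 ^ a * z2 ^ b * z3 ^ c)
    (φ : M →+ M) (hφ : ∀ (z : Z) (m : M), φ (z • m) = z • φ m)
    (hI : ∀ m, φ m ∈ AddSubgroup.closure {y : M | ∃ z : Z, ∃ m : M, y = z • m - m}) :
    ∃ N : ℕ, ∀ m, φ^[N] m = 0 := by
  classical
  let f : MonoidAlgebra ℤ Z →ₐ[ℤ] AddMonoid.End M :=
    MonoidAlgebra.lift ℤ (AddMonoid.End M) Z (DistribMulAction.toAddMonoidEnd Z M)
  let o : Z →* MonoidAlgebra ℤ Z := MonoidAlgebra.of ℤ Z
  have hfo : ∀ z (m : M), f (o z) m = z • m := by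
    intro z m
    simp only [f, o, MonoidAlgebra.lift_of]; rfl
  have hfe : ∀ (z : Z) (b : ℤ[X]) (m : M), f (aeval (o z - 1) b) m = pe z b m := by
    intro z b m
    rw [← aeval_algHom_apply]
    have : f (o z - 1) = rr M z := by
      rw [map_sub, map_one]
      ext m
      show f (o z) m - m = _
      rw [hfo]; rfl
    rw [this]; rfl
  let I : Ideal (MonoidAlgebra ℤ Z) := Ideal.span (Set.range fun z => o z - 1)
  let I' : Ideal (MonoidAlgebra ℤ Z) := Ideal.span {o z1 - 1, o z2 - 1, o z3 - 1}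
  have hsub : ∀ z : Z, ∀ n : ℕ, ∀ a b c : ℤ, z ^ n = z1 ^ a * z2 ^ b * z3 ^ c →
      o z ^ n - 1 ∈ I' := by
    let S : Subgroup Z :=
      { carrier := {z | o z - 1 ∈ I'}
        mul_mem' := by
          intro x y hx hy
          simp only [Set.mem_ofPred_eq] at *
          have : o (x * y) - 1 = o x * (o y - 1) + (o x - 1) := by rw [map_mul]; ring
          rw [this]; exact I'.add_mem (I'.mul_mem_left _ hy) hx
        one_mem' := by
          simp only [Set.mem_ofPred_eq]
          rw [map_one, sub_self]; exact I'.zero_mem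
        inv_mem' := by
          intro x hx
          simp only [Set.mem_ofPred_eq] at *
          have h1 : o x⁻¹ * o x = 1 := by rw [← map_mul, inv_mul_cancel, map_one]
          have : o x⁻¹ - 1 = -o x⁻¹ * (o x - 1) := by
            rw [mul_sub, mul_one, neg_mul, h1]; ring
          rw [this]; exact I'.mul_mem_left _ hx }
    have h1 : z1 ∈ S := Ideal.subset_span (by simp)
    have h2 : z2 ∈ S := Ideal.subset_span (by simp)
    have h3 : z3 ∈ S := Ideal.subset_span (by simp)
    intro z n a b c e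
    have h4 : z ^ n ∈ S := by
      rw [e]
      exact S.mul_mem (S.mul_mem (S.zpow_mem h1 a) (S.zpow_mem h2 b)) (S.zpow_mem h3 c)
    have h5 : o (z ^ n) - 1 ∈ I' := h4
    rwa [map_pow] at h5
  obtain ⟨N, hN⟩ : ∃ N : ℕ, I' ^ N ≤ RingHom.ker f := by
    apply Ideal.exists_pow_le_of_le_radical_of_fg
    · rw [Ideal.span_le]
      have h0 : ∀ z : Z, o z - 1 ∈ (RingHom.ker f).radical := by
        intro z
        obtain ⟨k, hk⟩ := hun z
        refine ⟨k, ?_⟩
        rw [RingHom.mem_ker]
        ext m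
        have := hfe z (X ^ k) m
        rw [map_pow, aeval_X, hk] at this
        rw [this]; rfl
      rintro x (rfl | rfl | rfl)
      · exact h0 _
      · exact h0 _
      · exact h0 _
    · exact Submodule.fg_span (Set.toFinite _)
  have hP : ∀ j : ℕ, ∀ x ∈ I ^ j, ∀ y, (∀ t ∈ I' ^ j, f (t * y) = 0) → f (x * y) = 0 := by
    intro j
    induction j with
    | zero =>
      intro x _ y h
      have := h 1 (by simp)
      rw [one_mul] at this
      rw [map_mul, this, mul_zero]
    | succ j ih =>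
      intro x hx y h
      rw [pow_succ] at hx
      refine Submodule.mul_induction_on hx ?_ ?_
      · intro x' hx' i hi
        revert x'
        refine Submodule.span_induction ?_ ?_ ?_ ?_ hi
        · rintro _ ⟨z, rfl⟩ x' hx'
          simp only
          rw [mul_assoc]
          apply ih x' hx'
          intro t ht
          obtain ⟨n, hn, a, b, c, e⟩ := hgen z
          have h1 := h (t * (o z ^ n - 1)) (by
            rw [pow_succ]; exact Ideal.mul_mem_mul ht (hsub z n a b c e))
          have h2 : o z ^ n - 1 = aeval (o z - 1) (Qp n) * (o z - 1) := by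
            have := congrArg (aeval (o z - 1)) (X_mul_Qp n)
            rw [map_mul, map_sub, map_pow, map_add, map_one, aeval_X] at this
            rw [mul_comm, this]; congr 2; ring
          ext m
          have h3 : pe z (Qp n) (f (t * ((o z - 1) * y)) m) = 0 := by
            rw [← hfe]
            show (f (aeval (o z - 1) (Qp n)) * f (t * ((o z - 1) * y))) m = 0
            rw [← map_mul]
            have h4 : aeval (o z - 1) (Qp n) * (t * ((o z - 1) * y)) = t * (o z ^ n - 1) * y := by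
              rw [h2]; ring
            rw [h4, h1]; rfl
          have h5 := Qinj (g := z) (B := (⊥ : AddSubgroup M))
            (fun m hm => by rw [AddSubgroup.mem_bot] at hm ⊢; rw [hm, smul_zero])
            (fun n m hn hm => by rw [AddSubgroup.mem_bot] at hm ⊢; exact htf n m hn hm)
            (hun z) hn (y := f (t * ((o z - 1) * y)) m)
            (by rw [h3]; exact AddSubgroup.zero_mem _)
          rw [AddSubgroup.mem_bot] at h5
          rw [h5]; rfl
        · intro x' _
          rw [mul_zero, zero_mul, map_zero]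
        · intro u v _ _ hu hv x' hx'
          rw [mul_add, add_mul, map_add, hu x' hx', hv x' hx', add_zero]
        · intro r u _ hu x' hx'
          have := hu (x' * r) (Ideal.mul_mem_right _ _ hx')
          rw [smul_eq_mul, ← mul_assoc]; exact this
      · intro u v hu hv
        rw [add_mul, map_add, hu, hv, add_zero]
  have hker : ∀ x ∈ I ^ N, f x = 0 := by
    intro x hx
    have := hP N x hx 1 (fun t ht => by rw [mul_one]; exact hN ht)
    rwa [mul_one] at this
  have hcomm : ∀ (r : MonoidAlgebra ℤ Z) (m : M), φ (f r m) = f r (φ m) := by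
    intro r m
    induction r using MonoidAlgebra.induction_on with
    | of z =>
      have h1 := hfo z m
      have h2 := hfo z (φ m)
      simp only [o] at h1 h2
      rw [h1, h2, hφ]
    | add a b ha hb =>
      rw [map_add f]
      show φ (f a m + f b m) = f a (φ m) + f b (φ m)
      rw [map_add, ha, hb]
    | smul a r hr =>
      rw [map_smul]
      show φ (a • f r m) = a • f r (φ m)
      rw [map_zsmul, hr]
  let T : ℕ → AddSubgroup M := fun j => AddSubgroup.closure {y | ∃ r ∈ I ^ j, ∃ m : M, y = f r m}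
  have hT : ∀ j, ∀ m ∈ T j, φ m ∈ T (j + 1) := by
    intro j m hm
    induction hm using AddSubgroup.closure_induction with
    | mem x hx =>
      obtain ⟨r, hr, m, rfl⟩ := hx
      rw [hcomm]
      have h1 : ∀ y ∈ AddSubgroup.closure {y : M | ∃ z : Z, ∃ m : M, y = z • m - m},
          f r y ∈ T (j + 1) := by
        intro y hy
        induction hy using AddSubgroup.closure_induction with
        | mem y hy =>
          obtain ⟨z, m, rfl⟩ := hy
          apply AddSubgroup.subset_closure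
          refine ⟨r * (o z - 1), ?_, m, ?_⟩
          · rw [pow_succ]
            exact Ideal.mul_mem_mul hr (Ideal.subset_span ⟨z, rfl⟩)
          · have e1 : f (r * (o z - 1)) = f r * (f (o z) - 1) := by
              rw [map_mul, map_sub f, map_one f]
            rw [e1]
            show _ = f r (f (o z) m - m)
            rw [hfo]
        | zero => rw [map_zero]; exact AddSubgroup.zero_mem _
        | add a b _ _ ha hb => rw [map_add]; exact AddSubgroup.add_mem _ ha hb
        | neg a _ ha => rw [map_neg]; exact AddSubgroup.neg_mem _ ha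
      exact h1 _ (hI m)
    | zero => rw [map_zero]; exact AddSubgroup.zero_mem _
    | add a b _ _ ha hb => rw [map_add]; exact AddSubgroup.add_mem _ ha hb
    | neg a _ ha => rw [map_neg]; exact AddSubgroup.neg_mem _ ha
  have hall : ∀ j m, φ^[j] m ∈ T j := by
    intro j
    induction j with
    | zero =>
      intro m
      apply AddSubgroup.subset_closure
      exact ⟨1, by simp, m, by rw [map_one]; rfl⟩
    | succ j ih =>
      intro m
      rw [Function.iterate_succ_apply']
      exact hT j _ (ih m)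
  refine ⟨N, fun m => ?_⟩
  have h1 := hall N m
  have h2 : T N ≤ ⊥ := by
    rw [AddSubgroup.closure_le]
    rintro _ ⟨r, hr, m, rfl⟩
    rw [hker r hr]; rfl
  exact h2 h1

section

variable {G M : Type*} [Group G] [AddCommGroup M] [DistribMulAction G M] {π : G → M}

/-- The group `G` has full rank in the centre of the rational group. -/
structure Full (ι : G →* H6) (z1 z2 z3 x1 x2 x3 : G) : Prop where
  inj : Function.Injective ι
  hz1 : ι z1 = ⟨0, 0, 0, 1, 0, 0⟩
  hz2 : ι z2 = ⟨0, 0, 0, 0, 1, 0⟩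
  hz3 : ι z3 = ⟨0, 0, 0, 0, 0, 1⟩
  hx1 : ι x1 = ⟨1, 0, 0, 0, 0, 0⟩
  hx2 : ι x2 = ⟨0, 1, 0, 0, 0, 0⟩
  hx3 : ι x3 = ⟨0, 0, 1, 0, 0, 0⟩

theorem H6.scale_def (t : ℚ) (a b c x y z : ℚ) :
    H6.scale t ⟨a, b, c, x, y, z⟩ = ⟨t * a, t * b, t * c, t * x, t * y, t * z⟩ := rfl

theorem common_den (x y z : ℚ) : ∃ n : ℕ, n ≠ 0 ∧ ∃ a b c : ℤ,
    (n : ℚ) * x = a ∧ (n : ℚ) * y = b ∧ (n : ℚ) * z = c := by
  refine ⟨x.den * y.den * z.den, by simp, x.num * y.den * z.den, y.num * x.den * z.den,
    z.num * x.den * y.den, ?_, ?_, ?_⟩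
  · push_cast
    have := Rat.mul_den_eq_num x
    linear_combination (y.den : ℚ) * z.den * this
  · push_cast
    have := Rat.mul_den_eq_num y
    linear_combination (x.den : ℚ) * z.den * this
  · push_cast
    have := Rat.mul_den_eq_num z
    linear_combination (x.den : ℚ) * y.den * this

theorem Full.gen {ι : G →* H6} {z1 z2 z3 x1 x2 x3 : G} (h : Full ι z1 z2 z3 x1 x2 x3) (z : G)
    (hz : H6.uu (ι z) = 0) :
    ∃ n : ℕ, n ≠ 0 ∧ ∃ a b c : ℤ, z ^ n = z1 ^ a * z2 ^ b * z3 ^ c := by
  have e1 : (ι z).a = 0 := congrArg Prod.fst hz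
  have e2 : (ι z).b = 0 := congrArg (fun v => v.2.1) hz
  have e3 : (ι z).c = 0 := congrArg (fun v => v.2.2) hz
  obtain ⟨n, hn, a, b, c, ha, hb, hc⟩ := common_den (ι z).x (ι z).y (ι z).z
  refine ⟨n, hn, a, b, c, h.inj ?_⟩
  rw [map_mul, map_mul, map_zpow, map_zpow, map_zpow, map_pow, h.hz1, h.hz2, h.hz3, H6.pow_eq,
    H6.zpow_eq, H6.zpow_eq, H6.zpow_eq, H6.scale_def, H6.scale_def, H6.scale_def]
  ext <;> simp [H6.scale, e1, e2, e3, ha, hb, hc]

theorem Full.gen' {ι : G →* H6} {z1 z2 z3 x1 x2 x3 : G} (h : Full ι z1 z2 z3 x1 x2 x3) (g : G) :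
    ∃ n : ℕ, n ≠ 0 ∧ ∃ a b c : ℤ, ∃ z : G, H6.uu (ι z) = 0 ∧
      g ^ n = x1 ^ a * x2 ^ b * x3 ^ c * z := by
  obtain ⟨n, hn, a, b, c, ha, hb, hc⟩ := common_den (ι g).a (ι g).b (ι g).c
  refine ⟨n, hn, a, b, c, (x1 ^ a * x2 ^ b * x3 ^ c)⁻¹ * g ^ n, ?_, by group⟩
  simp only [map_mul, map_inv, map_zpow, map_pow, h.hx1, h.hx2, h.hx3, H6.pow_eq, H6.zpow_eq,
    H6.scale_def, H6.uu]
  simp [H6.scale, ha, hb, hc]

/-- every element of the group is unipotent -/
theorem unip (hπ : IsCoc π) {ι : G →* H6} {z1 z2 z3 x1 x2 x3 : G}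
    (h : Full ι z1 z2 z3 x1 x2 x3) (g : G) : ∃ N : ℕ, ∀ m : M, pe g (X ^ N) m = 0 := by
  classical
  obtain ⟨k, hk⟩ := unip_mod hπ ι h.inj g
  let Zc : Subgroup G :=
    { carrier := {z | H6.uu (ι z) = 0}
      mul_mem' := by
        intro a b ha hb
        simp only [Set.mem_ofPred_eq] at *
        rw [map_mul, H6.uu_mul, ha, hb, add_zero]
      one_mem' := by simp only [Set.mem_ofPred_eq, map_one]; rfl
      inv_mem' := by
        intro a ha
        simp only [Set.mem_ofPred_eq] at *
        have e1 : (ι a).a = 0 := congrArg Prod.fst ha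
        have e2 : (ι a).b = 0 := congrArg (fun v => v.2.1) ha
        have e3 : (ι a).c = 0 := congrArg (fun v => v.2.2) ha
        rw [map_inv]
        simp [H6.uu, e1, e2, e3] }
  letI : CommGroup Zc := { Zc.toGroup with
    mul_comm := fun a b => Subtype.ext (cen h.inj a.2 b.1) }
  let φ : M →+ M := (aeval (rr M g) (X ^ k : ℤ[X]) : AddMonoid.End M)
  have hφ : ∀ m, φ m = pe g (X ^ k) m := fun m => rfl
  have hz1 : z1 ∈ Zc := by show H6.uu (ι z1) = 0; rw [h.hz1]; rfl
  have hz2 : z2 ∈ Zc := by show H6.uu (ι z2) = 0; rw [h.hz2]; rfl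
  have hz3 : z3 ∈ Zc := by show H6.uu (ι z3) = 0; rw [h.hz3]; rfl
  have hpe : ∀ (z : Zc) (b : ℤ[X]) (m : M), pe z b m = pe (z : G) b m := fun z b m => rfl
  obtain ⟨N, hN⟩ := nilp_all (Z := Zc) (M := M)
    (fun n m hn hm => torsionfree hπ ι h.inj hn hm)
    (fun z => by
      obtain ⟨k, hk⟩ := central_nilp hπ ι h.inj z.1 z.2
      exact ⟨k, hk⟩) ⟨z1, hz1⟩ ⟨z2, hz2⟩ ⟨z3, hz3⟩
    (fun z => by
      obtain ⟨n, hn, a, b, c, e⟩ := h.gen z.1 z.2
      exact ⟨n, hn, a, b, c, Subtype.ext e⟩) φ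
    (fun z m => by
      rw [hφ, hφ]
      exact (pe_smul_comm (cen h.inj z.2 g) _ _).symm)
    (fun m => by
      have h1 := hk m
      rw [hφ]
      refine AddSubgroup.closure_mono ?_ h1
      rintro y ⟨z, hz, m, rfl⟩
      exact ⟨⟨z, hz⟩, m, rfl⟩)
  refine ⟨k * N, fun m => ?_⟩
  rw [← hN m]
  have : ∀ j, ∀ m, pe g (X ^ (k * j)) m = φ^[j] m := by
    intro j
    induction j with
    | zero => intro m; simp [pe_one]
    | succ j ih =>
      intro m
      rw [Function.iterate_succ_apply', ← ih, hφ, ← pe_mul, ← pow_add]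
      congr 2; ring
  exact this N m

end

end Pool.Agent.X276.Brace
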