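import Pool.Agent.X276.BraceDiv

set_option autoImplicit false

open Polynomial

namespace Pool.Agent.X276.Brace

section

variable {G M : Type*} [Group G] [AddCommGroup M] [DistribMulAction G M] {π : G → M}

theorem pow_mod (hπ : IsCoc π) {B : AddSubgroup M} (hB : St G B) {k : G}
    (h : k • π k - π k ∈ B) (r : ℕ) : π (k ^ r) - r • π k ∈ B := by
  obtain ⟨S, hS⟩ := Qp_eq r
  have h2 : pe k (X * S) (π k) ∈ B := by
    rw [mul_comm, pe_mul, pe_X]; exact pe_mem (hB k) S h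
  rw [hπ.map_pow, hS, pe_add, pe_natCast, add_sub_cancel_left]
  exact h2

theorem upper (hπ : IsCoc π) {ι : G →* H6} {z1 z2 z3 x1 x2 x3 : G}
    (hf : Full ι z1 z2 z3 x1 x2 x3) {p q : ℕ} (hp : p.Prime) (hq : q.Prime)
    (hC : ∀ g : G, Dv p g → Dv q g → H6.uu (ι g) = 0)
    (hR : ∀ g h : G, Dv p g → Dv q g → Dv p h → Dv q h → g ≠ 1 →
      ∃ n : ℕ, n ≠ 0 ∧ ∃ m : ℤ, h ^ n = g ^ m) {g : G} (h1 : π g ∈ Md M p)
    (h2 : π g ∈ Md M q) : (∀ h : G, h • π g = π g) ∧ Dv p g ∧ Dv q g := by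
  have htf : TF M := fun n m hn hm => torsionfree hπ ι hf.inj hn hm
  let D : AddSubgroup M := Md M p ⊓ Md M q
  have hDs : St G D := fun g m hm => ⟨Md_stable p g m hm.1, Md_stable q g m hm.2⟩
  have hDp : Pu D := fun n m hn hm =>
    ⟨Md_pure htf hp n m hn hm.1, Md_pure htf hq n m hn hm.2⟩
  let D1 : AddSubgroup M :=
    { carrier := {x | x ∈ D ∧ ∀ h : G, h • x = x}
      add_mem' := by
        rintro a b ⟨ha, ha'⟩ ⟨hb, hb'⟩
        exact ⟨D.add_mem ha hb, fun h => by rw [smul_add, ha', hb']⟩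
      zero_mem' := ⟨D.zero_mem, fun h => smul_zero _⟩
      neg_mem' := by
        rintro a ⟨ha, ha'⟩
        exact ⟨D.neg_mem ha, fun h => by rw [smul_neg, ha']⟩ }
  have hD1s : St G D1 := fun g m hm => by rw [hm.2 g]; exact hm
  have hD1p : Pu D1 := by
    intro n m hn hm
    refine ⟨hDp n m hn hm.1, fun h => ?_⟩
    apply htf.cancel hn
    rw [← smul_comm, hm.2 h]
  let D2 : AddSubgroup M :=
    { carrier := {x | x ∈ D ∧ ∀ h : G, h • x - x ∈ D1}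
      add_mem' := by
        rintro a b ⟨ha, ha'⟩ ⟨hb, hb'⟩
        refine ⟨D.add_mem ha hb, fun h => ?_⟩
        have : h • (a + b) - (a + b) = (h • a - a) + (h • b - b) := by rw [smul_add]; abel
        rw [this]; exact D1.add_mem (ha' h) (hb' h)
      zero_mem' := ⟨D.zero_mem, fun h => by rw [smul_zero, sub_self]; exact D1.zero_mem⟩
      neg_mem' := by
        rintro a ⟨ha, ha'⟩
        refine ⟨D.neg_mem ha, fun h => ?_⟩
        have : h • (-a) - -a = -(h • a - a) := by rw [smul_neg]; abel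
        rw [this]; exact D1.neg_mem (ha' h) }
  have hD12 : D1 ≤ D2 := by
    rintro x ⟨hx, hx'⟩
    refine ⟨hx, fun h => ?_⟩
    rw [hx' h, sub_self]; exact D1.zero_mem
  have hD2p : Pu D2 := by
    intro n m hn hm
    refine ⟨hDp n m hn hm.1, fun h => ?_⟩
    apply hD1p n _ hn
    rw [smul_sub, smul_comm n h m]
    exact hm.2 h
  -- roots in D1
  have root1 : ∀ r : ℕ, r ≠ 0 → (∀ x ∈ D, ∃ y : M, r • y = x) → ∀ g, π g ∈ D1 →
      ∃ l, π l ∈ D1 ∧ l ^ r = g := by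
    intro r hr hd g hg
    obtain ⟨y, hy⟩ := hd _ hg.1
    have hy1 : y ∈ D1 := hD1p r y hr (by rw [hy]; exact hg)
    obtain ⟨l, hl⟩ := hπ.ex y
    refine ⟨l, by rw [hl]; exact hy1, ?_⟩
    apply hπ.inj
    have h3 := pow_mod hπ (B := (⊥ : AddSubgroup M)) (k := l)
      (fun g m hm => by rw [AddSubgroup.mem_bot] at hm ⊢; rw [hm, smul_zero])
      (by rw [hl, hy1.2 l, sub_self]; exact AddSubgroup.zero_mem _) r
    rw [AddSubgroup.mem_bot, sub_eq_zero, hl, hy] at h3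
    exact h3
  have iter : ∀ (E : AddSubgroup M) (r : ℕ), (∀ g, π g ∈ E → ∃ l, π l ∈ E ∧ l ^ r = g) →
      ∀ g, π g ∈ E → Dv r g := by
    intro E r hE g hg k
    suffices h : ∃ l, π l ∈ E ∧ l ^ (r ^ k) = g from ⟨h.choose, h.choose_spec.2⟩
    induction k with
    | zero => exact ⟨g, hg, by rw [pow_zero, pow_one]⟩
    | succ k ih =>
      obtain ⟨l, hl, hl'⟩ := ih
      obtain ⟨l', h3, h4⟩ := hE l hl
      exact ⟨l', h3, by rw [pow_succ', pow_mul, h4, hl']⟩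
  have hdp : ∀ x ∈ D, ∃ y : M, p • y = x := fun x hx => by
    obtain ⟨y, hy⟩ := hx.1 1
    exact ⟨y, by rwa [pow_one] at hy⟩
  have hdq : ∀ x ∈ D, ∃ y : M, q • y = x := fun x hx => by
    obtain ⟨y, hy⟩ := hx.2 1
    exact ⟨y, by rwa [pow_one] at hy⟩
  have dv1 : ∀ g, π g ∈ D1 → Dv p g ∧ Dv q g := fun g hg =>
    ⟨iter D1 p (root1 p hp.ne_zero hdp) g hg, iter D1 q (root1 q hq.ne_zero hdq) g hg⟩
  have root2 : ∀ r : ℕ, r ≠ 0 → (∀ x ∈ D, ∃ y : M, r • y = x) → ∀ g, π g ∈ D2 →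
      ∃ l, π l ∈ D2 ∧ l ^ r = g := by
    intro r hr hd g hg
    obtain ⟨y, hy⟩ := hd _ hg.1
    have hy2 : y ∈ D2 := hD2p r y hr (by rw [hy]; exact hg)
    obtain ⟨k, hk⟩ := hπ.ex y
    have h3 := pow_mod hπ (B := D1) (k := k) hD1s (by rw [hk]; exact hy2.2 k) r
    rw [hk, hy] at h3
    have h4 : π ((k ^ r)⁻¹ * g) ∈ D1 := by
      have : π ((k ^ r)⁻¹ * g) = -((k ^ r)⁻¹ • (π (k ^ r) - π g)) := by
        rw [hπ.coc, hπ.map_inv, smul_sub]; abel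
      rw [this]; exact D1.neg_mem (hD1s _ _ h3)
    obtain ⟨l, hl, hl'⟩ := root1 r hr hd _ h4
    have hlz := dv1 l hl
    have hcen := cen hf.inj (hC l hlz.1 hlz.2) k
    refine ⟨k * l, ?_, ?_⟩
    · rw [hπ.coc, hl.2 k, hk]
      exact D2.add_mem hy2 (hD12 hl)
    · have : Commute k l := hcen.symm
      rw [this.mul_pow, hl', mul_inv_cancel_left]
  have dv2 : ∀ g, π g ∈ D2 → Dv p g ∧ Dv q g := fun g hg =>
    ⟨iter D2 p (root2 p hp.ne_zero hdp) g hg, iter D2 q (root2 q hq.ne_zero hdq) g hg⟩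
  -- the subgroup
  have hzp : ∀ l : G, π l ∈ D1 → ∀ m : ℤ, π (l ^ m) ∈ D1 := by
    let S : Subgroup G :=
      { carrier := {l | π l ∈ D1}
        mul_mem' := by
          intro a b ha hb
          show π (a * b) ∈ D1
          rw [hπ.coc]; exact D1.add_mem ha (hD1s _ _ hb)
        one_mem' := by
          show π 1 ∈ D1
          rw [hπ.map_one]; exact D1.zero_mem
        inv_mem' := by
          intro a ha
          show π a⁻¹ ∈ D1
          rw [hπ.map_inv]; exact D1.neg_mem (hD1s _ _ ha) }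
    exact fun l hl m => S.zpow_mem (x := l) hl m
  have all : ∀ x ∈ D, x ∈ D1 := by
    by_contra hcon
    push Not at hcon
    obtain ⟨x0, hx0, hx0'⟩ := hcon
    obtain ⟨x, hx, hxn, hxf⟩ := fixed hπ hf hD1s hDs hD1p ⟨x0, hx0, hx0'⟩
    obtain ⟨y, hy, hyn, hyf⟩ := fixed hπ hf (B := (⊥ : AddSubgroup M)) (D := D)
      (fun g m hm => by rw [AddSubgroup.mem_bot] at hm ⊢; rw [hm, smul_zero]) hDs
      (fun n m hn hm => by rw [AddSubgroup.mem_bot] at hm ⊢; exact htf n m hn hm)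
      ⟨x, hx, by
        rw [AddSubgroup.mem_bot]; rintro rfl; exact hxn D1.zero_mem⟩
    have hy1 : y ∈ D1 := ⟨hy, fun h => by
      have := hyf h
      rw [AddSubgroup.mem_bot, sub_eq_zero] at this; exact this⟩
    have hx2 : x ∈ D2 := ⟨hx, hxf⟩
    obtain ⟨h, hh⟩ := hπ.ex x
    obtain ⟨l, hl⟩ := hπ.ex y
    have hl1 : l ≠ 1 := by
      rintro rfl
      rw [hπ.map_one] at hl
      exact hyn (by rw [AddSubgroup.mem_bot, ← hl])
    have e1 := dv1 l (by rw [hl]; exact hy1)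
    have e2 := dv2 h (by rw [hh]; exact hx2)
    obtain ⟨n, hn, m, e⟩ := hR l h e1.1 e1.2 e2.1 e2.2 hl1
    have h5 : π (h ^ n) ∈ D1 := by rw [e]; exact hzp l (by rw [hl]; exact hy1) m
    have h6 := pow_mod hπ (B := D1) (k := h) hD1s (by rw [hh]; exact hxf h) n
    have h7 := D1.sub_mem h5 h6
    rw [sub_sub_cancel, hh] at h7
    exact hxn (hD1p n x hn h7)
  have hg := all (π g) ⟨h1, h2⟩
  exact ⟨hg.2, dv1 g hg⟩

/-- the line version -/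
theorem pair (hπ : IsCoc π) {ι : G →* H6} {z1 z2 z3 x1 x2 x3 : G}
    (hf : Full ι z1 z2 z3 x1 x2 x3) {p q : ℕ} (hp : p.Prime) (hq : q.Prime) (v : H6)
    (hv : H6.uu v = 0)
    (hL : ∀ g : G, Dv p g → Dv q g → ∃ t : ℚ, ι g = H6.scale t v) {g : G} (h1 : π g ∈ Md M p)
    (h2 : π g ∈ Md M q) : (∀ h : G, h • π g = π g) ∧ ∃ t : ℚ, ι g = H6.scale t v := by
  have e1 : v.a = 0 := congrArg Prod.fst hv
  have e2 : v.b = 0 := congrArg (fun v => v.2.1) hv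
  have e3 : v.c = 0 := congrArg (fun v => v.2.2) hv
  have key := upper hπ hf hp hq (fun g a b => by
      obtain ⟨t, ht⟩ := hL g a b
      rw [ht]; simp [H6.uu, H6.scale, e1, e2, e3])
    (fun g h a b c d hne => by
      obtain ⟨t, ht⟩ := hL g a b
      obtain ⟨s, hs⟩ := hL h c d
      have ht0 : t ≠ 0 := by
        rintro rfl
        apply hne
        apply hf.inj
        rw [ht, map_one]
        ext <;> simp [H6.scale]
      refine ⟨(s / t).den, (s / t).den_nz, (s / t).num, hf.inj ?_⟩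
      rw [map_pow, map_zpow, ht, hs, H6.pow_eq, H6.zpow_eq]
      have h3 : ((s / t).den : ℚ) * s = (s / t).num * t := by
        have h4 := Rat.mul_den_eq_num (s / t)
        have h5 : s = s / t * t := by field_simp
        calc ((s / t).den : ℚ) * s = ((s / t).den : ℚ) * (s / t * t) := by rw [← h5]
          _ = (s / t * (s / t).den) * t := by ring
          _ = (s / t).num * t := by rw [h4]
      ext <;> simp only [H6.scale] <;> rw [← mul_assoc, ← mul_assoc, h3]) h1 h2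
  exact ⟨key.1, hL g key.2.1 key.2.2⟩

/-- the arithmetic of the group -/
structure Arith (ι : G →* H6) (z1 z2 z3 x1 x2 x3 : G) (p1 p2 p3 p4 p5 p6 : ℕ) : Prop where
  pr1 : p1.Prime
  pr2 : p2.Prime
  pr3 : p3.Prime
  pr4 : p4.Prime
  pr5 : p5.Prime
  pr6 : p6.Prime
  d1x : Dv p1 x1
  d1y : Dv p1 z2
  d1z : Dv p1 z3
  d2x : Dv p2 x2
  d2y : Dv p2 z1
  d2z : Dv p2 z3
  d3x : Dv p3 x3
  d3y : Dv p3 z1
  d3z : Dv p3 z2
  d4 : Dv p4 (x2 * x3)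
  d5 : Dv p5 (x1 * x3)
  d6 : Dv p6 (x1 * x2)
  c1 : ∀ g, Dv p1 g → (ι g).b = 0 ∧ (ι g).c = 0 ∧ (ι g).x = 0
  c2 : ∀ g, Dv p2 g → (ι g).a = 0 ∧ (ι g).c = 0 ∧ (ι g).y = 0
  c3 : ∀ g, Dv p3 g → (ι g).a = 0 ∧ (ι g).b = 0 ∧ (ι g).z = 0
  c4 : ∀ g, Dv p4 g → (ι g).a = 0 ∧ (ι g).b = (ι g).c ∧ (ι g).y + (ι g).z = 0
  c5 : ∀ g, Dv p5 g → (ι g).b = 0 ∧ (ι g).a = (ι g).c ∧ (ι g).x + (ι g).z = 0
  c6 : ∀ g, Dv p6 g → (ι g).c = 0 ∧ (ι g).a = (ι g).b ∧ (ι g).x + (ι g).y = 0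
  half : ∀ g, ι g ≠ ⟨0, 0, 0, 0, 0, 1 / 2⟩

theorem rigid (hπ : IsCoc π) {ι : G →* H6} {z1 z2 z3 x1 x2 x3 : G}
    (hf : Full ι z1 z2 z3 x1 x2 x3) {p1 p2 p3 p4 p5 p6 : ℕ}
    (ha : Arith ι z1 z2 z3 x1 x2 x3 p1 p2 p3 p4 p5 p6) : False := by
  have htf : TF M := fun n m hn hm => torsionfree hπ ι hf.inj hn hm
  have L12 : ∀ g : G, Dv p1 g → Dv p2 g → ∃ t : ℚ, ι g = H6.scale t ⟨0, 0, 0, 0, 0, 1⟩ := by
    intro g h1 h2
    obtain ⟨a1, a2, a3⟩ := ha.c1 g h1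
    obtain ⟨b1, b2, b3⟩ := ha.c2 g h2
    exact ⟨(ι g).z, by ext <;> simp [H6.scale, *]⟩
  have L13 : ∀ g : G, Dv p1 g → Dv p3 g → ∃ t : ℚ, ι g = H6.scale t ⟨0, 0, 0, 0, 1, 0⟩ := by
    intro g h1 h2
    obtain ⟨a1, a2, a3⟩ := ha.c1 g h1
    obtain ⟨b1, b2, b3⟩ := ha.c3 g h2
    exact ⟨(ι g).y, by ext <;> simp [H6.scale, *]⟩
  have L23 : ∀ g : G, Dv p2 g → Dv p3 g → ∃ t : ℚ, ι g = H6.scale t ⟨0, 0, 0, 1, 0, 0⟩ := by
    intro g h1 h2
    obtain ⟨a1, a2, a3⟩ := ha.c2 g h1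
    obtain ⟨b1, b2, b3⟩ := ha.c3 g h2
    exact ⟨(ι g).x, by ext <;> simp [H6.scale, *]⟩
  have L14 : ∀ g : G, Dv p1 g → Dv p4 g → ∃ t : ℚ, ι g = H6.scale t ⟨0, 0, 0, 0, 1, -1⟩ := by
    intro g h1 h2
    obtain ⟨a1, a2, a3⟩ := ha.c1 g h1
    obtain ⟨b1, b2, b3⟩ := ha.c4 g h2
    refine ⟨(ι g).y, ?_⟩
    ext <;> simp [H6.scale, *]
    linarith
  have L25 : ∀ g : G, Dv p2 g → Dv p5 g → ∃ t : ℚ, ι g = H6.scale t ⟨0, 0, 0, 1, 0, -1⟩ := by
    intro g h1 h2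
    obtain ⟨a1, a2, a3⟩ := ha.c2 g h1
    obtain ⟨b1, b2, b3⟩ := ha.c5 g h2
    refine ⟨(ι g).x, ?_⟩
    ext <;> simp [H6.scale, *]
    linarith
  have L36 : ∀ g : G, Dv p6 g → Dv p3 g → ∃ t : ℚ, ι g = H6.scale t ⟨0, 0, 0, 1, -1, 0⟩ := by
    intro g h2 h1
    obtain ⟨a1, a2, a3⟩ := ha.c3 g h1
    obtain ⟨b1, b2, b3⟩ := ha.c6 g h2
    refine ⟨(ι g).x, ?_⟩
    ext <;> simp [H6.scale, *]
    linarith
  have pairlem : ∀ {p q : ℕ}, p.Prime → q.Prime → ∀ v : H6, H6.uu v = 0 →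
      (∀ g : G, Dv p g → Dv q g → ∃ t : ℚ, ι g = H6.scale t v) → ∀ g h : G, Dv p g → Dv q h →
      ∃ c : G, π c = g • π h - π h ∧ (∀ k : G, k • π c = π c) ∧ ∃ t : ℚ, ι c = H6.scale t v := by
    intro p q hp hq v hv hL g h hg hh
    obtain ⟨c, hc⟩ := hπ.ex (g • π h - π h)
    refine ⟨c, hc, ?_⟩
    apply pair hπ hf hp hq v hv hL
    · rw [hc]; exact lower1 hπ hf hp hg _
    · rw [hc]
      exact AddSubgroup.sub_mem _ (Md_stable q g _ (lower2 hπ hf hq hh)) (lower2 hπ hf hq hh)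
  -- the centre acts trivially
  have fixz : ∀ z : G, H6.uu (ι z) = 0 → (∀ h : G, h • π z = π z) → ∀ m : M, z • m = m := by
    intro z hz h m
    obtain ⟨g, rfl⟩ := hπ.ex m
    have := hπ.comm_id (cen hf.inj hz g)
    rw [h g, sub_self, sub_eq_zero] at this
    exact this
  have t1 : ∀ m : M, z1 • m = m := fixz z1 (by rw [hf.hz1]; rfl)
    (pair hπ hf ha.pr2 ha.pr3 _ (by rfl) L23 (lower2 hπ hf ha.pr2 ha.d2y)
      (lower2 hπ hf ha.pr3 ha.d3y)).1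
  have t2 : ∀ m : M, z2 • m = m := fixz z2 (by rw [hf.hz2]; rfl)
    (pair hπ hf ha.pr1 ha.pr3 _ (by rfl) L13 (lower2 hπ hf ha.pr1 ha.d1y)
      (lower2 hπ hf ha.pr3 ha.d3z)).1
  have t3 : ∀ m : M, z3 • m = m := fixz z3 (by rw [hf.hz3]; rfl)
    (pair hπ hf ha.pr1 ha.pr2 _ (by rfl) L12 (lower2 hπ hf ha.pr1 ha.d1z)
      (lower2 hπ hf ha.pr2 ha.d2z)).1
  have fz3 : ∀ h : G, h • π z3 = π z3 := (pair hπ hf ha.pr1 ha.pr2 _ (by rfl) L12
    (lower2 hπ hf ha.pr1 ha.d1z) (lower2 hπ hf ha.pr2 ha.d2z)).1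
  obtain ⟨c12, e12, f12, α, g12⟩ := pairlem ha.pr1 ha.pr2 _ (by rfl) L12 x1 x2 ha.d1x ha.d2x
  obtain ⟨c21, e21, f21, γ, g21⟩ := pairlem ha.pr2 ha.pr1 _ (by rfl)
    (fun g a b => L12 g b a) x2 x1 ha.d2x ha.d1x
  obtain ⟨c13, e13, f13, β, g13⟩ := pairlem ha.pr1 ha.pr3 _ (by rfl) L13 x1 x3 ha.d1x ha.d3x
  obtain ⟨c23, e23, f23, δ, g23⟩ := pairlem ha.pr2 ha.pr3 _ (by rfl) L23 x2 x3 ha.d2x ha.d3x
  obtain ⟨c14, e14, f14, r, g14⟩ := pairlem ha.pr1 ha.pr4 _ (by rfl) L14 x1 (x2 * x3) ha.d1x ha.d4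
  obtain ⟨c25, e25, f25, s, g25⟩ := pairlem ha.pr2 ha.pr5 _ (by rfl) L25 x2 (x1 * x3) ha.d2x ha.d5
  obtain ⟨c63, e63, f63, t, g63⟩ := pairlem ha.pr6 ha.pr3 _ (by rfl) L36 (x1 * x2) x3 ha.d6 ha.d3x
  have s23 : x2 • π x3 = π x3 + π c23 := by rw [e23]; abel
  have s13 : x1 • π x3 = π x3 + π c13 := by rw [e13]; abel
  have s12 : x1 • π x2 = π x2 + π c12 := by rw [e12]; abel
  have s21 : x2 • π x1 = π x1 + π c21 := by rw [e21]; abel
  have r1 : c14 = c12 * c13 := by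
    apply hπ.inj
    rw [e14, hπ.coc, hπ.coc, f13, s23, smul_add, smul_add, s12, s13, f23]
    abel
  have r2 : c25 = c21 * c23 := by
    apply hπ.inj
    rw [e25, hπ.coc, hπ.coc, f23, s13, smul_add, smul_add, s21, s23, f13]
    abel
  have r3 : c63 = c13 * c23 := by
    apply hπ.inj
    rw [e63, hπ.coc, f23, mul_smul, s23, smul_add, s13, f23]
    abel
  have r4 : c12 = z3 * c21 := by
    have h1 : x1 * x2 = z3 * (x2 * x1) := by
      apply hf.inj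
      rw [map_mul, map_mul, map_mul, hf.hx1, hf.hx2, hf.hz3]
      ext <;> simp
      norm_num
    have h2 := congrArg π h1
    rw [hπ.coc, hπ.coc, hπ.coc, t3, s12, s21] at h2
    apply hπ.inj
    rw [hπ.coc, t3]
    have h3 : π c12 = (π x1 + (π x2 + π c12)) - π x1 - π x2 := by abel
    rw [h3, h2]; abel
  have q1 := congrArg ι r1
  have q2 := congrArg ι r2
  have q3 := congrArg ι r3
  have q4 := congrArg ι r4
  rw [map_mul, g14, g12, g13] at q1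
  rw [map_mul, g25, g21, g23] at q2
  rw [map_mul, g63, g13, g23] at q3
  rw [map_mul, g12, g21, hf.hz3] at q4
  have w1 := congrArg H6.y q1
  have w2 := congrArg H6.z q1
  have w3 := congrArg H6.x q2
  have w4 := congrArg H6.z q2
  have w5 := congrArg H6.x q3
  have w6 := congrArg H6.y q3
  have w7 := congrArg H6.z q4
  simp [H6.scale] at w1 w2 w3 w4 w5 w6 w7
  apply ha.half c12
  rw [g12]
  have : α = 1 / 2 := by linarith
  rw [this]
  ext <;> simp [H6.scale]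

end

end Pool.Agent.X276.Brace
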