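import Pool.Agent.X276.BraceCoc

set_option autoImplicit false

open Polynomial

namespace Pool.Agent.X276.Brace

section

variable {G M : Type*} [Group G] [AddCommGroup M] [DistribMulAction G M] {π : G → M}

theorem cen {ι : G →* H6} (hι : Function.Injective ι) {z : G} (hz : H6.uu (ι z) = 0) (g : G) :
    z * g = g * z := by
  have h9 := H6.central hz (ι g)
  rw [← map_mul, ← map_mul] at h9
  exact hι h9

/-- central elements are unipotent -/
theorem central_nilp (hπ : IsCoc π) (ι : G →* H6) (hι : Function.Injective ι) (z : G)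
    (hz : H6.uu (ι z) = 0) : ∃ k : ℕ, ∀ m : M, pe z (X ^ k) m = 0 := by
  obtain ⟨k, hk⟩ := A1 hπ ι hι z (fun g _ _ => (cen hι hz g).symm)
  refine ⟨k + 1, fun m => ?_⟩
  obtain ⟨g, rfl⟩ := hπ.ex m
  rw [pe_pow_succ, hπ.comm_id (cen hι hz g), pe_map_sub, hk, sub_zero,
    ← pe_smul_comm (cen hι hz g).symm, hk, smul_zero]

/-- the subgroup generated by the `(z - 1) m`, `z` in the centre -/
def I1 (M : Type*) [AddCommGroup M] [DistribMulAction G M] (ι : G →* H6) : AddSubgroup M :=
  AddSubgroup.closure {y | ∃ z : G, H6.uu (ι z) = 0 ∧ ∃ m : M, y = z • m - m}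

/-- the subgroup generated by the `(z - 1) m` and the `π z`, `z` in the centre -/
def W1 (π : G → M) (ι : G →* H6) : AddSubgroup M :=
  AddSubgroup.closure ({y | ∃ z : G, H6.uu (ι z) = 0 ∧ ∃ m : M, y = z • m - m} ∪
    {y | ∃ z : G, H6.uu (ι z) = 0 ∧ y = π z})

theorem I1_le (ι : G →* H6) : I1 M ι ≤ W1 π ι := AddSubgroup.closure_mono Set.subset_union_left

theorem I1_stable {ι : G →* H6} (hι : Function.Injective ι) (g : G) :
    ∀ m ∈ I1 M ι, g • m ∈ I1 M ι := by
  intro m hm
  induction hm using AddSubgroup.closure_induction with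
  | mem x hx =>
    obtain ⟨z, hz, m, rfl⟩ := hx
    apply AddSubgroup.subset_closure
    refine ⟨z, hz, g • m, ?_⟩
    rw [smul_sub, ← mul_smul, ← mul_smul, cen hι hz]
  | zero => rw [smul_zero]; exact AddSubgroup.zero_mem _
  | add x y _ _ hx hy => rw [smul_add]; exact AddSubgroup.add_mem _ hx hy
  | neg x _ hx => rw [smul_neg]; exact AddSubgroup.neg_mem _ hx

/-- `(g - 1) W ⊆ I` -/
theorem W1_to_I1 (hπ : IsCoc π) {ι : G →* H6} (hι : Function.Injective ι) (g : G) :
    ∀ m ∈ W1 π ι, g • m - m ∈ I1 M ι := by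
  intro m hm
  induction hm using AddSubgroup.closure_induction with
  | mem x hx =>
    rcases hx with ⟨z, hz, m, rfl⟩ | ⟨z, hz, rfl⟩
    · apply AddSubgroup.subset_closure
      refine ⟨z, hz, g • m - m, ?_⟩
      rw [smul_sub, smul_sub, ← mul_smul, ← mul_smul, cen hι hz]; abel
    · apply AddSubgroup.subset_closure
      refine ⟨z, hz, π g, ?_⟩
      exact hπ.comm_id (cen hι hz g).symm
  | zero => rw [smul_zero, sub_self]; exact AddSubgroup.zero_mem _
  | add x y _ _ hx hy =>
    rw [smul_add]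
    have : g • x + g • y - (x + y) = (g • x - x) + (g • y - y) := by abel
    rw [this]; exact AddSubgroup.add_mem _ hx hy
  | neg x _ hx =>
    rw [smul_neg]
    have : -(g • x) - -x = -(g • x - x) := by abel
    rw [this]; exact AddSubgroup.neg_mem _ hx

theorem W1_stable (hπ : IsCoc π) {ι : G →* H6} (hι : Function.Injective ι) (g : G) :
    ∀ m ∈ W1 π ι, g • m ∈ W1 π ι := by
  intro m hm
  have h1 := I1_le (π := π) ι (W1_to_I1 hπ hι g m hm)
  have := AddSubgroup.add_mem _ h1 hm
  simpa using this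

/-- commutation modulo `I` -/
theorem comm_mod {ι : G →* H6} (g h : G) (m : M) : h • g • m - g • h • m ∈ I1 M ι := by
  apply AddSubgroup.subset_closure
  refine ⟨h * g * h⁻¹ * g⁻¹, ?_, g • h • m, ?_⟩
  · simp only [map_mul, map_inv]
    exact H6.uu_comm _ _
  · rw [← mul_smul, ← mul_smul, ← mul_smul]
    congr 2
    group

/-- symmetric identity modulo `W` -/
theorem sym_mod (hπ : IsCoc π) {ι : G →* H6} (g h : G) :
    (g • π h - π h) - (h • π g - π g) ∈ W1 π ι := by
  have hc : H6.uu (ι (g * h * g⁻¹ * h⁻¹)) = 0 := by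
    simp only [map_mul, map_inv]
    exact H6.uu_comm _ _
  have h1 : π (g * h) = π (g * h * g⁻¹ * h⁻¹) + (g * h * g⁻¹ * h⁻¹) • π (h * g) := by
    rw [← hπ.coc]; congr 1; group
  have h2 : (g • π h - π h) - (h • π g - π g) =
      π (g * h * g⁻¹ * h⁻¹) + ((g * h * g⁻¹ * h⁻¹) • π (h * g) - π (h * g)) := by
    have h3 := hπ.coc g h
    have h4 := hπ.coc h g
    have h5 : π (g * h * g⁻¹ * h⁻¹) + ((g * h * g⁻¹ * h⁻¹) • π (h * g) - π (h * g)) =
      π (g * h) - π (h * g) := by rw [h1]; abel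
    rw [h5, h3, h4]; abel
  rw [h2]
  exact AddSubgroup.add_mem _ (AddSubgroup.subset_closure (Or.inr ⟨_, hc, rfl⟩))
    (AddSubgroup.subset_closure (Or.inl ⟨_, hc, _, rfl⟩))

/-- every group element is unipotent modulo `I` -/
theorem unip_mod (hπ : IsCoc π) (ι : G →* H6) (hι : Function.Injective ι) (g : G) :
    ∃ k : ℕ, ∀ m : M, pe g (X ^ k) m ∈ I1 M ι := by
  have hst := fun h => W1_stable hπ hι h
  let J : Ideal ℤ[X] :=
    { carrier := {b | pe g b (π g) ∈ W1 π ι}
      add_mem' := by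
        intro a b ha hb
        simp only [Set.mem_ofPred_eq] at *
        rw [pe_add]; exact AddSubgroup.add_mem _ ha hb
      zero_mem' := by
        simp only [Set.mem_ofPred_eq]
        rw [pe_zero']; exact AddSubgroup.zero_mem _
      smul_mem' := by
        intro c b hb
        simp only [Set.mem_ofPred_eq, smul_eq_mul] at *
        rw [pe_mul]; exact pe_mem (hst g) c hb }
  have hJ : ∀ b, b ∈ J ↔ pe g b (π g) ∈ W1 π ι := fun b => Iff.rfl
  have hex : ∀ b : ℤ[X], ∃ h : G, ∀ c : ℤ[X], h • pe g c (π g) - pe g ((1 + X * b) * c) (π g) ∈ W1 π ι := by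
    intro b
    obtain ⟨h, hh⟩ := hπ.ex (pe g b (π g))
    refine ⟨h, fun c => ?_⟩
    have h1 := pe_smul_mod (g := g) (h := h) (B := W1 π ι) (hst g)
      (fun m => I1_le ι (comm_mod g h m)) c (π g)
    have h2 := sym_mod hπ (ι := ι) g h
    have h3 : h • π g - pe g (1 + X * b) (π g) ∈ W1 π ι := by
      have : h • π g - pe g (1 + X * b) (π g) = -((g • π h - π h) - (h • π g - π g)) := by
        rw [pe_add, pe_one, pe_mul, pe_X, ← hh]; abel
      rw [this]; exact AddSubgroup.neg_mem _ h2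
    have h4 := pe_mem (hst g) c h3
    rw [pe_map_sub, ← pe_mul] at h4
    have := AddSubgroup.add_mem _ h1 h4
    rw [mul_comm (1 + X * b) c]
    simpa using this
  obtain ⟨k, hk⟩ := A0 J
    (fun f w => ∃ h : G, H6.uu (ι h) = w ∧ ∀ c : ℤ[X], h • pe g c (π g) - pe g (f * c) (π g) ∈ W1 π ι)
    ⟨1, by rw [map_one]; rfl, fun c => by
      rw [one_mul, one_smul, sub_self]; exact AddSubgroup.zero_mem _⟩
    (by
      rintro f w f' w' ⟨h, rfl, hh⟩ ⟨h', rfl, hh'⟩
      refine ⟨h * h', by rw [map_mul, H6.uu_mul], fun c => ?_⟩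
      have h1 := hst h _ (hh' c)
      have h2 := hh (f' * c)
      have := AddSubgroup.add_mem _ h1 h2
      rw [smul_sub, ← mul_smul] at this
      rw [mul_assoc]
      simpa using this)
    (by
      rintro f f' w ⟨h, hw, hh⟩ ⟨h', hw', hh'⟩
      rw [hJ, pe_sub]
      have h1 := hh 1
      have h2 := hh' 1
      rw [mul_one, pe_one] at h1 h2
      have h3 : h • π g - h' • π g ∈ W1 π ι := by
        apply AddSubgroup.subset_closure
        left
        refine ⟨h * h'⁻¹, ?_, h' • π g, ?_⟩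
        · rw [map_mul, map_inv]
          exact H6.uu_quot (hw.trans hw'.symm)
        · rw [← mul_smul]; simp
      have h4 := AddSubgroup.add_mem _ (AddSubgroup.sub_mem _ h2 h1) h3
      have : pe g f (π g) - pe g f' (π g) =
        h' • π g - pe g f' (π g) - (h • π g - pe g f (π g)) + (h • π g - h' • π g) := by abel
      rw [this]; exact h4)
    (by
      intro b
      obtain ⟨h, hh⟩ := hex b
      exact ⟨_, h, rfl, hh⟩)
    (by
      intro b c hbc
      rw [hJ] at hbc ⊢
      obtain ⟨h, hh⟩ := hex b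
      have h1 := AddSubgroup.add_mem _ (hh c) hbc
      rw [sub_add_cancel] at h1
      have h2 := hst h⁻¹ _ h1
      rwa [inv_smul_smul] at h2)
  rw [hJ] at hk
  refine ⟨k + 1 + 1, fun m => ?_⟩
  obtain ⟨h, rfl⟩ := hπ.ex m
  have h1 : pe g (X ^ (k + 1)) (π h) ∈ W1 π ι := by
    rw [pe_pow_succ]
    have h2 := pe_mem (hst g) (X ^ k) (sym_mod hπ (ι := ι) g h)
    rw [pe_map_sub, pe_map_sub _ _ (h • π g)] at h2
    have h3 := pe_smul_mod (g := g) (h := h) (B := W1 π ι) (hst g)
      (fun m => I1_le ι (comm_mod g h m)) (X ^ k) (π g)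
    have h4 := hst h _ hk
    have h5 := AddSubgroup.add_mem _ h2
      (AddSubgroup.sub_mem _ (AddSubgroup.sub_mem _ h4 h3) hk)
    have h6 : pe g (X ^ k) (g • π h - π h) = pe g (X ^ k) (g • π h - π h) -
        (pe g (X ^ k) (h • π g) - pe g (X ^ k) (π g)) +
        (h • pe g (X ^ k) (π g) - (h • pe g (X ^ k) (π g) - pe g (X ^ k) (h • π g)) -
          pe g (X ^ k) (π g)) := by abel
    rw [h6]; exact h5
  rw [pow_succ', pe_mul, pe_X]
  exact W1_to_I1 hπ hι g _ h1

end

end Pool.Agent.X276.Brace
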