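import Mathlib

set_option autoImplicit false

universe w v u t

open CategoryTheory CategoryTheory.Limits HomologicalComplex

noncomputable section

namespace Pool.Agent.X276.Derived

variable {A : Type u} [Category.{v} A] [Abelian A] {J : Type t} [HasColimitsOfShape (Discrete J) A]

/-- a family of complexes as a complex of families -/
def fam (X : J → CochainComplex A ℤ) : HomologicalComplex (Discrete J ⥤ A) (ComplexShape.up ℤ) where
  X i := Discrete.functor fun j => (X j).X i
  d i i' := Discrete.natTrans fun j => (X j.as).d i i'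
  shape i i' h := by
    ext ⟨j⟩
    exact (X j).shape i i' h
  d_comp_d' i i' i'' _ _ := by
    ext ⟨j⟩
    exact (X j).d_comp_d i i' i''

/-- maps of families -/
def famMap {X Y : J → CochainComplex A ℤ} (f : ∀ j, X j ⟶ Y j) : fam X ⟶ fam Y where
  f i := Discrete.natTrans fun j => (f j.as).f i
  comm' i i' _ := by
    ext ⟨j⟩
    exact (f j).comm i i'

omit [HasColimitsOfShape (Discrete J) A] in
theorem famMap_quasiIso {X Y : J → CochainComplex A ℤ} (f : ∀ j, X j ⟶ Y j)
    (hf : ∀ j, QuasiIso (f j)) : QuasiIso (famMap f) := by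
  rw [quasiIso_iff_evaluation]
  rintro ⟨j⟩
  exact hf j

/-- the direct sum of complexes -/
def sumC (X : J → CochainComplex A ℤ) : CochainComplex A ℤ :=
  ((colim : (Discrete J ⥤ A) ⥤ A).mapHomologicalComplex (ComplexShape.up ℤ)).obj (fam X)

/-- the inclusions -/
def inc (X : J → CochainComplex A ℤ) (j : J) : X j ⟶ sumC X where
  f i := colimit.ι (Discrete.functor fun j => (X j).X i) ⟨j⟩
  comm' i i' _ := by
    have := ι_colimMap ((fam X).d i i') ⟨j⟩
    exact this

theorem hom_ext_f {X : J → CochainComplex A ℤ} {i : ℤ} {Z : A} {f g : (sumC X).X i ⟶ Z}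
    (h : ∀ j, (inc X j).f i ≫ f = (inc X j).f i ≫ g) : f = g :=
  colimit.hom_ext (fun ⟨j⟩ => h j)

/-- the map out of a component of the direct sum -/
def descf (X : J → CochainComplex A ℤ) (i : ℤ) {Z : A} (f : ∀ j, (X j).X i ⟶ Z) :
    (sumC X).X i ⟶ Z :=
  colimit.desc (Discrete.functor fun j => (X j).X i) (Cofan.mk Z f)

theorem inc_descf (X : J → CochainComplex A ℤ) (i : ℤ) {Z : A} (f : ∀ j, (X j).X i ⟶ Z) (j : J) :
    (inc X j).f i ≫ descf X i f = f j :=
  colimit.ι_desc _ _

/-- the map out of the direct sum -/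
def desc {X : J → CochainComplex A ℤ} {Y : CochainComplex A ℤ} (f : ∀ j, X j ⟶ Y) :
    sumC X ⟶ Y where
  f i := descf X i fun j => (f j).f i
  comm' i i' _ := by
    apply hom_ext_f
    intro j
    rw [← Category.assoc, inc_descf, (f j).comm i i', ← Category.assoc,
      (inc X j).comm i i', Category.assoc, inc_descf]

theorem inc_desc {X : J → CochainComplex A ℤ} {Y : CochainComplex A ℤ} (f : ∀ j, X j ⟶ Y) (j : J) :
    inc X j ≫ desc f = f j := by
  ext i
  exact inc_descf X i _ j

theorem hom_ext' {X : J → CochainComplex A ℤ} {Y : CochainComplex A ℤ} {f g : sumC X ⟶ Y}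
    (h : ∀ j, inc X j ≫ f = inc X j ≫ g) : f = g := by
  ext i
  apply hom_ext_f
  intro j
  exact congrArg (fun a => HomologicalComplex.Hom.f a i) (h j)

/-- the functoriality of direct sums -/
def sumMap {X Y : J → CochainComplex A ℤ} (f : ∀ j, X j ⟶ Y j) : sumC X ⟶ sumC Y :=
  ((colim : (Discrete J ⥤ A) ⥤ A).mapHomologicalComplex (ComplexShape.up ℤ)).map (famMap f)

theorem inc_sumMap {X Y : J → CochainComplex A ℤ} (f : ∀ j, X j ⟶ Y j) (j : J) :
    inc X j ≫ sumMap f = f j ≫ inc Y j := by
  ext i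
  exact ι_colimMap ((famMap f).f i) ⟨j⟩

theorem sumMap_quasiIso [HasExactColimitsOfShape (Discrete J) A]
    {X Y : J → CochainComplex A ℤ} (f : ∀ j, X j ⟶ Y j)
    (hf : ∀ j, QuasiIso (f j)) : QuasiIso (sumMap f) := by
  have := famMap_quasiIso f hf
  have h1 : (colim : (Discrete J ⥤ A) ⥤ A).PreservesHomology :=
    { preservesKernels := fun _ _ f => inferInstance
      preservesCokernels := fun _ _ f => inferInstance }
  unfold sumMap
  exact quasiIso_map_of_preservesHomology _ _


section derived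

variable [HasExactColimitsOfShape (Discrete J) A] [HasDerivedCategory.{w} A]

open DerivedCategory

theorem exists_desc {X : J → CochainComplex A ℤ} {Y : CochainComplex A ℤ}
    (f : ∀ j, Q.obj (X j) ⟶ Q.obj Y) :
    ∃ F : Q.obj (sumC X) ⟶ Q.obj Y, ∀ j, Q.map (inc X j) ≫ F = f j := by
  choose X' s hs g hfg using fun j => DerivedCategory.right_fac (f j)
  have hS : QuasiIso (sumMap s) := sumMap_quasiIso s fun j => by
    rw [← isIso_Q_map_iff_quasiIso]
    exact hs j
  refine ⟨inv (Q.map (sumMap s)) ≫ Q.map (desc g), fun j => ?_⟩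
  have h1 : Q.map (inc X' j) ≫ Q.map (sumMap s) = Q.map (s j) ≫ Q.map (inc X j) := by
    rw [← Q.map_comp, ← Q.map_comp, inc_sumMap]
  have := hs j
  rw [hfg j, IsIso.eq_inv_comp, ← Category.assoc, ← h1, Category.assoc, IsIso.hom_inv_id_assoc,
    ← Q.map_comp, inc_desc]

theorem exists_precomp {X Y : CochainComplex A ℤ} (h : X ⟶ Y) (h0 : Q.map h = 0) :
    ∃ (X' : CochainComplex A ℤ) (t : X' ⟶ X), QuasiIso t ∧ Nonempty (Homotopy (t ≫ h) 0) := by
  have h1 : Qh.map ((HomotopyCategory.quotient A (ComplexShape.up ℤ)).map h) =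
      Qh.map ((HomotopyCategory.quotient A (ComplexShape.up ℤ)).map 0) := by
    have h2 := quotientCompQhIso_hom_naturality h
    rw [h0, comp_zero] at h2
    rw [Functor.map_zero, Functor.map_zero]
    rw [← cancel_mono ((quotientCompQhIso A).hom.app Y), h2, zero_comp]
  rw [MorphismProperty.map_eq_iff_precomp Qh
    (HomotopyCategory.quasiIso A (ComplexShape.up ℤ))] at h1
  obtain ⟨X', t, ht, h2⟩ := h1
  obtain ⟨X', rfl⟩ := HomotopyCategory.quotient_obj_surjective X'
  obtain ⟨t, rfl⟩ := (HomotopyCategory.quotient _ _).map_surjective t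
  rw [← isIso_Qh_map_iff] at ht
  refine ⟨X', t, ?_, ?_⟩
  · rw [← isIso_Q_map_iff_quasiIso]
    exact ht
  · rw [← Functor.map_comp, ← Functor.map_comp, comp_zero] at h2
    exact ⟨HomotopyCategory.homotopyOfEq _ _ h2⟩

/-- homotopies can be combined -/
def sumHomotopy {X : J → CochainComplex A ℤ} {Y : CochainComplex A ℤ} (f : sumC X ⟶ Y)
    (H : ∀ j, Homotopy (inc X j ≫ f) 0) : Homotopy f 0 where
  hom i i' := descf X i fun j => (H j).hom i i'
  zero i i' hi := by
    apply hom_ext_f
    intro j
    rw [inc_descf, comp_zero, (H j).zero i i' hi]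
  comm i := by
    apply hom_ext_f
    intro j
    have h1 := (H j).comm i
    rw [HomologicalComplex.comp_f] at h1
    rw [h1, dNext_eq _ (show (ComplexShape.up ℤ).Rel i (i + 1) from rfl),
      prevD_eq _ (show (ComplexShape.up ℤ).Rel (i - 1) i by simp),
      dNext_eq _ (show (ComplexShape.up ℤ).Rel i (i + 1) from rfl),
      prevD_eq _ (show (ComplexShape.up ℤ).Rel (i - 1) i by simp)]
    rw [HomologicalComplex.zero_f, HomologicalComplex.zero_f, add_zero, add_zero,
      Preadditive.comp_add, ← Category.assoc, ← Category.assoc, (inc X j).comm, inc_descf,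
      Category.assoc, inc_descf]

theorem eq_zero_of {X : J → CochainComplex A ℤ} {Y : CochainComplex A ℤ}
    (F : Q.obj (sumC X) ⟶ Q.obj Y) (h : ∀ j, Q.map (inc X j) ≫ F = 0) : F = 0 := by
  obtain ⟨Y', g, s, hs, rfl⟩ := left_fac F
  have h1 : ∀ j, Q.map (inc X j ≫ g) = 0 := by
    intro j
    have h2 := h j
    rw [← Category.assoc, ← Q.map_comp] at h2
    rw [← cancel_mono (inv (Q.map s)), h2, zero_comp]
  choose X' t ht H using fun j => exists_precomp (inc X j ≫ g) (h1 j)
  have hT : QuasiIso (sumMap t) := sumMap_quasiIso t ht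
  have H2 : Homotopy (sumMap t ≫ g) 0 := sumHomotopy _ fun j => by
    have H3 := (H j).some
    have h4 : inc X' j ≫ sumMap t ≫ g = t j ≫ inc X j ≫ g := by
      rw [← Category.assoc, inc_sumMap, Category.assoc]
    rw [h4]
    exact H3
  have h5 : Q.map (sumMap t ≫ g) = 0 := by
    have h6 := (HomotopyCategory.eq_of_homotopy _ _ H2)
    have h7 := quotientCompQhIso_hom_naturality (sumMap t ≫ g)
    rw [h6, Functor.map_zero, Functor.map_zero, zero_comp] at h7
    rw [← cancel_epi ((quotientCompQhIso A).hom.app _), ← h7, comp_zero]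
  rw [Q.map_comp] at h5
  have h6 : Q.map g = 0 := by
    rw [← cancel_epi (Q.map (sumMap t)), h5, comp_zero]
  rw [h6, zero_comp]

/-- direct sums of complexes are coproducts in the derived category -/
def isColimitQ (X : J → CochainComplex A ℤ) :
    IsColimit (Cofan.mk (Q.obj (sumC X)) fun j => Q.map (inc X j) :
      Cofan fun j => (Q.obj (X j) : DerivedCategory A)) := by
  refine Cofan.IsColimit.mk _ (fun t => ?_) (fun t j => ?_) (fun t m hm => ?_)
  · let Y := Q.objPreimage t.pt
    let e : Q.obj Y ≅ t.pt := Q.objObjPreimageIso t.pt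
    exact (exists_desc (Y := Y) fun j => t.inj j ≫ e.inv).choose ≫ e.hom
  · let Y := Q.objPreimage t.pt
    let e : Q.obj Y ≅ t.pt := Q.objObjPreimageIso t.pt
    have h := (exists_desc (Y := Y) fun j => t.inj j ≫ e.inv).choose_spec j
    change Q.map (inc X j) ≫ (exists_desc (Y := Y) fun j => t.inj j ≫ e.inv).choose ≫ e.hom = _
    rw [← Category.assoc, h, Category.assoc, e.inv_hom_id, Category.comp_id]
  · let Y := Q.objPreimage t.pt
    let e : Q.obj Y ≅ t.pt := Q.objObjPreimageIso t.pt
    have h := (exists_desc (Y := Y) fun j => t.inj j ≫ e.inv).choose_spec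
    change m = (exists_desc (Y := Y) fun j => t.inj j ≫ e.inv).choose ≫ e.hom
    rw [← Iso.comp_inv_eq]
    rw [← sub_eq_zero]
    apply eq_zero_of
    intro j
    rw [Preadditive.comp_sub, h j, ← Category.assoc]
    have := hm j
    change Q.map (inc X j) ≫ m = t.inj j at this
    rw [this, sub_self]

end derived

end Pool.Agent.X276.Derived
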