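import Mathlib

/-!
# The local criterion of flatness, for a local homomorphism of noetherian local rings
-/

set_option autoImplicit false

universe u

namespace Pool.Agent.X276.Fl

open TensorProduct IsLocalRing

/-- `Tor_1(B, A/J) = 0`, i.e. `B ⊗ J → B ⊗ A` is injective. -/
def TJ (A B : Type u) [CommRing A] [CommRing B] [Algebra A B] (J : Ideal A) : Prop :=
  Function.Injective (LinearMap.lTensor B (J.subtype : J →ₗ[A] A))

section push

variable {A B : Type u} [CommRing A] [CommRing B] [Algebra A B]

theorem pushout {J : Ideal A} (hJ : TJ A B J) {K G : Type u} [AddCommGroup K] [Module A K]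
    [AddCommGroup G] [Module A G] (f : K →ₗ[A] G) (hf : Function.Injective f) (g : G)
    (hg : ∀ y : G, ∃ (k : K) (a : A), y = f k + a • g)
    (h1 : ∀ a ∈ J, ∃ k : K, f k = a • g) (h2 : ∀ (a : A) (k : K), f k = a • g → a ∈ J) :
    Function.Injective (LinearMap.lTensor B f) := by
  -- the map `j ↦ j • g` into `K`
  choose! φ hφ using h1
  let φ' : J →ₗ[A] K :=
    { toFun := fun j => φ j
      map_add' := by
        intro a b
        apply hf
        rw [map_add, hφ a a.2, hφ b b.2]
        have := hφ (a + b : J) (a + b : J).2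
        rw [this, Submodule.coe_add, add_smul]
      map_smul' := by
        intro r a
        apply hf
        rw [RingHom.id_apply, map_smul, hφ a a.2]
        have := hφ (r • a : J) (r • a : J).2
        rw [this, Submodule.coe_smul, smul_assoc] }
  have hφ' : ∀ j : J, f (φ' j) = (j : A) • g := fun j => hφ j j.2
  let α : J →ₗ[A] K × A := LinearMap.prod (-φ') J.subtype
  let β : K × A →ₗ[A] G := LinearMap.coprod f (LinearMap.toSpanSingleton A G g)
  have hex : Function.Exact α β := by
    rintro ⟨k, a⟩
    constructor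
    · intro h
      have h3 : f k + a • g = 0 := h
      have h4 : f (-k) = a • g := by
        rw [map_neg]
        exact neg_eq_of_add_eq_zero_right h3
      have ha : a ∈ J := h2 a (-k) h4
      refine ⟨⟨a, ha⟩, ?_⟩
      refine Prod.ext ?_ rfl
      change - φ' ⟨a, ha⟩ = k
      have h5 : φ' ⟨a, ha⟩ = -k := hf ((hφ' ⟨a, ha⟩).trans h4.symm)
      rw [h5, neg_neg]
    · rintro ⟨j, hj⟩
      rw [← hj]
      change f (-φ' j) + (j : A) • g = 0
      rw [map_neg, hφ', neg_add_cancel]
  have hβ : Function.Surjective β := by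
    intro y
    obtain ⟨k, a, rfl⟩ := hg y
    exact ⟨(k, a), rfl⟩
  have hT := lTensor_exact B hex hβ
  rw [injective_iff_map_eq_zero]
  intro w hw
  have e1 : LinearMap.lTensor B β (LinearMap.lTensor B (LinearMap.inl A K A) w) = 0 := by
    rw [← LinearMap.lTensor_comp_apply]
    have : β ∘ₗ LinearMap.inl A K A = f := LinearMap.coprod_inl f _
    rw [this, hw]
  obtain ⟨t, ht⟩ := (hT _).1 e1
  have e2 : LinearMap.lTensor B (J.subtype : J →ₗ[A] A) t = 0 := by
    have e3 := congrArg (LinearMap.lTensor B (LinearMap.snd A K A)) ht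
    rw [← LinearMap.lTensor_comp_apply, ← LinearMap.lTensor_comp_apply, LinearMap.snd_comp_inl,
      LinearMap.lTensor_zero, LinearMap.zero_apply] at e3
    exact e3
  have e4 : t = 0 := hJ (by rw [e2, map_zero])
  rw [e4, map_zero] at ht
  have e5 := congrArg (LinearMap.lTensor B (LinearMap.fst A K A)) ht.symm
  rw [← LinearMap.lTensor_comp_apply, LinearMap.fst_comp_inl, LinearMap.lTensor_id, map_zero] at e5
  exact e5

/-- quotients killed by a power of the maximal ideal -/
theorem finlen {m : Ideal A} [hm : m.IsMaximal] (hT : TJ A B m) {G : Type u} [AddCommGroup G]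
    [Module A G] [IsNoetherian A G] (K : Submodule A G) :
    (∃ n : ℕ, m ^ n • (⊤ : Submodule A G) ≤ K) → Function.Injective (LinearMap.lTensor B K.subtype) := by
  induction K using WellFoundedGT.induction with
  | ind K ih =>
    rintro hn
    classical
    by_cases hK : K = ⊤
    · subst hK
      have : Function.Injective (LinearMap.lTensor B
          (Submodule.topEquiv (R := A) (M := G)).toLinearMap) :=
        (LinearEquiv.lTensor B (Submodule.topEquiv (R := A) (M := G))).injective
      exact this
    · have hn0 : Nat.find hn ≠ 0 := by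
        intro h0
        have h1 := Nat.find_spec hn
        rw [h0, pow_zero, Ideal.one_eq_top, Submodule.top_smul] at h1
        exact hK (top_le_iff.1 h1)
      obtain ⟨n, hn1⟩ : ∃ n, Nat.find hn = n + 1 := ⟨Nat.find hn - 1, by omega⟩
      have h2 : ¬ (m ^ n • (⊤ : Submodule A G) ≤ K) := Nat.find_min hn (by omega)
      obtain ⟨g, hg, hgK⟩ := Set.not_subset.1 h2
      have hmg : ∀ a ∈ m, a • g ∈ K := by
        intro a ha
        have h3 := Nat.find_spec hn
        rw [hn1] at h3
        apply h3
        rw [pow_succ', mul_smul]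
        exact Submodule.smul_mem_smul ha hg
      set K' : Submodule A G := K ⊔ Submodule.span A {g} with hK'
      have hlt : K < K' := by
        refine lt_of_le_of_ne le_sup_left ?_
        intro h
        apply hgK
        have h4 : g ∈ K' := Submodule.mem_sup_right (Submodule.mem_span_singleton_self g)
        rw [← h] at h4
        exact h4
      have h5 := ih K' hlt (by
        obtain ⟨n, hn⟩ := hn
        exact ⟨n, hn.trans le_sup_left⟩)
      have h6 : Function.Injective (LinearMap.lTensor B (Submodule.inclusion hlt.le)) := by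
        refine pushout hT (Submodule.inclusion hlt.le) (Submodule.inclusion_injective _)
          ⟨g, Submodule.mem_sup_right (Submodule.mem_span_singleton_self g)⟩ ?_ ?_ ?_
        · rintro ⟨y, hy⟩
          obtain ⟨k, hk, z, hz, rfl⟩ := Submodule.mem_sup.1 hy
          obtain ⟨a, rfl⟩ := Submodule.mem_span_singleton.1 hz
          exact ⟨⟨k, hk⟩, a, rfl⟩
        · intro a ha
          exact ⟨⟨a • g, hmg a ha⟩, rfl⟩
        · intro a k hk
          by_contra ham
          have h7 : (k : G) = a • g := congrArg Subtype.val hk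
          obtain ⟨b, c, hc, hbc⟩ := (Ideal.isMaximal_iff.1 hm).2 (m ⊔ Ideal.span {a}) a
            le_sup_left ham (Ideal.mem_sup_right (Ideal.mem_span_singleton_self a)) |>
            (fun h => by
              obtain ⟨y, hy, z, hz, hyz⟩ := Submodule.mem_sup.1 h
              obtain ⟨b, rfl⟩ := Ideal.mem_span_singleton'.1 hz
              exact ⟨b, y, hy, hyz⟩ : _ → ∃ b c, c ∈ m ∧ c + b * a = 1)
          apply hgK
          have h8 : g = c • g + b • (a • g) := by
            rw [smul_smul, ← add_smul, hbc, one_smul]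
          rw [h8]
          refine K.add_mem (hmg c hc) (K.smul_mem b ?_)
          rw [← h7]
          exact k.2
      have h9 : LinearMap.lTensor B K.subtype =
          LinearMap.lTensor B K'.subtype ∘ₗ LinearMap.lTensor B (Submodule.inclusion hlt.le) := by
        rw [← LinearMap.lTensor_comp]
        rfl
      rw [h9]
      exact h5.comp h6

end push

section crit

variable {A B : Type u} [CommRing A] [CommRing B] [Algebra A B]

theorem mem_smul_of {m : Ideal A} {N : Type u} [AddCommGroup N] [Module A N] (n : ℕ)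
    (y : N) (hy : y ∈ m ^ n • (⊤ : Submodule A N)) (b : B) :
    (b ⊗ₜ[A] y : B ⊗[A] N) ∈
      ((m.map (algebraMap A B)) ^ n • (⊤ : Submodule B (B ⊗[A] N))) := by
  induction hy using Submodule.smul_induction_on' with
  | smul a ha z hz =>
    have h1 : (b ⊗ₜ[A] (a • z) : B ⊗[A] N) = (algebraMap A B a) • (b ⊗ₜ[A] z : B ⊗[A] N) := by
      rw [TensorProduct.tmul_smul, algebraMap_smul]
    rw [h1]
    refine Submodule.smul_mem_smul ?_ trivial
    rw [← Ideal.map_pow]
    exact Ideal.mem_map_of_mem _ ha
  | add y hy z hz ihy ihz =>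
    rw [TensorProduct.tmul_add]
    exact Submodule.add_mem _ ihy ihz

/-- The local criterion of flatness. -/
theorem flat_of_TJ [IsLocalRing A] [IsNoetherianRing A] [IsLocalRing B] [IsNoetherianRing B]
    (hloc : (maximalIdeal A).map (algebraMap A B) ≠ ⊤)
    (hT : TJ A B (maximalIdeal A)) : Module.Flat A B := by
  rw [Module.Flat.iff_lTensor_injective]
  intro I _
  rw [injective_iff_map_eq_zero]
  intro w hw
  set m := maximalIdeal A with hm
  have hfin : Module.Finite A I := Module.Finite.iff_fg.2 (IsNoetherian.noetherian I)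
  have hfinB : Module.Finite B (B ⊗[A] I) := inferInstance
  have hkrull := Ideal.iInf_pow_smul_eq_bot_of_isLocalRing (M := B ⊗[A] I)
    (m.map (algebraMap A B)) hloc
  have hmem : w ∈ (⊥ : Submodule B (B ⊗[A] I)) := by
    rw [← hkrull, Submodule.mem_iInf]
    intro n
    obtain ⟨k, hk⟩ := Ideal.exists_pow_inf_eq_pow_smul m (I : Submodule A A)
    have hk' := hk (n + k) (by omega)
    rw [Nat.add_sub_cancel] at hk'
    -- the quotient
    set G := A ⧸ (m ^ (n + k)) with hG
    let π : A →ₗ[A] G := (m ^ (n + k)).mkQ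
    let K : Submodule A G := Submodule.map π I
    let φ : I →ₗ[A] K := π.restrict (fun x hx => Submodule.mem_map_of_mem hx)
    have hφ : Function.Surjective φ := by
      rintro ⟨y, hy⟩
      obtain ⟨x, hx, rfl⟩ := hy
      exact ⟨⟨x, hx⟩, rfl⟩
    have hcomp : K.subtype ∘ₗ φ = π ∘ₗ I.subtype := rfl
    have hinj : Function.Injective (LinearMap.lTensor B K.subtype) := by
      refine finlen hT K ⟨n + k, ?_⟩
      intro y hy
      have h0 : y = 0 := by
        induction hy using Submodule.smul_induction_on' with
        | smul a ha z hz =>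
          obtain ⟨z, rfl⟩ := Ideal.Quotient.mk_surjective z
          change Ideal.Quotient.mk _ (a * z) = 0
          rw [Ideal.Quotient.eq_zero_iff_mem]
          exact Ideal.mul_mem_right _ _ ha
        | add y hy z hz ihy ihz => rw [ihy, ihz, add_zero]
      rw [h0]
      exact K.zero_mem
    have h1 : LinearMap.lTensor B φ w = 0 := by
      apply hinj
      rw [map_zero, ← LinearMap.lTensor_comp_apply, hcomp, LinearMap.lTensor_comp_apply, hw,
        map_zero]
    have hex := lTensor_exact B (LinearMap.exact_subtype_ker_map φ) hφ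
    obtain ⟨t, rfl⟩ := (hex w).1 h1
    -- the kernel is small
    have hker : ∀ y ∈ LinearMap.ker φ, y ∈ m ^ n • (⊤ : Submodule A I) := by
      intro y hy
      have h2 : π (y : A) = 0 := congrArg Subtype.val (LinearMap.mem_ker.1 hy)
      have h3 : (y : A) ∈ m ^ (n + k) := (Submodule.Quotient.mk_eq_zero _).1 h2
      have h4 : (y : A) ∈ m ^ n • ((m ^ k • ⊤ : Submodule A A) ⊓ I) := by
        rw [← hk']
        refine ⟨?_, y.2⟩
        rw [SetLike.mem_coe, smul_eq_mul, Ideal.mul_top]
        exact h3
      have h5 : (y : A) ∈ (m ^ n • (⊤ : Submodule A I)).map I.subtype := by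
        rw [Submodule.map_smul'', Submodule.map_top, Submodule.range_subtype]
        exact Submodule.smul_mono le_rfl inf_le_right h4
      obtain ⟨z, hz, hzy⟩ := h5
      have h6 : z = y := Subtype.ext hzy
      rw [← h6]
      exact hz
    induction t using TensorProduct.induction_on with
    | zero => rw [map_zero]; exact Submodule.zero_mem _
    | tmul b y =>
      rw [LinearMap.lTensor_tmul]
      exact mem_smul_of n _ (hker _ y.2) b
    | add s t hs ht =>
      rw [map_add]
      have aux : ∀ t : B ⊗[A] (LinearMap.ker φ), LinearMap.lTensor B (LinearMap.ker φ).subtype t ∈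
          ((m.map (algebraMap A B)) ^ n • (⊤ : Submodule B (B ⊗[A] I))) := by
        intro t
        induction t using TensorProduct.induction_on with
        | zero => rw [map_zero]; exact Submodule.zero_mem _
        | tmul b y =>
          rw [LinearMap.lTensor_tmul]
          exact mem_smul_of n _ (hker _ y.2) b
        | add s t hs ht =>
          rw [map_add]
          exact Submodule.add_mem _ hs ht
      exact Submodule.add_mem _ (aux s) (aux t)
  exact (Submodule.mem_bot B).1 hmem

theorem TJ_bot : TJ A B (⊥ : Ideal A) := by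
  intro s t _
  have : ∀ t : B ⊗[A] (⊥ : Ideal A), t = 0 := by
    intro t
    induction t using TensorProduct.induction_on with
    | zero => rfl
    | tmul b y => rw [Subsingleton.elim y 0, TensorProduct.tmul_zero]
    | add s t hs ht => rw [hs, ht, add_zero]
  rw [this s, this t]

/-- adding a regular element -/
theorem TJ_sup {J : Ideal A} (hJ : TJ A B J) (x : A)
    (hx : ∀ b : B, algebraMap A B x * b ∈ J.map (algebraMap A B) → b ∈ J.map (algebraMap A B)) :
    TJ A B (J ⊔ Ideal.span {x}) := by
  obtain ⟨J', hJ'⟩ : ∃ J' : Ideal A, J' = J ⊔ Ideal.span {x} := ⟨_, rfl⟩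
  rw [← hJ']
  unfold TJ
  rw [injective_iff_map_eq_zero]
  have hxJ' : x ∈ J' := by
    rw [hJ']; exact Ideal.mem_sup_right (Ideal.mem_span_singleton_self x)
  have hle : J ≤ J' := by rw [hJ']; exact le_sup_left
  let ι : J →ₗ[A] J' := Submodule.inclusion hle
  let σ : A →ₗ[A] J' := LinearMap.toSpanSingleton A J' ⟨x, hxJ'⟩
  -- decomposition of t
  have hdec : ∀ t : B ⊗[A] J', ∃ (t1 : B ⊗[A] J) (b : B),
      t = LinearMap.lTensor B ι t1 + b ⊗ₜ[A] ⟨x, hxJ'⟩ := by
    intro t
    induction t using TensorProduct.induction_on with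
    | zero => exact ⟨0, 0, by simp⟩
    | tmul b y =>
      obtain ⟨y, hy⟩ := y
      have hy' := hy
      rw [hJ'] at hy'
      obtain ⟨j, hj, z, hz, rfl⟩ := Submodule.mem_sup.1 hy'
      obtain ⟨a, rfl⟩ := Ideal.mem_span_singleton'.1 hz
      refine ⟨b ⊗ₜ[A] ⟨j, hj⟩, a • b, ?_⟩
      rw [LinearMap.lTensor_tmul, TensorProduct.smul_tmul, ← TensorProduct.tmul_add]
      congr 1
    | add s t hs ht =>
      obtain ⟨s1, b, rfl⟩ := hs
      obtain ⟨t1, c, rfl⟩ := ht
      refine ⟨s1 + t1, b + c, ?_⟩
      rw [map_add, TensorProduct.add_tmul]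
      abel
  intro t ht
  obtain ⟨t1, b, rfl⟩ := hdec t
  -- the image in B
  have himg : ∀ s : B ⊗[A] J, TensorProduct.rid A B (LinearMap.lTensor B J.subtype s) ∈
      J.map (algebraMap A B) := by
    intro s
    induction s using TensorProduct.induction_on with
    | zero => rw [map_zero, map_zero]; exact Ideal.zero_mem _
    | tmul b y =>
      rw [LinearMap.lTensor_tmul, TensorProduct.rid_tmul, Algebra.smul_def]
      exact Ideal.mul_mem_right _ _ (Ideal.mem_map_of_mem _ y.2)
    | add s t hs ht =>
      rw [map_add, map_add]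
      exact Ideal.add_mem _ hs ht
  have hsurj : ∀ c ∈ J.map (algebraMap A B), ∃ s : B ⊗[A] J,
      (LinearMap.lTensor B ι s) = c ⊗ₜ[A] ⟨x, hxJ'⟩ := by
    intro c hc
    induction hc using Submodule.span_induction with
    | mem y hy =>
      obtain ⟨j, hj, rfl⟩ := hy
      refine ⟨1 ⊗ₜ[A] ⟨j * x, J.mul_mem_right _ hj⟩, ?_⟩
      rw [LinearMap.lTensor_tmul, Algebra.algebraMap_eq_smul_one, TensorProduct.smul_tmul]
      congr 1
    | zero => exact ⟨0, by rw [map_zero, TensorProduct.zero_tmul]⟩
    | add y z _ _ hy hz =>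
      obtain ⟨s, hs⟩ := hy
      obtain ⟨t, ht⟩ := hz
      exact ⟨s + t, by rw [map_add, hs, ht, TensorProduct.add_tmul]⟩
    | smul d y _ hy =>
      obtain ⟨s, hs⟩ := hy
      refine ⟨d • s, ?_⟩
      have h1 : LinearMap.lTensor B ι (d • s) = d • LinearMap.lTensor B ι s := by
        exact map_smul (AlgebraTensorModule.lTensor B B ι) d s
      rw [h1, hs, TensorProduct.smul_tmul']
  have h1 : TensorProduct.rid A B (LinearMap.lTensor B J'.subtype
      (LinearMap.lTensor B ι t1 + b ⊗ₜ[A] ⟨x, hxJ'⟩)) = 0 := by
    rw [ht, map_zero]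
  rw [map_add, map_add, ← LinearMap.lTensor_comp_apply, LinearMap.lTensor_tmul,
    TensorProduct.rid_tmul] at h1
  have h2 : (J'.subtype : J' →ₗ[A] A) ∘ₗ ι = J.subtype := rfl
  rw [h2] at h1
  have h3 : algebraMap A B x * b ∈ J.map (algebraMap A B) := by
    have h4 : algebraMap A B x * b =
        - TensorProduct.rid A B (LinearMap.lTensor B J.subtype t1) := by
      rw [eq_neg_iff_add_eq_zero, add_comm, ← h1, Algebra.smul_def]
      rfl
    rw [h4]
    exact neg_mem (himg t1)
  obtain ⟨s, hs⟩ := hsurj b (hx b h3)
  rw [← hs, ← map_add] at ht ⊢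
  rw [← LinearMap.lTensor_comp_apply, h2] at ht
  have h5 : t1 + s = 0 := hJ (by rw [ht, map_zero])
  rw [h5, map_zero]

end crit

end Pool.Agent.X276.Fl
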