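import Pool.Agent.X276.Flat
import Pool.Agent.X276.Wqr

/-!
# Flatness of the Frobenius of a regular local ring
-/

set_option autoImplicit false

universe u

namespace Pool.Agent.X276.Fr

open TensorProduct IsLocalRing Pool.Agent.W418.LU2 Pool.Agent.X276.Fl

/-- `F^e_* R`: the ring `R` regarded as an `R`-algebra through the `e`-th power of Frobenius. -/
def FPush (R : Type u) (_p _e : ℕ) : Type u := R

section defs

variable (R : Type u) [CommRing R] (p e : ℕ)

instance : CommRing (FPush R p e) := inferInstanceAs (CommRing R)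

instance [ExpChar R p] : Algebra R (FPush R p e) := (iterateFrobenius R p e).toAlgebra

/-- the element `F^e_* s` -/
def FPush.of (s : R) : FPush R p e := s

theorem algebraMap_eq [ExpChar R p] (r : R) :
    algebraMap R (FPush R p e) r = FPush.of R p e (r ^ p ^ e) := rfl

theorem smul_of [ExpChar R p] (r s : R) :
    r • FPush.of R p e s = FPush.of R p e (r ^ p ^ e * s) := rfl

instance [IsLocalRing R] : IsLocalRing (FPush R p e) := inferInstanceAs (IsLocalRing R)

instance [IsNoetherianRing R] : IsNoetherianRing (FPush R p e) :=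
  inferInstanceAs (IsNoetherianRing R)

end defs

theorem map_span {R : Type u} [CommRing R] (p e : ℕ) [ExpChar R p] (T : Set R) :
    (Ideal.span T).map (algebraMap R (FPush R p e)) =
      (Ideal.span ((fun x : R => x ^ p ^ e) '' T) : Ideal R) := by
  rw [Ideal.map_span]
  rfl

theorem pow_cancel {A : Type u} [CommRing A] {J : Ideal A} {x : A}
    (h : ∀ f, x * f ∈ J → f ∈ J) (n : ℕ) : ∀ f, x ^ n * f ∈ J → f ∈ J := by
  induction n with
  | zero =>
    intro f hf
    rwa [pow_zero, one_mul] at hf
  | succ n ih =>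
    intro f hf
    apply h
    apply ih
    rw [pow_succ, mul_assoc] at hf
    exact hf

/-- powers of members of a regular system of parameters -/
theorem pow_reg {A : Type u} [CommRing A] [IsRegularLocalRing A] {c : ℕ} {x : Fin c → A}
    (hx : Ind x) (U : Finset (Fin c)) (i : Fin c) (hi : i ∉ U) (q : ℕ) (f : A)
    (h : x i ^ q * f ∈ Ideal.span ((fun x : A => x ^ q) '' (x '' (U : Set (Fin c))))) :
    f ∈ Ideal.span ((fun x : A => x ^ q) '' (x '' (U : Set (Fin c)))) := by
  classical
  have hP := Pool.Agent.X276.W.prm hx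
  let N : Set (Fin c → ℕ) := (fun j : Fin c => (Pi.single j q : Fin c → ℕ)) '' (U : Set (Fin c))
  have hN : Pool.Agent.X276.W.In x N ⊔ Ideal.span (x '' ((∅ : Finset (Fin c)) : Set (Fin c))) =
      Ideal.span ((fun x : A => x ^ q) '' (x '' (U : Set (Fin c)))) := by
    rw [Finset.coe_empty, Set.image_empty, Ideal.span_empty, sup_bot_eq]
    unfold Pool.Agent.X276.W.In
    congr 1
    rw [← Set.image_comp, ← Set.image_comp]
    apply Set.image_congr
    intro j _
    change Pool.Agent.X276.W.mo x (Pi.single j q) = x j ^ q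
    unfold Pool.Agent.X276.W.mo
    rw [Finset.prod_eq_single j]
    · rw [Pi.single_eq_same]
    · intro k _ hk
      rw [Pi.single_eq_of_ne hk, pow_zero]
    · intro h
      exact absurd (Finset.mem_univ j) h
  rw [← hN] at h ⊢
  refine pow_cancel (fun f hf => ?_) q f h
  refine Pool.Agent.X276.W.key x hP U ∅ i (Finset.disjoint_empty_right _) hi
    (Finset.notMem_empty _) N (U.finite_toSet.image _) ?_ f hf
  rintro _ ⟨j, hj, rfl⟩ l hl
  exact Pi.single_eq_of_ne (fun h => hl (by rw [h]; exact hj)) _

theorem TJ_frob {A : Type u} [CommRing A] [IsRegularLocalRing A] (p e : ℕ) [ExpChar A p]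
    {c : ℕ} {x : Fin c → A} (hx : Ind x) (U : Finset (Fin c)) :
    TJ A (FPush A p e) (Ideal.span (x '' (U : Set (Fin c)))) := by
  classical
  induction U using Finset.induction_on with
  | empty =>
    rw [Finset.coe_empty, Set.image_empty, Ideal.span_empty]
    exact TJ_bot
  | insert i U hi ih =>
    have h1 : Ideal.span (x '' ((insert i U : Finset (Fin c)) : Set (Fin c))) =
        Ideal.span (x '' (U : Set (Fin c))) ⊔ Ideal.span {x i} := by
      rw [Finset.coe_insert, Set.image_insert_eq, Ideal.span_insert, sup_comm]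
    rw [h1]
    refine TJ_sup ih (x i) ?_
    intro b hb
    rw [map_span] at hb ⊢
    exact pow_reg hx U i hi (p ^ e) b hb

theorem flat {A : Type u} [CommRing A] [IsRegularLocalRing A] (p e : ℕ) [ExpChar A p] :
    Module.Flat A (FPush A p e) := by
  classical
  obtain ⟨d, z, hz, hind⟩ : ∃ (d : ℕ) (z : Fin d → A),
      Ideal.span (Set.range z) = maximalIdeal A ∧ Ind z := by
    obtain ⟨m, w, hw, hd⟩ := Ind.extend (B := A) (ι := Fin 0) (z := Fin.elim0)
      ⟨fun i => i.elim0, fun c _ i => i.elim0⟩
    have hr : Set.range (Sum.elim (Fin.elim0 : Fin 0 → A) w) = Set.range w := by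
      ext y
      constructor
      · rintro ⟨i | i, rfl⟩
        · exact i.elim0
        · exact ⟨i, rfl⟩
      · rintro ⟨i, rfl⟩
        exact ⟨Sum.inr i, rfl⟩
    rw [hr] at hw
    refine ⟨m, w, hw, ind_of_span hw ?_⟩
    rw [hd, Fintype.card_fin, Fintype.card_fin, zero_add]
  have hT := TJ_frob p e hind Finset.univ
  rw [Finset.coe_univ, Set.image_univ, hz] at hT
  refine flat_of_TJ ?_ hT
  rw [← hz, map_span]
  intro h
  have h1 : (Ideal.span ((fun x : A => x ^ p ^ e) '' Set.range z)) ≤ maximalIdeal A := by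
    rw [Ideal.span_le]
    rintro _ ⟨_, ⟨i, rfl⟩, rfl⟩
    exact Ideal.pow_mem_of_mem _ (hind.1 i) _ (expChar_pow_pos A p e)
  rw [show (Ideal.span ((fun x : A => x ^ p ^ e) '' Set.range z)) = ⊤ from h] at h1
  exact (maximalIdeal.isMaximal A).ne_top (top_le_iff.1 h1)

/-- In a flat module an element outside `m M` has no torsion relations. -/
theorem tmul_ne {A : Type u} [CommRing A] {M : Type u} [AddCommGroup M] [Module A M]
    [Module.Flat A M] (m : Ideal A) (u : M) (hu : u ∉ m • (⊤ : Submodule A M)) {P : Type u}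
    [AddCommGroup P] [Module A P] (z : P) (hz : ∀ a : A, a • z = 0 → a ∈ m) :
    (u ⊗ₜ[A] z : M ⊗[A] P) ≠ 0 := by
  intro h
  let I : Ideal A := LinearMap.ker (LinearMap.toSpanSingleton A P z)
  let ψ : (A ⧸ I) →ₗ[A] P := I.liftQ (LinearMap.toSpanSingleton A P z) le_rfl
  have hψ : Function.Injective ψ := by
    rw [← LinearMap.ker_eq_bot]
    exact Submodule.ker_liftQ_eq_bot' _ _ rfl
  have h1 := Module.Flat.lTensor_preserves_injective_linearMap (M := M) ψ hψ
  have h2 : (u ⊗ₜ[A] (Ideal.Quotient.mk I 1) : M ⊗[A] (A ⧸ I)) = 0 := by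
    apply h1
    rw [map_zero, LinearMap.lTensor_tmul]
    have : ψ (Ideal.Quotient.mk I 1) = z := by
      change (1 : A) • z = z
      exact one_smul _ _
    rw [this, h]
  have h3 := congrArg (TensorProduct.tensorQuotEquivQuotSMul M I) h2
  rw [map_zero] at h3
  have h4 : (TensorProduct.tensorQuotEquivQuotSMul M I) (u ⊗ₜ[A] (Ideal.Quotient.mk I 1)) =
      Submodule.Quotient.mk u := by
    rw [TensorProduct.tensorQuotEquivQuotSMul_tmul_mk, one_smul]
  rw [h4, Submodule.Quotient.mk_eq_zero] at h3
  have hle : I ≤ m := fun a ha => hz a ha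
  exact hu (Submodule.smul_mono_left hle h3)

end Pool.Agent.X276.Fr
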