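import Pool.Agent.X276.ValChain

set_option autoImplicit false
set_option linter.all false

universe w

open CategoryTheory CategoryTheory.Limits

noncomputable section

namespace Pool.Agent.X276.Derived

/-- the value group -/
abbrev GG : Type := Lex (ℕ →₀ ℤ)

/-- coordinates -/
def cf (a : GG) (i : ℕ) : ℤ := (ofLex a) i

theorem cf_add (a b : GG) (i : ℕ) : cf (a + b) i = cf a i + cf b i := rfl
theorem cf_sub (a b : GG) (i : ℕ) : cf (a - b) i = cf a i - cf b i := rfl
theorem cf_neg (a : GG) (i : ℕ) : cf (-a) i = - cf a i := rfl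
theorem cf_zero (i : ℕ) : cf 0 i = 0 := rfl
theorem cf_nsmul (k : ℕ) (a : GG) (i : ℕ) : cf (k • a) i = k * cf a i := by
  induction k with
  | zero => rw [zero_nsmul, cf_zero]; simp
  | succ k ih => rw [succ_nsmul, cf_add, ih]; push_cast; ring

theorem lt_iff' {a b : GG} : a < b ↔ ∃ i, (∀ j < i, cf a j = cf b j) ∧ cf a i < cf b i :=
  Finsupp.Lex.lt_iff

theorem ext' {a b : GG} (h : ∀ i, cf a i = cf b i) : a = b :=
  ofLex.injective (Finsupp.ext h)

theorem pos_iff {a : GG} : 0 < a ↔ ∃ i, (∀ j < i, cf a j = 0) ∧ 0 < cf a i := by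
  rw [lt_iff']
  constructor
  · rintro ⟨i, h1, h2⟩
    exact ⟨i, fun j hj => (h1 j hj).symm, h2⟩
  · rintro ⟨i, h1, h2⟩
    exact ⟨i, fun j hj => (h1 j hj).symm, h2⟩

/-- the basis vectors -/
def ee (n : ℕ) : GG := toLex (Finsupp.single n (1 : ℤ))

theorem cf_ee_self (n : ℕ) : cf (ee n) n = 1 := Finsupp.single_eq_same

theorem cf_ee_ne {n i : ℕ} (h : i ≠ n) : cf (ee n) i = 0 := Finsupp.single_eq_of_ne h

/-- the convex subgroups -/
def HH (n : ℕ) : AddSubgroup GG where
  carrier := {a | ∀ i < n, cf a i = 0}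
  add_mem' := by
    intro a b ha hb i hi
    rw [cf_add, ha i hi, hb i hi, add_zero]
  zero_mem' := fun i _ => rfl
  neg_mem' := by
    intro a ha i hi
    rw [cf_neg, ha i hi, neg_zero]

theorem mem_HH {n : ℕ} {a : GG} : a ∈ HH n ↔ ∀ i < n, cf a i = 0 := Iff.rfl

/-- removing a coordinate -/
theorem sub_mem_HH {n : ℕ} {a : GG} (ha : a ∈ HH n) {m : ℤ} (hm : cf a n = m) :
    ∃ b ∈ HH (n + 1), ∀ i, cf a i = cf b i + m * cf (ee n) i := by
  refine ⟨a - toLex (Finsupp.single n m), ?_, ?_⟩
  · intro i hi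
    have h1 : cf (toLex (Finsupp.single n m)) i = if n = i then m else 0 := Finsupp.single_apply
    rw [cf_sub, h1]
    split_ifs with h
    · rw [← h, hm, sub_self]
    · rw [ha i (by omega), sub_zero]
  · intro i
    have h1 : cf (toLex (Finsupp.single n m)) i = if n = i then m else 0 := Finsupp.single_apply
    rw [cf_sub, h1]
    split_ifs with h
    · rw [← h, cf_ee_self]; ring
    · rw [cf_ee_ne (fun h' => h h'.symm)]; ring

/-- the chain -/
def chain : Chain GG where
  H := HH
  e := ee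
  H_zero := by
    rw [eq_top_iff]
    intro a _ i hi
    exact absurd hi (Nat.not_lt_zero i)
  H_succ_le n a ha i hi := ha i (by omega)
  conv := by
    intro n a b ha hab hb
    by_contra h
    have ha' : 0 < a := lt_of_le_of_ne ha fun h0 => h (by rw [← h0]; exact zero_mem _)
    obtain ⟨i, h1, h2⟩ := pos_iff.1 ha'
    have hin : i < n := by
      by_contra hin
      exact h fun j hj => h1 j (by omega)
    have h3 : b < a := lt_iff'.2 ⟨i, fun j hj => by rw [h1 j hj, hb j (by omega)], by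
      rw [hb i hin]; exact h2⟩
    exact absurd hab (not_le.2 h3)
  e_pos n := pos_iff.2 ⟨n, fun j hj => cf_ee_ne (by omega), by rw [cf_ee_self]; exact one_pos⟩
  e_mem n i hi := cf_ee_ne (by omega)
  e_gt n h hh := lt_iff'.2 ⟨n, fun j hj => by rw [cf_ee_ne (by omega), hh j (by omega)], by
    rw [cf_ee_self, hh n (by omega)]; exact one_pos⟩
  step := by
    intro n γ hγ
    have h0 : 0 < γ := hγ 0 (zero_mem _)
    obtain ⟨i, h1, h2⟩ := pos_iff.1 h0
    have hin : i < n + 1 := by
      by_contra hin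
      exact lt_irrefl _ (hγ γ fun j hj => h1 j (by omega))
    rcases Nat.lt_or_ge i n with hi | hi
    · refine ⟨0, zero_mem _, ?_⟩
      rw [add_zero]
      exact (lt_iff'.2 ⟨i, fun j hj => by rw [cf_ee_ne (by omega), h1 j hj], by
        rw [cf_ee_ne (by omega)]; exact h2⟩).le
    · have hi' : i = n := by omega
      subst hi'
      obtain ⟨b, hb, hb'⟩ := sub_mem_HH (n := i) (a := γ) (fun j hj => h1 j hj) rfl
      refine ⟨b, hb, ?_⟩
      rcases eq_or_lt_of_le (show (1 : ℤ) ≤ cf γ i from h2) with h3 | h3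
      · apply le_of_eq
        apply ext'
        intro j
        rw [cf_add, hb' j, ← h3]; ring
      · refine (lt_iff'.2 ⟨i, fun j hj => ?_, ?_⟩).le
        · rw [cf_add, hb' j, cf_ee_ne (by omega)]; ring
        · rw [cf_add, cf_ee_self, hb i (by omega), add_zero]
          exact h3
  arch := by
    intro n h hh
    obtain ⟨b, hb, hb'⟩ := sub_mem_HH (n := n) (a := h) hh rfl
    refine ⟨(cf h n).natAbs, b, hb, ?_⟩
    have h3 : 0 ≤ cf h n + (cf h n).natAbs := by omega
    rcases eq_or_lt_of_le h3 with h4 | h4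
    · apply le_of_eq
      apply ext'
      intro j
      rw [cf_add, hb' j, cf_nsmul, add_assoc, ← add_mul, ← h4, zero_mul, add_zero]
    · refine (lt_iff'.2 ⟨n, fun j hj => ?_, ?_⟩).le
      · rw [cf_add, hb' j, cf_nsmul, cf_ee_ne (by omega)]; ring
      · rw [cf_add, cf_nsmul, cf_ee_self, hb n (by omega), mul_one]
        exact h4
  inter := by
    intro γ hγ
    obtain ⟨i, h1, h2⟩ := pos_iff.1 hγ
    exact ⟨i + 1, fun h hh => lt_iff'.2 ⟨i, fun j hj => by rw [h1 j hj, hh j (by omega)], by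
      rw [hh i (by omega)]; exact h2⟩⟩

end Pool.Agent.X276.Derived
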