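import Pool.Agent.X276.Derived

set_option autoImplicit false

universe w

open CategoryTheory CategoryTheory.Limits HomologicalComplex

noncomputable section

namespace Pool.Agent.X276.Derived

/-- direct sums of complexes are coproducts of complexes -/
def isColimitC {A : Type*} [Category A] [Abelian A] {J : Type*} [HasColimitsOfShape (Discrete J) A]
    (X : J → CochainComplex A ℤ) :
    IsColimit (Cofan.mk (sumC X) fun j => inc X j : Cofan X) :=
  Cofan.IsColimit.mk _ (fun t => desc t.inj) (fun t j => inc_desc _ j)
    (fun t m hm => hom_ext' fun j => by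
      rw [inc_desc]
      exact hm j)

variable (R : Type) [CommRing R] [HasDerivedCategory.{w} (ModuleCat.{0} R)]

/-- localizing subcategories of the derived category -/
structure IsLocalizing (P : ObjectProperty (DerivedCategory (ModuleCat.{0} R))) : Prop where
  iso : P.IsClosedUnderIsomorphisms
  tri : P.IsTriangulated
  coprod : ∀ (J : Type) (X : J → DerivedCategory (ModuleCat.{0} R)) (c : Cofan X),
    Nonempty (IsColimit c) → (∀ j, P (X j)) → P c.pt

variable {R}

/-- a module as an object of the derived category -/
def sing (M : Type) [AddCommGroup M] [Module R M] : DerivedCategory (ModuleCat.{0} R) :=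
  (DerivedCategory.singleFunctor (ModuleCat.{0} R) 0).obj (ModuleCat.of R M)

variable {P : ObjectProperty (DerivedCategory (ModuleCat.{0} R))} (hP : IsLocalizing R P)

include hP

theorem IsLocalizing.equiv {M N : Type} [AddCommGroup M] [Module R M] [AddCommGroup N] [Module R N]
    (e : M ≃ₗ[R] N) (h : P (sing (R := R) M)) : P (sing (R := R) N) := by
  have := hP.iso
  exact P.prop_of_iso ((DerivedCategory.singleFunctor (ModuleCat.{0} R) 0).mapIso
    e.toModuleIso) h

section ses
variable {M N L : Type} [AddCommGroup M] [Module R M] [AddCommGroup N] [Module R N]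
  [AddCommGroup L] [Module R L] (f : M →ₗ[R] N) (g : N →ₗ[R] L) (hf : Function.Injective f)
  (hg : Function.Surjective g) (hfg : Function.Exact f g)

omit hP [HasDerivedCategory.{w} (ModuleCat.{0} R)] in
include hf hg hfg in
theorem ses_exact : (ShortComplex.mk (ModuleCat.ofHom f) (ModuleCat.ofHom g) (by
    ext x; exact hfg.apply_apply_eq_zero x)).ShortExact where
  exact := (ShortComplex.ShortExact.moduleCat_exact_iff_function_exact _).2 hfg
  mono_f := (ModuleCat.mono_iff_injective _).2 hf
  epi_g := (ModuleCat.epi_iff_surjective _).2 hg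

include hf hg hfg

theorem IsLocalizing.ses₁ (h2 : P (sing (R := R) N)) (h3 : P (sing (R := R) L)) :
    P (sing (R := R) M) := by
  have := hP.iso
  have := hP.tri
  exact P.ext_of_isTriangulatedClosed₁ _ (ses_exact f g hf hg hfg).singleTriangle_distinguished h2 h3

theorem IsLocalizing.ses₂ (h1 : P (sing (R := R) M)) (h3 : P (sing (R := R) L)) :
    P (sing (R := R) N) := by
  have := hP.iso
  have := hP.tri
  exact P.ext_of_isTriangulatedClosed₂ _ (ses_exact f g hf hg hfg).singleTriangle_distinguished h1 h3

theorem IsLocalizing.ses₃ (h1 : P (sing (R := R) M)) (h2 : P (sing (R := R) N)) :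
    P (sing (R := R) L) := by
  have := hP.iso
  have := hP.tri
  exact P.ext_of_isTriangulatedClosed₃ _ (ses_exact f g hf hg hfg).singleTriangle_distinguished h1 h2

end ses

theorem IsLocalizing.zero (M : Type) [AddCommGroup M] [Module R M] [Subsingleton M] :
    P (sing (R := R) M) := by
  have := hP.iso
  have := hP.tri
  apply P.prop_of_isZero
  exact (DerivedCategory.singleFunctor (ModuleCat.{0} R) 0).map_isZero
    (ModuleCat.isZero_of_subsingleton _)

theorem IsLocalizing.directSum {J : Type} [DecidableEq J] (M : J → Type) [∀ j, AddCommGroup (M j)]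
    [∀ j, Module R (M j)] (h : ∀ j, P (sing (R := R) (M j))) :
    P (sing (R := R) (DirectSum J M)) := by
  have := hP.iso
  let Z : J → ModuleCat.{0} R := fun j => ModuleCat.of R (M j)
  let F : ModuleCat.{0} R ⥤ CochainComplex (ModuleCat.{0} R) ℤ :=
    HomologicalComplex.single (ModuleCat.{0} R) (ComplexShape.up ℤ) 0
  let X : J → CochainComplex (ModuleCat.{0} R) ℤ := fun j => F.obj (Z j)
  have h1 : P (DerivedCategory.Q.obj (sumC X)) := hP.coprod J _ _ ⟨isColimitQ X⟩ h
  have h2 : IsColimit (Cofan.mk (F.obj (ModuleCat.coproductCocone Z).pt)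
      fun j => F.map ((ModuleCat.coproductCocone Z).inj j) : Cofan X) :=
    (isColimitMapCoconeCofanMkEquiv F Z _) (isColimitOfPreserves F
      (ModuleCat.coproductCoconeIsColimit Z))
  let e : sumC X ≅ F.obj (ModuleCat.coproductCocone Z).pt :=
    (isColimitC X).coconePointUniqueUpToIso h2
  exact P.prop_of_iso (DerivedCategory.Q.mapIso e) h1


section tel

omit hP [HasDerivedCategory.{w} (ModuleCat.{0} R)]

variable {N : Type} [AddCommGroup N] [Module R N] (M : ℕ → Submodule R N) (hM : Monotone M)

/-- the telescope map -/
def telD : DirectSum ℕ (fun n => M n) →ₗ[R] DirectSum ℕ (fun n => M n) :=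
  DirectSum.toModule R ℕ _ fun n => DirectSum.lof R ℕ (fun n => M n) n -
    (DirectSum.lof R ℕ (fun n => M n) (n + 1)).comp (Submodule.inclusion (hM (Nat.le_succ n)))

/-- the sum map -/
def telS : DirectSum ℕ (fun n => M n) →ₗ[R] N :=
  DirectSum.toModule R ℕ _ fun n => (M n).subtype

theorem telD_lof (n : ℕ) (a : M n) : telD M hM (DirectSum.lof R ℕ (fun n => M n) n a) =
    DirectSum.lof R ℕ (fun n => M n) n a - DirectSum.lof R ℕ (fun n => M n) (n + 1)
      (Submodule.inclusion (hM (Nat.le_succ n)) a) := by
  unfold telD
  rw [DirectSum.toModule_lof]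
  rfl

theorem telS_lof (n : ℕ) (a : M n) : telS M (DirectSum.lof R ℕ (fun n => M n) n a) = a := by
  unfold telS
  rw [DirectSum.toModule_lof]
  rfl

theorem telD_zero (m : DirectSum ℕ (fun n => M n)) : (telD M hM m) 0 = m 0 := by
  induction m using DirectSum.induction_on with
  | zero => rw [map_zero]
  | of n a =>
    have h := telD_lof M hM n a
    rw [DirectSum.lof_eq_of, DirectSum.lof_eq_of] at h
    rw [h, DirectSum.sub_apply]
    rw [DirectSum.of_eq_of_ne (n + 1) 0 _ (by omega), sub_zero]
  | add a b ha hb => rw [map_add, DirectSum.add_apply, DirectSum.add_apply, ha, hb]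

theorem telD_succ (m : DirectSum ℕ (fun n => M n)) (k : ℕ) : (telD M hM m) (k + 1) =
    m (k + 1) - Submodule.inclusion (hM (Nat.le_succ k)) (m k) := by
  induction m using DirectSum.induction_on with
  | zero => rw [map_zero]; simp
  | of n a =>
    have h := telD_lof M hM n a
    rw [DirectSum.lof_eq_of, DirectSum.lof_eq_of] at h
    rw [h, DirectSum.sub_apply]
    congr 1
    by_cases hn : n = k
    · subst hn
      rw [DirectSum.of_eq_same, DirectSum.of_eq_same]
    · rw [DirectSum.of_eq_of_ne (n + 1) (k + 1) _ (by omega), DirectSum.of_eq_of_ne n k _ (by omega),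
        map_zero]
  | add a b ha hb =>
    rw [map_add, DirectSum.add_apply, DirectSum.add_apply, DirectSum.add_apply, ha, hb, map_add]
    abel

theorem telD_inj : Function.Injective (telD M hM) := by
  rw [injective_iff_map_eq_zero]
  intro m hm
  have h : ∀ n, m n = 0 := by
    intro n
    induction n with
    | zero => rw [← telD_zero M hM m, hm]; rfl
    | succ n ih =>
      have h1 := telD_succ M hM m n
      rw [hm, ih, map_zero, sub_zero] at h1
      rw [← h1]; rfl
  exact DFinsupp.ext h

theorem tel_exact : Function.Exact (telD M hM) (telS M) := by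
  have h0 : ∀ m, telS M (telD M hM m) = 0 := by
    intro m
    induction m using DirectSum.induction_on with
    | zero => rw [map_zero, map_zero]
    | of n a =>
      rw [← DirectSum.lof_eq_of R, telD_lof, map_sub, telS_lof, telS_lof]
      exact sub_self _
    | add a b ha hb => rw [map_add, map_add, ha, hb, add_zero]
  -- every element is a single element of high degree modulo the range
  have hshift : ∀ (n k : ℕ) (hnk : n ≤ k) (a : M n),
      DirectSum.lof R ℕ (fun n => M n) n a - DirectSum.lof R ℕ (fun n => M n) k
        (Submodule.inclusion (hM hnk) a) ∈ LinearMap.range (telD M hM) := by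
    intro n k hnk a
    induction k, hnk using Nat.le_induction with
    | base =>
      have : Submodule.inclusion (hM (le_refl n)) a = a := rfl
      rw [this, sub_self]
      exact zero_mem _
    | succ k hk ih =>
      have h1 := telD_lof M hM k (Submodule.inclusion (hM hk) a)
      have h2 : DirectSum.lof R ℕ (fun n => M n) n a - DirectSum.lof R ℕ (fun n => M n) (k + 1)
          (Submodule.inclusion (hM (hk.trans (Nat.le_succ k))) a) =
          (DirectSum.lof R ℕ (fun n => M n) n a - DirectSum.lof R ℕ (fun n => M n) k
          (Submodule.inclusion (hM hk) a)) + telD M hM (DirectSum.lof R ℕ (fun n => M n) k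
            (Submodule.inclusion (hM hk) a)) := by
        rw [h1]
        have h3 : Submodule.inclusion (hM (Nat.le_succ k)) (Submodule.inclusion (hM hk) a) =
          Submodule.inclusion (hM (hk.trans (Nat.le_succ k))) a := rfl
        rw [h3]
        abel
      rw [h2]
      exact add_mem ih ⟨_, rfl⟩
  have key : ∀ m, ∃ (n : ℕ) (c : M n), m - DirectSum.lof R ℕ (fun n => M n) n c ∈
      LinearMap.range (telD M hM) := by
    intro m
    induction m using DirectSum.induction_on with
    | zero => exact ⟨0, 0, by rw [map_zero, sub_zero]; exact zero_mem _⟩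
    | of n a => exact ⟨n, a, by rw [← DirectSum.lof_eq_of R, sub_self]; exact zero_mem _⟩
    | add a b ha hb =>
      obtain ⟨n, c, hc⟩ := ha
      obtain ⟨k, d, hd⟩ := hb
      refine ⟨max n k, Submodule.inclusion (hM (le_max_left n k)) c +
        Submodule.inclusion (hM (le_max_right n k)) d, ?_⟩
      have h1 := hshift n _ (le_max_left n k) c
      have h2 := hshift k _ (le_max_right n k) d
      have h3 := add_mem (add_mem hc h1) (add_mem hd h2)
      convert h3 using 1
      rw [map_add]
      abel
  intro m
  constructor
  · intro hm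
    obtain ⟨n, c, x, hx⟩ := key m
    have h1 : (c : N) = 0 := by
      rw [← telS_lof M n c]
      have h2 : DirectSum.lof R ℕ (fun n => M n) n c = m - telD M hM x := by
        rw [hx]; abel
      rw [h2, map_sub, hm, h0, sub_zero]
    have h2 : c = 0 := Subtype.ext h1
    rw [h2, map_zero, sub_zero] at hx
    exact ⟨x, hx⟩
  · rintro ⟨x, rfl⟩
    exact h0 x

end tel

theorem IsLocalizing.union {N : Type} [AddCommGroup N] [Module R N] (M : ℕ → Submodule R N)
    (hM : Monotone M) (hu : ∀ x, ∃ n, x ∈ M n) (h : ∀ n, P (sing (R := R) (M n))) :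
    P (sing (R := R) N) := by
  have h1 := hP.directSum (fun n => M n) h
  refine hP.ses₃ (telD M hM) (telS M) (telD_inj M hM) ?_ (tel_exact M hM) h1 h1
  intro x
  obtain ⟨n, hn⟩ := hu x
  exact ⟨_, telS_lof M n ⟨x, hn⟩⟩

end Pool.Agent.X276.Derived
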