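import Pool.Agent.X276.Frob

/-!
# Purity of the maps `R → F^e_* R`, from a bound for the order
-/

set_option autoImplicit false

universe u

namespace Pool.Agent.X276.Fr

open TensorProduct IsLocalRing

theorem of_mem_pow {A : Type u} [CommRing A] (p e : ℕ) [ExpChar A p] (m : Ideal A)
    (b : FPush A p e) (hb : b ∈ m • (⊤ : Submodule A (FPush A p e))) :
    (show A from b) ∈ m ^ (p ^ e) := by
  induction hb using Submodule.smul_induction_on' with
  | smul a ha z hz =>
    change a ^ p ^ e * (show A from z) ∈ m ^ (p ^ e)
    exact Ideal.mul_mem_right _ _ (Ideal.pow_mem_pow ha _)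
  | add y hy z hz ihy ihz => exact Ideal.add_mem _ ihy ihz

/-- the map `λ^e_c : R → F^e_* R`, `r ↦ F^e_* (c r^{p^e})` -/
def lam {R : Type u} [CommRing R] (p e : ℕ) [ExpChar R p] (c : R) : R →ₗ[R] FPush R p e where
  toFun r := FPush.of R p e (c * r ^ p ^ e)
  map_add' := by
    intro x y
    change c * (x + y) ^ p ^ e = c * x ^ p ^ e + c * y ^ p ^ e
    rw [add_pow_expChar_pow, mul_add]
  map_smul' := by
    intro r x
    change c * (r * x) ^ p ^ e = r ^ p ^ e * (c * x ^ p ^ e)
    rw [mul_pow]
    ring

section glob

variable {R : Type u} [CommRing R] (p e : ℕ) [hp : Fact p.Prime] [hc : CharP R p]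

theorem charP_loc (m : Ideal R) [m.IsPrime] : CharP (Localization.AtPrime m) p := by
  rw [CharP.charP_iff_prime_eq_zero hp.out]
  have : algebraMap R (Localization.AtPrime m) (p : R) = 0 := by
    rw [CharP.cast_eq_zero, map_zero]
  rwa [map_natCast] at this

theorem tmul_ne_zero_of [IsRegularRing R] (c : R)
    (hb : ∀ (m : Ideal R) [m.IsPrime], algebraMap R (Localization.AtPrime m) c ∉
      maximalIdeal (Localization.AtPrime m) ^ (p ^ e))
    {P : Type u} [AddCommGroup P] [Module R P] (z : P) (hz : z ≠ 0) :
    (FPush.of R p e c ⊗ₜ[R] z : FPush R p e ⊗[R] P) ≠ 0 := by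
  intro h
  let I : Ideal R := LinearMap.ker (LinearMap.toSpanSingleton R P z)
  have hI : ∀ a, a ∈ I ↔ a • z = 0 := fun a => Iff.rfl
  have hI1 : I ≠ ⊤ := by
    intro h1
    apply hz
    have h2 : (1 : R) ∈ I := by rw [h1]; trivial
    rw [hI, one_smul] at h2
    exact h2
  obtain ⟨m, hm, hIm⟩ := Ideal.exists_le_maximal I hI1
  have hmp : m.IsPrime := hm.isPrime
  let A := Localization.AtPrime m
  have hcA : CharP (Localization.AtPrime m) p := charP_loc p m
  let PA := LocalizedModule m.primeCompl P
  let f : FPush R p e →+ P →+
      (FPush (Localization.AtPrime m) p e ⊗[Localization.AtPrime m] PA) :=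
    { toFun := fun s =>
        { toFun := fun y => (FPush.of (Localization.AtPrime m) p e
            (algebraMap R (Localization.AtPrime m) (show R from s))) ⊗ₜ[Localization.AtPrime m]
            (LocalizedModule.mk y 1 : PA)
          map_zero' := by
            rw [LocalizedModule.zero_mk, TensorProduct.tmul_zero]
          map_add' := by
            intro y y'
            rw [← TensorProduct.tmul_add, LocalizedModule.mk_add_mk, one_smul, one_smul, mul_one] }
      map_zero' := by
        ext y
        change (FPush.of (Localization.AtPrime m) p e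
          (algebraMap R (Localization.AtPrime m) (0 : R))) ⊗ₜ[Localization.AtPrime m]
            (LocalizedModule.mk y 1 : PA) = 0
        rw [map_zero]
        exact TensorProduct.zero_tmul _ _
      map_add' := by
        intro s t
        ext y
        change (FPush.of (Localization.AtPrime m) p e
          (algebraMap R (Localization.AtPrime m) ((show R from s) + (show R from t))))
            ⊗ₜ[Localization.AtPrime m] (LocalizedModule.mk y 1 : PA) = _ ⊗ₜ _ + _ ⊗ₜ _
        rw [map_add, ← TensorProduct.add_tmul]
        rfl }
  have hf : ∀ (r : R) (s : FPush R p e) (y : P), f (r • s) y = f s (r • y) := by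
    intro r s y
    change (FPush.of (Localization.AtPrime m) p e
      (algebraMap R (Localization.AtPrime m) (r ^ p ^ e * (show R from s))))
        ⊗ₜ[Localization.AtPrime m] (LocalizedModule.mk y 1 : PA) =
      (FPush.of (Localization.AtPrime m) p e
      (algebraMap R (Localization.AtPrime m) (show R from s)))
        ⊗ₜ[Localization.AtPrime m] (LocalizedModule.mk (r • y) 1 : PA)
    have e1 : (LocalizedModule.mk (r • y) 1 : PA) =
        algebraMap R (Localization.AtPrime m) r • (LocalizedModule.mk y 1 : PA) := by
      rw [algebraMap_smul, LocalizedModule.smul'_mk]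
    have e2 : FPush.of (Localization.AtPrime m) p e
      (algebraMap R (Localization.AtPrime m) (r ^ p ^ e * (show R from s))) =
        algebraMap R (Localization.AtPrime m) r • FPush.of (Localization.AtPrime m) p e
      (algebraMap R (Localization.AtPrime m) (show R from s)) := by
      rw [smul_of, map_mul, map_pow]
    rw [e1, e2, TensorProduct.smul_tmul]
  let φ := TensorProduct.liftAddHom f hf
  have h1 : φ (FPush.of R p e c ⊗ₜ[R] z) = (FPush.of (Localization.AtPrime m) p e
      (algebraMap R (Localization.AtPrime m) c)) ⊗ₜ[Localization.AtPrime m]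
        (LocalizedModule.mk z 1 : PA) := rfl
  rw [h, map_zero] at h1
  have hflat : Module.Flat (Localization.AtPrime m) (FPush (Localization.AtPrime m) p e) :=
    flat p e
  refine tmul_ne (maximalIdeal (Localization.AtPrime m)) _ (fun hu => ?_)
    (LocalizedModule.mk z 1 : PA) ?_ h1.symm
  · exact hb m (of_mem_pow p e _ _ hu)
  · intro a ha
    by_contra hun
    have hu : IsUnit a := by
      by_contra h4
      exact hun h4
    obtain ⟨v, hv⟩ := hu.exists_left_inv
    have h2 : (LocalizedModule.mk z 1 : PA) = 0 := by
      rw [← one_smul (Localization.AtPrime m) (LocalizedModule.mk z 1 : PA), ← hv, mul_smul, ha,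
        smul_zero]
    rw [← LocalizedModule.zero_mk (1 : m.primeCompl), LocalizedModule.mk_eq] at h2
    obtain ⟨s, hs⟩ := h2
    simp only [one_smul, smul_zero] at hs
    exact s.2 (hIm ((hI s).2 hs))

theorem pure_of [IsRegularRing R] (c : R)
    (hb : ∀ (m : Ideal R) [m.IsPrime], algebraMap R (Localization.AtPrime m) c ∉
      maximalIdeal (Localization.AtPrime m) ^ (p ^ e))
    (P : Type u) [AddCommGroup P] [Module R P] :
    Function.Injective (LinearMap.rTensor P (lam p e c)) := by
  rw [injective_iff_map_eq_zero]
  intro t ht
  obtain ⟨z, rfl⟩ := (TensorProduct.lid R P).symm.surjective t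
  rw [TensorProduct.lid_symm_apply, LinearMap.rTensor_tmul] at ht
  by_cases hz : z = 0
  · rw [hz, map_zero]
  · exfalso
    apply tmul_ne_zero_of p e c hb z hz
    rw [← ht]
    congr 1
    change c = c * 1 ^ p ^ e
    rw [one_pow, mul_one]

end glob

end Pool.Agent.X276.Fr
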