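import Pool.Agent.X276.SemiUnion

set_option autoImplicit false
set_option linter.all false

noncomputable section

namespace Pool.Agent.X276.Semi

/-! ### fraction fields -/

section frac

variable {P : Type} [CommRing P] [IsDomain P] [CharP P 2] (E : Tau P)

theorem exists_div_sq (x : FractionRing P) : ∃ a b : P, b ≠ 0 ∧
    x = algebraMap P (FractionRing P) a / algebraMap P (FractionRing P) b ^ 2 := by
  obtain ⟨a, b, hb, rfl⟩ := IsFractionRing.div_surjective (A := P) x
  have hb0 : b ≠ 0 := nonZeroDivisors.ne_zero hb
  have hb1 : algebraMap P (FractionRing P) b ≠ 0 := by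
    rw [Ne, IsFractionRing.to_map_eq_zero_iff]
    exact hb0
  refine ⟨a * b, b, hb0, ?_⟩
  rw [map_mul, div_eq_div_iff hb1 (pow_ne_zero _ hb1)]
  ring

/-- numerator -/
def nu (x : FractionRing P) : P := (exists_div_sq x).choose
/-- denominator -/
def de (x : FractionRing P) : P := (exists_div_sq x).choose_spec.choose

theorem de_ne (x : FractionRing P) : de x ≠ 0 := (exists_div_sq x).choose_spec.choose_spec.1

theorem nu_de (x : FractionRing P) :
    x = algebraMap P (FractionRing P) (nu x) / algebraMap P (FractionRing P) (de x) ^ 2 :=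
  (exists_div_sq x).choose_spec.choose_spec.2

theorem map_ne {b : P} (hb : b ≠ 0) : algebraMap P (FractionRing P) b ≠ 0 := by
  rw [Ne, IsFractionRing.to_map_eq_zero_iff]
  exact hb

theorem del_sq_mul (n : ℕ) (a b : P) : E.del n (a * b ^ 2) = E.del n a * b ^ 2 := by
  rw [mul_comm, E.del_const (Nat.zero_le n) (E.sq_mem b), mul_comm]

/-- the derivation of a fraction -/
def fdel (n : ℕ) (x : FractionRing P) : FractionRing P :=
  algebraMap P (FractionRing P) (E.del n (nu x)) / algebraMap P (FractionRing P) (de x) ^ 2

theorem fdel_div (n : ℕ) (a b : P) (hb : b ≠ 0) : fdel E n (algebraMap P (FractionRing P) a /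
    algebraMap P (FractionRing P) b ^ 2) =
    algebraMap P (FractionRing P) (E.del n a) / algebraMap P (FractionRing P) b ^ 2 := by
  set x := algebraMap P (FractionRing P) a / algebraMap P (FractionRing P) b ^ 2 with hx
  have h1 : algebraMap P (FractionRing P) a / algebraMap P (FractionRing P) b ^ 2 =
    algebraMap P (FractionRing P) (nu x) / algebraMap P (FractionRing P) (de x) ^ 2 :=
    hx.symm.trans (nu_de x)
  unfold fdel
  rw [div_eq_div_iff (pow_ne_zero _ (map_ne hb)) (pow_ne_zero _ (map_ne (de_ne x))),
    ← map_pow, ← map_pow, ← map_mul, ← map_mul] at h1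
  have h2 : a * de x ^ 2 = nu x * b ^ 2 := IsFractionRing.injective P (FractionRing P) h1
  rw [div_eq_div_iff (pow_ne_zero _ (map_ne (de_ne x))) (pow_ne_zero _ (map_ne hb)), ← map_pow,
    ← map_pow, ← map_mul, ← map_mul, ← del_sq_mul, ← del_sq_mul, h2]

theorem fdel_map (n : ℕ) (a : P) : fdel E n (algebraMap P (FractionRing P) a) =
    algebraMap P (FractionRing P) (E.del n a) := by
  have h := fdel_div E n a 1 one_ne_zero
  rwa [map_one, one_pow, div_one, div_one] at h

theorem fdel_add (n : ℕ) (x y : FractionRing P) : fdel E n (x + y) = fdel E n x + fdel E n y := by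
  obtain ⟨a, b, hb, rfl⟩ := exists_div_sq x
  obtain ⟨c, d, hd, rfl⟩ := exists_div_sq y
  have hb' := map_ne hb
  have hd' := map_ne hd
  have h1 : algebraMap P (FractionRing P) a / algebraMap P (FractionRing P) b ^ 2 +
      algebraMap P (FractionRing P) c / algebraMap P (FractionRing P) d ^ 2 =
      algebraMap P (FractionRing P) (a * d ^ 2 + c * b ^ 2) /
        algebraMap P (FractionRing P) (b * d) ^ 2 := by
    rw [map_add, map_mul, map_mul, map_mul, map_pow, map_pow]
    field_simp
  rw [h1, fdel_div E n _ _ (mul_ne_zero hb hd), fdel_div E n _ _ hb, fdel_div E n _ _ hd, map_add,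
    del_sq_mul, del_sq_mul, map_add, map_mul, map_mul, map_mul, map_pow, map_pow]
  field_simp

theorem fdel_mul (n : ℕ) (x y : FractionRing P) : fdel E n (x * y) =
    x * fdel E n y + y * fdel E n x := by
  obtain ⟨a, b, hb, rfl⟩ := exists_div_sq x
  obtain ⟨c, d, hd, rfl⟩ := exists_div_sq y
  have hb' := map_ne hb
  have hd' := map_ne hd
  have h1 : algebraMap P (FractionRing P) a / algebraMap P (FractionRing P) b ^ 2 *
      (algebraMap P (FractionRing P) c / algebraMap P (FractionRing P) d ^ 2) =
      algebraMap P (FractionRing P) (a * c) / algebraMap P (FractionRing P) (b * d) ^ 2 := by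
    rw [map_mul, map_mul]
    field_simp
  rw [h1, fdel_div E n _ _ (mul_ne_zero hb hd), fdel_div E n _ _ hb, fdel_div E n _ _ hd,
    E.leib, map_add, map_mul, map_mul, map_mul]
  field_simp

instance : CharP (FractionRing P) 2 :=
  charP_of_injective_algebraMap (IsFractionRing.injective P (FractionRing P)) 2

/-- extension to the fraction field -/
def fracTau : Tau (FractionRing P) where
  del n := AddMonoidHom.mk' (fdel E n) (fdel_add E n)
  tau n := algebraMap P (FractionRing P) (E.tau n)
  leib n a b := fdel_mul E n a b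
  del_tau_self i := by
    change fdel E i _ = _
    rw [fdel_map, E.del_tau_self, map_one]
  del_tau_ne i j h := by
    change fdel E i _ = _
    rw [fdel_map, E.del_tau_ne i j h, map_zero]
  comm i j x := by
    change fdel E i (fdel E j x) = fdel E j (fdel E i x)
    obtain ⟨a, b, hb, rfl⟩ := exists_div_sq x
    rw [fdel_div E j _ _ hb, fdel_div E i _ _ hb, fdel_div E i _ _ hb, fdel_div E j _ _ hb, E.comm]
  sq i x := by
    change fdel E i (fdel E i x) = 0
    obtain ⟨a, b, hb, rfl⟩ := exists_div_sq x
    rw [fdel_div E i _ _ hb, fdel_div E i _ _ hb, E.sq, map_zero, zero_div]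
  fin x := by
    obtain ⟨a, b, hb, rfl⟩ := exists_div_sq x
    obtain ⟨n, hn⟩ := E.fin a
    refine ⟨n, fun i hi => ?_⟩
    change fdel E i _ = 0
    rw [fdel_div E i _ _ hb, hn i hi, map_zero, zero_div]

end frac

/-! ### polynomials -/

section poly

variable {L : Type} [CommRing L] (E : Tau L) (σ : Type)

/-- the coefficientwise map -/
def pdel0 (n : ℕ) (f : MvPolynomial σ L) : MvPolynomial σ L :=
  AddMonoidAlgebra.ofCoeff (Finsupp.mapRange (E.del n) (map_zero _) (AddMonoidAlgebra.coeff f))

theorem coeff_pdel0 (n : ℕ) (f : MvPolynomial σ L) (m : σ →₀ ℕ) :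
    (pdel0 E σ n f).coeff m = E.del n (f.coeff m) := rfl

theorem pdel_ext {f g : MvPolynomial σ L} (h : ∀ m, f.coeff m = g.coeff m) : f = g :=
  MvPolynomial.ext _ _ h

theorem pdel0_add (n : ℕ) (f g : MvPolynomial σ L) :
    pdel0 E σ n (f + g) = pdel0 E σ n f + pdel0 E σ n g := by
  apply MvPolynomial.ext
  intro m
  rw [MvPolynomial.coeff_add, coeff_pdel0, coeff_pdel0, coeff_pdel0, MvPolynomial.coeff_add,
    map_add]

theorem pdel0_mul (n : ℕ) (f g : MvPolynomial σ L) :
    pdel0 E σ n (f * g) = f * pdel0 E σ n g + g * pdel0 E σ n f := by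
  classical
  apply MvPolynomial.ext
  intro m
  rw [coeff_pdel0, mul_comm g, MvPolynomial.coeff_add, MvPolynomial.coeff_mul,
    MvPolynomial.coeff_mul, MvPolynomial.coeff_mul, map_sum, ← Finset.sum_add_distrib]
  apply Finset.sum_congr rfl
  intro x _
  rw [E.leib, coeff_pdel0, coeff_pdel0]
  ring

theorem pdel0_C (n : ℕ) (a : L) :
    pdel0 E σ n (MvPolynomial.C a) = MvPolynomial.C (E.del n a) := by
  classical
  apply MvPolynomial.ext
  intro m
  rw [coeff_pdel0, MvPolynomial.coeff_C, MvPolynomial.coeff_C]
  split_ifs
  · rfl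
  · exact map_zero _

/-- extension to polynomial rings -/
def polyTau (E1 : ∀ i, E.del i 1 = 0) : Tau (MvPolynomial σ L) where
  del n := AddMonoidHom.mk' (pdel0 E σ n) (pdel0_add E σ n)
  tau n := MvPolynomial.C (E.tau n)
  leib n a b := pdel0_mul E σ n a b
  del_tau_self i := by
    change pdel0 E σ i _ = _
    rw [pdel0_C, E.del_tau_self, MvPolynomial.C_1]
  del_tau_ne i j h := by
    change pdel0 E σ i _ = _
    rw [pdel0_C, E.del_tau_ne i j h, MvPolynomial.C_0]
  comm i j x := by
    apply MvPolynomial.ext
    intro m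
    change E.del i (E.del j _) = E.del j (E.del i _)
    rw [E.comm]
  sq i x := by
    apply MvPolynomial.ext
    intro m
    change E.del i (E.del i _) = 0
    rw [E.sq]
  fin x := by
    classical
    have h : ∀ s : Finset (σ →₀ ℕ), ∃ n, ∀ m ∈ s, ∀ i, n ≤ i → E.del i (x.coeff m) = 0 := by
      intro s
      induction s using Finset.induction_on with
      | empty => exact ⟨0, by simp⟩
      | insert a s _ ih =>
        obtain ⟨n, hn⟩ := ih
        obtain ⟨k, hk⟩ := E.fin (x.coeff a)
        refine ⟨max n k, fun m hm i hi => ?_⟩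
        rcases Finset.mem_insert.1 hm with rfl | hm
        · exact hk i ((le_max_right _ _).trans hi)
        · exact hn m hm i ((le_max_left _ _).trans hi)
    obtain ⟨n, hn⟩ := h x.support
    refine ⟨n, fun i hi => ?_⟩
    apply MvPolynomial.ext
    intro m
    change E.del i (x.coeff m) = 0
    by_cases hm : m ∈ x.support
    · exact hn m hm i hi
    · rw [MvPolynomial.notMem_support_iff.1 hm, map_zero]

end poly

/-! ### the base -/

section base

open MvPolynomial

/-- polynomials over `𝔽_2` -/
abbrev P0 : Type := MvPolynomial ℕ (ZMod 2)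

instance : CharP P0 2 := charP_of_injective_algebraMap (MvPolynomial.C_injective ℕ (ZMod 2)) 2

theorem two_P0 (a : P0) : a + a = 0 := by
  have := CharP.cast_eq_zero P0 2
  have h : (2 : P0) = 0 := by exact_mod_cast this
  rw [← two_mul, h, zero_mul]

/-- partial derivatives -/
def baseTau : Tau P0 where
  del n := (pderiv n : Derivation (ZMod 2) P0 P0).toLinearMap.toAddMonoidHom
  tau n := X n
  leib n a b := by
    change pderiv n (a * b) = _
    rw [Derivation.leibniz]; rfl
  del_tau_self i := by
    change pderiv i (X i) = _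
    rw [pderiv_X_self]
  del_tau_ne i j h := by
    change pderiv i (X j) = _
    rw [pderiv_X_of_ne (Ne.symm h)]
  comm i j a := by
    change pderiv i (pderiv j a) = pderiv j (pderiv i a)
    induction a using MvPolynomial.induction_on with
    | C a => simp
    | add p q hp hq => rw [map_add, map_add, map_add, map_add, hp, hq]
    | mul_X p k hp =>
      have h : ∀ i j : ℕ, pderiv i (pderiv j (X k : P0)) = 0 := by
        intro i j
        by_cases h : j = k
        · subst h; rw [pderiv_X_self]; simp
        · rw [pderiv_X_of_ne (Ne.symm h), map_zero]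
      rw [Derivation.leibniz, Derivation.leibniz, map_add, map_add]
      simp only [smul_eq_mul]
      rw [Derivation.leibniz, Derivation.leibniz, Derivation.leibniz, Derivation.leibniz, h, h, hp]
      simp only [smul_eq_mul]
      ring
  sq i a := by
    change pderiv i (pderiv i a) = 0
    induction a using MvPolynomial.induction_on with
    | C a => simp
    | add p q hp hq => rw [map_add, map_add, hp, hq, add_zero]
    | mul_X p k hp =>
      have h : ∀ i j : ℕ, pderiv i (pderiv j (X k : P0)) = 0 := by
        intro i j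
        by_cases h : j = k
        · subst h; rw [pderiv_X_self]; simp
        · rw [pderiv_X_of_ne (Ne.symm h), map_zero]
      rw [Derivation.leibniz, map_add]
      simp only [smul_eq_mul]
      rw [Derivation.leibniz, Derivation.leibniz, h, hp]
      simp only [smul_eq_mul]
      rw [mul_zero, mul_zero, zero_add, zero_add, mul_comm]
      exact two_P0 _
  fin a := by
    classical
    obtain ⟨n, hn⟩ := a.vars.exists_nat_subset_range
    refine ⟨n, fun i hi => ?_⟩
    change pderiv i a = 0
    apply pderiv_eq_zero_of_notMem_vars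
    intro h
    exact absurd (Finset.mem_range.1 (hn h)) (by omega)

end base

/-- the field `L` -/
abbrev L0 : Type := FractionRing P0

/-- the ring `D` -/
abbrev D0 (d : ℕ) : Type := MvPolynomial (Fin d) L0

/-- the structure on `D` -/
def tauD (d : ℕ) : Tau (D0 d) :=
  polyTau (fracTau baseTau) (Fin d) (fun i => (fracTau baseTau).del_one i)

instance (d : ℕ) : CharP (D0 d) 2 :=
  charP_of_injective_algebraMap (MvPolynomial.C_injective (Fin d) L0) 2

theorem countable_mvPolynomial (σ : Type) (A : Type) [CommRing A] [Countable σ] [Countable A] :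
    Countable (MvPolynomial σ A) := by
  have h : Function.Injective (fun f : MvPolynomial σ A => (AddMonoidAlgebra.coeff f :
      (σ →₀ ℕ) →₀ A)) := by
    intro f g hfg
    apply MvPolynomial.ext
    intro m
    exact DFunLike.congr_fun hfg m
  exact h.countable

instance (d : ℕ) : Countable (D0 d) := by
  have h1 : Countable P0 := countable_mvPolynomial _ _
  have h2 : Countable L0 := by
    have h : Function.Surjective (fun x : P0 × P0 => algebraMap P0 L0 x.1 / algebraMap P0 L0 x.2) :=
      fun x => by
        obtain ⟨a, b, _, h⟩ := IsFractionRing.div_surjective (A := P0) x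
        exact ⟨(a, b), h⟩
    exact h.countable
  exact countable_mvPolynomial _ _


theorem main (d : ℕ) : ∃ (R : Type) (_ : CommRing R) (_ : IsDomain R), IsNoetherianRing R ∧
    ringKrullDim R = d ∧
    (∀ x : FractionRing R, x ^ 2 ∈ Set.range (algebraMap R (FractionRing R)) →
      x ^ 3 ∈ Set.range (algebraMap R (FractionRing R)) →
      x ∈ Set.range (algebraMap R (FractionRing R))) ∧
    ∀ P : Ideal R, P.IsPrime → P.height = 1 → ∃ m : Tau.quotMod R, ∀ r : R, r ∈ P ↔ r • m = 0 := by
  obtain ⟨pi, hpi, hpi0, hpr, hne, hall⟩ := (tauD d).exists_pi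
  refine ⟨(tauD d).R pi, inferInstance, inferInstance, (tauD d).noetherian pi hpi hpr hall, ?_,
    (tauD d).seminormal pi hpi hpi0 hpr hne, (tauD d).assoc pi hpi hpi0 hpr hne hall⟩
  rw [(tauD d).krullDim_eq pi, MvPolynomial.ringKrullDim_of_isNoetherianRing,
    ringKrullDim_eq_zero_of_field]
  simp

end Pool.Agent.X276.Semi
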