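import Mathlib

set_option autoImplicit false
set_option linter.all false

namespace Pool.Agent.X276.Semi

/-- Commuting derivations with square zero and dual elements. -/
structure Tau (D : Type) [CommRing D] where
  del : ℕ → D →+ D
  tau : ℕ → D
  leib : ∀ n a b, del n (a * b) = a * del n b + b * del n a
  del_tau_self : ∀ i, del i (tau i) = 1
  del_tau_ne : ∀ i j, i ≠ j → del i (tau j) = 0
  comm : ∀ i j a, del i (del j a) = del j (del i a)
  sq : ∀ i a, del i (del i a) = 0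
  fin : ∀ a, ∃ n, ∀ i, n ≤ i → del i a = 0

variable {D : Type} [CommRing D] [IsDomain D] [CharP D 2] (E : Tau D)

namespace Tau

theorem two_eq : (2 : D) = 0 := by
  have := CharP.cast_eq_zero D 2
  exact_mod_cast this

theorem add_self' (a : D) : a + a = 0 := by
  rw [← two_mul, two_eq, zero_mul]

theorem add_self'_of (E : Tau D) (a : D) : a + a = 0 := add_self' a

theorem neg_eq' (a : D) : -a = a := by
  rw [neg_eq_iff_add_eq_zero, add_self']

theorem sub_eq' (a b : D) : a - b = a + b := by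
  rw [sub_eq_add_neg, neg_eq']

theorem del_one (i : ℕ) : E.del i 1 = 0 := by
  have h := E.leib i 1 1
  rw [mul_one, one_mul] at h
  exact left_eq_add.1 h

theorem del_mul_self (i : ℕ) (a : D) : E.del i (a ^ 2) = 0 := by
  rw [pow_two, E.leib]
  exact add_self' _

/-- the constants of the derivations of index at least `n` -/
def Ds (n : ℕ) : Subring D where
  carrier := {a | ∀ i, n ≤ i → E.del i a = 0}
  mul_mem' := by
    intro a b ha hb i hi
    rw [E.leib, ha i hi, hb i hi, mul_zero, mul_zero, add_zero]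
  one_mem' := fun i _ => E.del_one i
  add_mem' := by
    intro a b ha hb i hi
    rw [map_add, ha i hi, hb i hi, add_zero]
  zero_mem' := fun i _ => map_zero _
  neg_mem' := by
    intro a ha i hi
    rw [map_neg, ha i hi, neg_zero]

theorem Ds_mono : Monotone E.Ds := fun _ _ hmn _ ha i hi => ha i (hmn.trans hi)

theorem sq_mem (a : D) : a ^ 2 ∈ E.Ds 0 := fun i _ => E.del_mul_self i a

theorem tau_mem (n : ℕ) : E.tau n ∈ E.Ds (n + 1) := fun i hi => E.del_tau_ne i n (by omega)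

theorem del_mem {n : ℕ} {a : D} (ha : a ∈ E.Ds (n + 1)) : E.del n a ∈ E.Ds n := by
  intro i hi
  rcases Nat.lt_or_ge n i with h | h
  · rw [E.comm, ha i h, map_zero]
  · have : i = n := by omega
    rw [this, E.sq]

/-- the projection -/
def pj (n : ℕ) (a : D) : D := a - E.tau n * E.del n a

theorem pj_mem {n : ℕ} {a : D} (ha : a ∈ E.Ds (n + 1)) : E.pj n a ∈ E.Ds n := by
  intro i hi
  unfold pj
  rw [map_sub, E.leib]
  rcases Nat.lt_or_ge n i with h | h
  · rw [ha i h, E.comm, ha i h, map_zero, E.tau_mem n i h]; ring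
  · have : i = n := by omega
    rw [this, E.sq, E.del_tau_self]; ring

theorem del_const {n : ℕ} {i : ℕ} (hi : n ≤ i) {c : D} (hc : c ∈ E.Ds n) (a : D) :
    E.del i (c * a) = c * E.del i a := by
  rw [E.leib, hc i hi, mul_zero, add_zero]

/-- the previous dual element -/
def tau' : ℕ → D
  | 0 => 0
  | n + 1 => E.tau n

theorem tau'_mem (n : ℕ) : E.tau' n ∈ E.Ds n := by
  rcases n with _ | n
  · exact zero_mem _
  · exact E.tau_mem n

section main

variable (pi : ℕ → D)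

/-- the new generators -/
def z (n : ℕ) : D := E.tau' n + pi n * E.tau n

/-- one step of the construction -/
def step (S : {S : Subring D // E.Ds 0 ≤ S}) (z : D) : {S : Subring D // E.Ds 0 ≤ S} :=
  ⟨{ carrier := {x | ∃ b ∈ S.1, ∃ c ∈ S.1, x = b + c * z}
     mul_mem' := by
       rintro _ _ ⟨b, hb, c, hc, rfl⟩ ⟨b', hb', c', hc', rfl⟩
       refine ⟨b * b' + c * c' * z ^ 2, add_mem (mul_mem hb hb') (mul_mem (mul_mem hc hc')
         (S.2 (E.sq_mem z))), b * c' + c * b', add_mem (mul_mem hb hc') (mul_mem hc hb'), ?_⟩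
       ring
     one_mem' := ⟨1, one_mem _, 0, zero_mem _, by ring⟩
     add_mem' := by
       rintro _ _ ⟨b, hb, c, hc, rfl⟩ ⟨b', hb', c', hc', rfl⟩
       exact ⟨b + b', add_mem hb hb', c + c', add_mem hc hc', by ring⟩
     zero_mem' := ⟨0, zero_mem _, 0, zero_mem _, by ring⟩
     neg_mem' := by
       rintro _ ⟨b, hb, c, hc, rfl⟩
       exact ⟨-b, neg_mem hb, -c, neg_mem hc, by ring⟩ },
    fun x hx => ⟨x, S.2 hx, 0, zero_mem _, by ring⟩⟩

/-- the rings, with the proof that they contain the constants -/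
def RsA : ℕ → {S : Subring D // E.Ds 0 ≤ S}
  | 0 => ⟨E.Ds 0, le_rfl⟩
  | n + 1 => E.step (RsA n) (E.z pi n)

/-- the rings `R_n` -/
def Rs (n : ℕ) : Subring D := (E.RsA pi n).1

theorem const_le (n : ℕ) : E.Ds 0 ≤ E.Rs pi n := (E.RsA pi n).2

theorem mem_Rs_succ {n : ℕ} {x : D} : x ∈ E.Rs pi (n + 1) ↔
    ∃ b ∈ E.Rs pi n, ∃ c ∈ E.Rs pi n, x = b + c * E.z pi n := Iff.rfl

theorem Rs_mono : Monotone (E.Rs pi) := by
  apply monotone_nat_of_le_succ
  intro n x hx
  exact ⟨x, hx, 0, zero_mem _, by ring⟩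

theorem z_mem_Rs (n : ℕ) : E.z pi n ∈ E.Rs pi (n + 1) := ⟨0, zero_mem _, 1, one_mem _, by ring⟩

/-- the ring `R` -/
def R : Subring D where
  carrier := {x | ∃ n, x ∈ E.Rs pi n}
  mul_mem' := by
    rintro a b ⟨n, ha⟩ ⟨m, hb⟩
    exact ⟨max n m, mul_mem (E.Rs_mono pi (le_max_left n m) ha)
      (E.Rs_mono pi (le_max_right n m) hb)⟩
  one_mem' := ⟨0, one_mem _⟩
  add_mem' := by
    rintro a b ⟨n, ha⟩ ⟨m, hb⟩
    exact ⟨max n m, add_mem (E.Rs_mono pi (le_max_left n m) ha)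
      (E.Rs_mono pi (le_max_right n m) hb)⟩
  zero_mem' := ⟨0, zero_mem _⟩
  neg_mem' := by
    rintro a ⟨n, ha⟩
    exact ⟨n, neg_mem ha⟩

theorem Rs_le_R (n : ℕ) : E.Rs pi n ≤ E.R pi := fun _ hx => ⟨n, hx⟩

theorem sq_mem_R (a : D) : a ^ 2 ∈ E.R pi := E.Rs_le_R pi 0 (E.sq_mem a)

variable (hpi : ∀ n, pi n ∈ E.Ds n) (hpi0 : ∀ n, pi n ≠ 0)

include hpi

theorem z_mem (n : ℕ) : E.z pi n ∈ E.Ds (n + 1) :=
  add_mem (E.Ds_mono (Nat.le_succ n) (E.tau'_mem n))
    (mul_mem (E.Ds_mono (Nat.le_succ n) (hpi n)) (E.tau_mem n))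

theorem Rs_le_Ds (n : ℕ) : E.Rs pi n ≤ E.Ds n := by
  induction n with
  | zero => exact le_rfl
  | succ n ih =>
    rintro _ ⟨b, hb, c, hc, rfl⟩
    exact add_mem (E.Ds_mono (Nat.le_succ n) (ih hb))
      (mul_mem (E.Ds_mono (Nat.le_succ n) (ih hc)) (E.z_mem pi hpi n))

theorem del_z (n : ℕ) : E.del n (E.z pi n) = pi n := by
  unfold z
  rw [map_add, E.tau'_mem n n le_rfl, E.del_const le_rfl (hpi n), E.del_tau_self, mul_one, zero_add]

theorem del_bcz {n : ℕ} {b c : D} (hb : b ∈ E.Ds n) (hc : c ∈ E.Ds n) :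
    E.del n (b + c * E.z pi n) = c * pi n := by
  rw [map_add, hb n le_rfl, E.del_const le_rfl hc, E.del_z pi hpi, zero_add]

/-- the statement `M_m` -/
theorem lemM (Q : Ideal D) (hQ : Q.IsPrime) (j : ℕ) (hj : pi j ∈ Q)
    (hd : ∀ f ∈ Q, ∀ i, j ≤ i → E.del i f ∈ Q) : ∀ m, j ≤ m → ∀ b ∈ E.Rs pi (m + 1),
    ∀ c ∈ E.Rs pi (m + 1), b + c * E.tau m ∈ Q → c ∈ Q := by
  intro m hm
  induction m, hm using Nat.le_induction with
  | base =>
    intro b hb c hc h
    have h1 : c * b + c ^ 2 * E.tau j ∈ Q := by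
      have : c * b + c ^ 2 * E.tau j = c * (b + c * E.tau j) := by ring
      rw [this]
      exact Ideal.mul_mem_left _ _ h
    obtain ⟨b0, hb0, b1, hb1, hb'⟩ := (E.mem_Rs_succ pi).1 (mul_mem hc hb)
    have h2 := hd _ h1 j le_rfl
    rw [hb', map_add, E.del_bcz pi hpi (E.Rs_le_Ds pi hpi j hb0) (E.Rs_le_Ds pi hpi j hb1),
      E.del_const (Nat.zero_le j) (E.sq_mem c), E.del_tau_self, mul_one] at h2
    have h3 : c ^ 2 ∈ Q := by
      have : c ^ 2 = (b1 * pi j + c ^ 2) - b1 * pi j := by ring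
      rw [this]
      exact sub_mem h2 (Ideal.mul_mem_left _ _ hj)
    exact hQ.mem_of_pow_mem 2 h3
  | succ m hm ih =>
    intro b hb c hc h
    have h1 : c * b + c ^ 2 * E.tau (m + 1) ∈ Q := by
      have : c * b + c ^ 2 * E.tau (m + 1) = c * (b + c * E.tau (m + 1)) := by ring
      rw [this]
      exact Ideal.mul_mem_left _ _ h
    obtain ⟨b0, hb0, b1, hb1, hb'⟩ := (E.mem_Rs_succ pi).1 (mul_mem hc hb)
    have h2 := hd _ h1 (m + 1) (by omega)
    rw [hb', map_add, E.del_bcz pi hpi (E.Rs_le_Ds pi hpi _ hb0) (E.Rs_le_Ds pi hpi _ hb1),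
      E.del_const (Nat.zero_le _) (E.sq_mem c), E.del_tau_self, mul_one] at h2
    have h3 : b0 + b1 * E.tau m ∈ Q := by
      have : b0 + b1 * E.tau m = (c * b + c ^ 2 * E.tau (m + 1)) -
          E.tau (m + 1) * (b1 * pi (m + 1) + c ^ 2) := by
        rw [hb']
        unfold z tau'
        ring
      rw [this]
      exact sub_mem h1 (Ideal.mul_mem_left _ _ h2)
    have h4 := ih b0 hb0 b1 hb1 h3
    have h5 : c ^ 2 ∈ Q := by
      have : c ^ 2 = (b1 * pi (m + 1) + c ^ 2) - b1 * pi (m + 1) := by ring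
      rw [this]
      exact sub_mem h2 (Ideal.mul_mem_right _ _ h4)
    exact hQ.mem_of_pow_mem 2 h5

/-- the statement `N_m` -/
theorem lemN (Q : Ideal D) (hQ : Q.IsPrime) (j : ℕ) (hj : pi j ∈ Q)
    (hd : ∀ f ∈ Q, ∀ i, j ≤ i → E.del i f ∈ Q) (m : ℕ) (hm : j ≤ m) (b : D)
    (hb : b ∈ E.Rs pi (m + 1)) (c : D) (hc : c ∈ E.Rs pi (m + 1))
    (h : b + c * E.z pi (m + 1) ∈ Q) : c ∈ Q := by
  have h1 := hd _ h (m + 1) (by omega)
  rw [E.del_bcz pi hpi (E.Rs_le_Ds pi hpi _ hb) (E.Rs_le_Ds pi hpi _ hc)] at h1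
  rcases hQ.mem_or_mem h1 with h2 | h2
  · exact h2
  · apply E.lemM pi hpi Q hQ j hj hd m hm b hb c hc
    have : b + c * E.tau m = (b + c * E.z pi (m + 1)) - c * E.tau (m + 1) * pi (m + 1) := by
      unfold z tau'
      ring
    rw [this]
    exact sub_mem h (Ideal.mul_mem_left _ _ h2)

/-- intersection with the constants -/
theorem Rs_inter {n m : ℕ} (hnm : n ≤ m) {x : D} (hx : x ∈ E.Rs pi m) (hx' : x ∈ E.Ds n)
    (hpi0 : ∀ n, pi n ≠ 0) : x ∈ E.Rs pi n := by
  induction m, hnm using Nat.le_induction with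
  | base => exact hx
  | succ m hm ih =>
    apply ih
    obtain ⟨b, hb, c, hc, rfl⟩ := hx
    have h1 := hx' m hm
    rw [E.del_bcz pi hpi (E.Rs_le_Ds pi hpi _ hb) (E.Rs_le_Ds pi hpi _ hc)] at h1
    rw [(mul_eq_zero.1 h1).resolve_right (hpi0 m), zero_mul, add_zero]
    exact hb

include hpi0 in
/-- the statement `U_n` -/
theorem lemU (hpr : ∀ n, pi n = 1 ∨ Prime (pi n))
    (hne : ∀ i j, i ≠ j → Prime (pi i) → Prime (pi j) → ¬ Associated (pi i) (pi j)) (g : D) :
    ∀ n, ∀ c ∈ E.Ds n, g ^ 2 * c ∈ E.Rs pi n →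
      (∀ i < n, Prime (pi i) → pi i ∣ g → pi i ∣ c) → c ∈ E.Rs pi n := by
  intro n
  induction n with
  | zero => exact fun c hc _ _ => hc
  | succ n ih =>
    intro c hc hgc hdiv
    obtain ⟨r, hr, s, hs, hrs⟩ := hgc
    have hg2 : g ^ 2 ∈ E.Ds n := E.Ds_mono (Nat.zero_le n) (E.sq_mem g)
    set v := E.del n c with hv
    have hvm : v ∈ E.Ds n := E.del_mem hc
    have h1 : g ^ 2 * v = s * pi n := by
      have := congrArg (E.del n) hrs
      rwa [E.del_const le_rfl hg2, E.del_bcz pi hpi (E.Rs_le_Ds pi hpi _ hr)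
        (E.Rs_le_Ds pi hpi _ hs)] at this
    -- divisibility is inherited by coefficients
    have hdel : ∀ i, i ≤ n → pi i ∣ c → pi i ∣ v := by
      rintro i hi ⟨c', hc'⟩
      rw [hv, hc', E.del_const hi (hpi i)]
      exact Dvd.intro _ rfl
    have h2 : pi n ∣ v := by
      rcases hpr n with h | h
      · rw [h]; exact one_dvd _
      · by_cases hg : pi n ∣ g
        · exact hdel n le_rfl (hdiv n (Nat.lt_succ_self n) h hg)
        · have h3 : pi n ∣ g ^ 2 * v := ⟨s, by rw [h1, mul_comm]⟩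
          exact (h.dvd_or_dvd h3).resolve_left fun h4 => hg (h.dvd_of_dvd_pow h4)
    obtain ⟨w, hw⟩ := h2
    have hwm : w ∈ E.Ds n := by
      intro i hi
      have h3 := hvm i hi
      rw [hw, E.del_const hi (hpi n)] at h3
      exact (mul_eq_zero.1 h3).resolve_left (hpi0 n)
    have hsw : s = g ^ 2 * w := by
      rw [hw] at h1
      have h3 : (s - g ^ 2 * w) * pi n = 0 := by rw [sub_mul, ← h1]; ring
      exact sub_eq_zero.1 ((mul_eq_zero.1 h3).resolve_right (hpi0 n))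
    set u := c - w * E.z pi n with hu
    have hum : u ∈ E.Ds n := by
      have h3 : u = E.pj n c - w * E.tau' n := by
        rw [hu]
        unfold pj z
        rw [← hv, hw]; ring
      rw [h3]
      exact sub_mem (E.pj_mem hc) (mul_mem hwm (E.tau'_mem n))
    have hgu : g ^ 2 * u = r := by
      rw [hu, mul_sub, hrs, hsw]; ring
    have hdw : ∀ i < n, Prime (pi i) → pi i ∣ g → pi i ∣ w := by
      intro i hi hp hg
      have h3 := hdel i hi.le (hdiv i (by omega) hp hg)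
      rw [hw] at h3
      refine (hp.dvd_or_dvd h3).resolve_left fun h4 => ?_
      rcases hpr n with h | h
      · rw [h] at h4
        exact hp.not_unit (isUnit_of_dvd_one h4)
      · exact hne i n (by omega) hp h (hp.associated_of_dvd h h4)
    have h3 : w ∈ E.Rs pi n := ih w hwm (by rw [← hsw]; exact hs) hdw
    have h4 : u ∈ E.Rs pi n := by
      apply ih u hum (by rw [hgu]; exact hr)
      intro i hi hp hg
      rw [hu]
      exact dvd_sub (hdiv i (by omega) hp hg) (Dvd.dvd.mul_right (hdw i hi hp hg) _)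
    exact ⟨u, h4, w, h3, by rw [hu]; ring⟩

include hpi0 in
theorem mem_R_of_sq_cube (hpr : ∀ n, pi n = 1 ∨ Prime (pi n))
    (hne : ∀ i j, i ≠ j → Prime (pi i) → Prime (pi j) → ¬ Associated (pi i) (pi j)) (c : D)
    (h : c ^ 3 ∈ E.R pi) : c ∈ E.R pi := by
  obtain ⟨n, hn⟩ := h
  obtain ⟨m, hm⟩ := E.fin c
  refine ⟨max n m, E.lemU pi hpi hpi0 hpr hne c _ c (E.Ds_mono (le_max_right n m) hm) ?_
    (fun i _ _ h => h)⟩
  rw [← pow_succ]
  exact E.Rs_mono pi (le_max_left n m) hn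

end main


/-! ### Noetherianity of the constants -/

section noeth

variable [IsNoetherianRing D]

/-- the projection to the constants -/
def rho : ℕ → D → D
  | 0 => fun a => a
  | n + 1 => fun a => rho n (E.pj n a)

theorem pj_add (n : ℕ) (a b : D) : E.pj n (a + b) = E.pj n a + E.pj n b := by
  unfold pj
  rw [map_add]; ring

theorem pj_mul {n : ℕ} {a : D} (ha : a ∈ E.Ds 0) (b : D) : E.pj n (a * b) = a * E.pj n b := by
  unfold pj
  rw [E.del_const (Nat.zero_le n) ha]; ring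

theorem rho_add (n : ℕ) : ∀ a b : D, E.rho n (a + b) = E.rho n a + E.rho n b := by
  induction n with
  | zero => exact fun a b => rfl
  | succ n ih =>
    intro a b
    change E.rho n (E.pj n (a + b)) = _
    rw [pj_add, ih]; rfl

theorem rho_mul {a : D} (ha : a ∈ E.Ds 0) (n : ℕ) : ∀ b : D, E.rho n (a * b) = a * E.rho n b := by
  induction n with
  | zero => exact fun b => rfl
  | succ n ih =>
    intro b
    change E.rho n (E.pj n (a * b)) = _
    rw [E.pj_mul ha, ih]; rfl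

theorem rho_mem (n : ℕ) : ∀ a ∈ E.Ds n, E.rho n a ∈ E.Ds 0 := by
  induction n with
  | zero => exact fun a ha => ha
  | succ n ih => exact fun a ha => ih _ (E.pj_mem ha)

theorem rho_const (n : ℕ) {a : D} (ha : a ∈ E.Ds 0) : E.rho n a = a := by
  induction n with
  | zero => rfl
  | succ n ih =>
    have : E.pj n a = a := by
      unfold pj
      rw [ha n (Nat.zero_le n), mul_zero, sub_zero]
    change E.rho n (E.pj n a) = a
    rw [this, ih]

theorem exists_Ds (s : Finset D) (f : D → D) : ∃ n, ∀ a ∈ s, f a ∈ E.Ds n := by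
  classical
  induction s using Finset.induction_on with
  | empty => exact ⟨0, by simp⟩
  | insert a s _ ih =>
    obtain ⟨n, hn⟩ := ih
    obtain ⟨m, hm⟩ := E.fin (f a)
    refine ⟨max n m, ?_⟩
    intro b hb
    rcases Finset.mem_insert.1 hb with rfl | hb
    · exact E.Ds_mono (le_max_right n m) hm
    · exact E.Ds_mono (le_max_left n m) (hn b hb)

instance noeth_const : IsNoetherianRing (E.Ds 0) := by
  rw [isNoetherianRing_iff_ideal_fg]
  intro I
  -- a finite set of generators of the extended ideal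
  have h1 : (Submodule.span D ((fun a : E.Ds 0 => (a : D)) '' (I : Set (E.Ds 0)))).FG :=
    IsNoetherian.noetherian _
  obtain ⟨t, ht, hts⟩ := (Submodule.fg_span_iff_fg_span_finset_subset _).1 h1
  classical
  have ht' : ∀ a ∈ t, a ∈ E.Ds 0 := by
    intro a ha
    obtain ⟨b, _, rfl⟩ := ht ha
    exact b.2
  have htI : ∀ a (ha : a ∈ t), (⟨a, ht' a ha⟩ : E.Ds 0) ∈ I := by
    intro a ha
    obtain ⟨b, hb, hba⟩ := ht ha
    have : (⟨a, ht' a ha⟩ : E.Ds 0) = b := Subtype.ext hba.symm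
    rw [this]
    exact hb
  refine ⟨t.attach.image fun a => (⟨a.1, ht' a.1 a.2⟩ : E.Ds 0), ?_⟩
  apply le_antisymm
  · rw [Submodule.span_le]
    intro x hx
    rw [SetLike.mem_coe]
    obtain ⟨a, _, rfl⟩ := Finset.mem_image.1 (Finset.mem_coe.1 hx)
    exact htI a.1 a.2
  · intro x hx
    have h2 : (x : D) ∈ Submodule.span D (t : Set D) := by
      rw [← hts]
      exact Submodule.subset_span ⟨x, hx, rfl⟩
    obtain ⟨f, _, hf⟩ := Submodule.mem_span_finset.1 h2
    obtain ⟨n, hn⟩ := E.exists_Ds t f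
    have h3 : ∀ s : Finset D, s ⊆ t → E.rho n (∑ a ∈ s, f a • a) = ∑ a ∈ s, a * E.rho n (f a) := by
      intro s
      induction s using Finset.induction_on with
      | empty =>
        intro _
        rw [Finset.sum_empty, Finset.sum_empty]
        exact E.rho_const n (zero_mem _)
      | insert a s ha ih =>
        intro hs
        rw [Finset.sum_insert ha, Finset.sum_insert ha, E.rho_add, ih (fun b hb => hs
          (Finset.mem_insert_of_mem hb)), smul_eq_mul, mul_comm (f a),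
          E.rho_mul (ht' a (hs (Finset.mem_insert_self a s)))]
    have h4 : (x : D) = ∑ a ∈ t, a * E.rho n (f a) := by
      rw [← h3 t (Finset.Subset.refl t), hf]
      exact (E.rho_const n x.2).symm
    have h5 : x = ∑ a ∈ t.attach, (⟨a.1, ht' a.1 a.2⟩ : E.Ds 0) *
        ⟨E.rho n (f a.1), E.rho_mem n _ (hn a.1 a.2)⟩ := by
      apply Subtype.ext
      rw [h4, ← Finset.sum_attach]
      push_cast
      rfl
    rw [h5]
    apply Submodule.sum_mem
    intro a _
    apply Ideal.mul_mem_right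
    apply Submodule.subset_span
    rw [Finset.mem_coe, Finset.mem_image]
    exact ⟨a, Finset.mem_attach _ _, rfl⟩

variable (pi : ℕ → D)

/-- the rings `R_n` as modules over the constants -/
def RsM (n : ℕ) : Submodule (E.Ds 0) D where
  carrier := {x | x ∈ E.Rs pi n}
  add_mem' := fun {a b} (ha : a ∈ E.Rs pi n) (hb : b ∈ E.Rs pi n) =>
    (add_mem ha hb : a + b ∈ E.Rs pi n)
  zero_mem' := (zero_mem (E.Rs pi n) : (0 : D) ∈ E.Rs pi n)
  smul_mem' := fun c x (hx : x ∈ E.Rs pi n) =>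
    (mul_mem (E.const_le pi n c.2) hx : (c : D) * x ∈ E.Rs pi n)

theorem noeth_RsM (n : ℕ) : IsNoetherian (E.Ds 0) (E.RsM pi n) := by
  induction n with
  | zero =>
    have h : E.RsM pi 0 = LinearMap.range (Algebra.linearMap (E.Ds 0) D) := by
      ext x
      constructor
      · intro hx
        exact ⟨⟨x, hx⟩, rfl⟩
      · rintro ⟨y, rfl⟩
        exact y.2
    rw [h]
    infer_instance
  | succ n ih =>
    have h : E.RsM pi (n + 1) = E.RsM pi n ⊔
        (E.RsM pi n).map (LinearMap.mulRight (E.Ds 0) (E.z pi n)) := by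
      ext x
      rw [Submodule.mem_sup]
      constructor
      · rintro ⟨b, hb, c, hc, rfl⟩
        exact ⟨b, hb, c * E.z pi n, ⟨c, hc, rfl⟩, rfl⟩
      · rintro ⟨b, hb, _, ⟨c, hc, rfl⟩, rfl⟩
        exact ⟨b, hb, c, hc, rfl⟩
    rw [h]
    have : IsNoetherian (E.Ds 0) ((E.RsM pi n).map (LinearMap.mulRight (E.Ds 0) (E.z pi n))) :=
      isNoetherian_of_surjective
        ((LinearMap.mulRight (E.Ds 0) (E.z pi n)).submoduleMap (E.RsM pi n))
        (LinearMap.range_eq_top.2 (LinearMap.submoduleMap_surjective _ _))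
    infer_instance

/-- the ideal of `D` over a prime ideal of `R` -/
def QQ (P : Ideal (E.R pi)) (hP : P.IsPrime) : Ideal D where
  carrier := {d | (⟨d ^ 2, E.sq_mem_R pi d⟩ : E.R pi) ∈ P}
  add_mem' := by
    intro a b ha hb
    have ha' : (⟨a ^ 2, E.sq_mem_R pi a⟩ : E.R pi) ∈ P := ha
    have hb' : (⟨b ^ 2, E.sq_mem_R pi b⟩ : E.R pi) ∈ P := hb
    have h := add_mem ha' hb'
    have h2 : (⟨(a + b) ^ 2, E.sq_mem_R pi (a + b)⟩ : E.R pi) =
      ⟨a ^ 2, E.sq_mem_R pi a⟩ + ⟨b ^ 2, E.sq_mem_R pi b⟩ := Subtype.ext (by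
        change (a + b) ^ 2 = a ^ 2 + b ^ 2
        have : (a + b) ^ 2 = a ^ 2 + b ^ 2 + 2 * (a * b) := by ring
        rw [this, two_eq, zero_mul, add_zero])
    change (⟨(a + b) ^ 2, E.sq_mem_R pi (a + b)⟩ : E.R pi) ∈ P
    rw [h2]
    exact h
  zero_mem' := by
    have h2 : (⟨(0 : D) ^ 2, E.sq_mem_R pi 0⟩ : E.R pi) = 0 := Subtype.ext (by
      change (0 : D) ^ 2 = 0
      ring)
    change (⟨(0 : D) ^ 2, E.sq_mem_R pi 0⟩ : E.R pi) ∈ P
    rw [h2]
    exact zero_mem _
  smul_mem' := by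
    intro c x hx
    have h2 : (⟨(c * x) ^ 2, E.sq_mem_R pi (c * x)⟩ : E.R pi) =
      ⟨c ^ 2, E.sq_mem_R pi c⟩ * ⟨x ^ 2, E.sq_mem_R pi x⟩ := Subtype.ext (mul_pow c x 2)
    change (⟨(c * x) ^ 2, E.sq_mem_R pi (c * x)⟩ : E.R pi) ∈ P
    rw [h2]
    have hx' : (⟨x ^ 2, E.sq_mem_R pi x⟩ : E.R pi) ∈ P := hx
    exact Ideal.mul_mem_left _ _ hx'

theorem mem_QQ {P : Ideal (E.R pi)} {hP : P.IsPrime} {d : D} : d ∈ E.QQ pi P hP ↔
    (⟨d ^ 2, E.sq_mem_R pi d⟩ : E.R pi) ∈ P := Iff.rfl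

theorem mem_QQ_iff {P : Ideal (E.R pi)} {hP : P.IsPrime} (d : E.R pi) :
    (d : D) ∈ E.QQ pi P hP ↔ d ∈ P := by
  rw [mem_QQ]
  have : (⟨(d : D) ^ 2, E.sq_mem_R pi d⟩ : E.R pi) = d ^ 2 := Subtype.ext rfl
  rw [this]
  exact ⟨fun h => hP.mem_of_pow_mem 2 h, fun h => Ideal.pow_mem_of_mem _ h 2 (by norm_num)⟩

theorem QQ_prime (P : Ideal (E.R pi)) (hP : P.IsPrime) : (E.QQ pi P hP).IsPrime := by
  constructor
  · rw [Ne, Ideal.eq_top_iff_one]
    intro h
    have h1 := (E.mem_QQ_iff pi (hP := hP) (1 : E.R pi)).1 h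
    exact hP.ne_top ((Ideal.eq_top_iff_one _).2 h1)
  · intro a b hab
    rw [mem_QQ] at hab ⊢
    rw [mem_QQ]
    have h2 : (⟨(a * b) ^ 2, E.sq_mem_R pi (a * b)⟩ : E.R pi) =
      ⟨a ^ 2, E.sq_mem_R pi a⟩ * ⟨b ^ 2, E.sq_mem_R pi b⟩ := Subtype.ext (mul_pow a b 2)
    rw [h2] at hab
    exact hP.mem_or_mem hab

variable (hpi : ∀ n, pi n ∈ E.Ds n)

include hpi

/-- prime ideals are finitely generated, given a suitable index -/
theorem fg_of_index (P : Ideal (E.R pi)) (hP : P.IsPrime) (j : ℕ) (hj : pi j ∈ E.QQ pi P hP)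
    (hd : ∀ f ∈ E.QQ pi P hP, ∀ i, j ≤ i → E.del i f ∈ E.QQ pi P hP) : P.FG := by
  classical
  have hn := E.noeth_RsM pi (j + 1)
  -- the part of `P` in `R_j`
  let N : Submodule (E.Ds 0) D :=
    { carrier := {x | x ∈ E.Rs pi (j + 1) ∧ x ∈ E.QQ pi P hP}
      add_mem' := fun ha hb => ⟨add_mem ha.1 hb.1, add_mem ha.2 hb.2⟩
      zero_mem' := ⟨zero_mem _, zero_mem _⟩
      smul_mem' := fun c x hx => ⟨mul_mem (E.const_le pi _ c.2) hx.1, Ideal.mul_mem_left _ _ hx.2⟩ }
  have hN : N.FG := by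
    have h1 : (N.comap (E.RsM pi (j + 1)).subtype).FG := IsNoetherian.noetherian _
    have h2 := h1.map (E.RsM pi (j + 1)).subtype
    rw [Submodule.map_comap_subtype] at h2
    have h3 : E.RsM pi (j + 1) ⊓ N = N := inf_eq_right.2 fun x hx => hx.1
    rwa [h3] at h2
  obtain ⟨t, ht⟩ := hN
  have htN : ∀ a ∈ t, a ∈ N := fun a ha => by
    rw [← ht]
    exact Submodule.subset_span ha
  let t' : Finset (E.R pi) := t.attach.image fun a => ⟨a.1, E.Rs_le_R pi _ (htN a.1 a.2).1⟩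
  refine ⟨t', ?_⟩
  have hbase : ∀ x (hx : x ∈ N), (⟨x, E.Rs_le_R pi _ hx.1⟩ : E.R pi) ∈
      Ideal.span (t' : Set (E.R pi)) := by
    intro x hx
    have hx' := hx
    rw [← ht] at hx'
    obtain ⟨f, _, hf⟩ := Submodule.mem_span_finset.1 hx'
    have h5 : (⟨x, E.Rs_le_R pi _ hx.1⟩ : E.R pi) = ∑ a ∈ t.attach,
        (⟨f a.1, E.Rs_le_R pi 0 (f a.1).2⟩ : E.R pi) * ⟨a.1, E.Rs_le_R pi _ (htN a.1 a.2).1⟩ := by
      apply Subtype.ext
      change x = _
      rw [← hf, ← Finset.sum_attach]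
      push_cast
      rfl
    rw [h5]
    apply Submodule.sum_mem
    intro a _
    apply Ideal.mul_mem_left
    apply Submodule.subset_span
    rw [Finset.mem_coe, Finset.mem_image]
    exact ⟨a, Finset.mem_attach _ _, rfl⟩
  apply le_antisymm
  · rw [Submodule.span_le]
    intro x hx
    obtain ⟨a, _, rfl⟩ := Finset.mem_image.1 (Finset.mem_coe.1 hx)
    exact (E.mem_QQ_iff pi (hP := hP) _).1 (htN a.1 a.2).2
  · have key : ∀ m, j + 1 ≤ m → ∀ x (hx : x ∈ E.Rs pi m), x ∈ E.QQ pi P hP →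
        (⟨x, E.Rs_le_R pi _ hx⟩ : E.R pi) ∈ Ideal.span (t' : Set (E.R pi)) := by
      intro m hm
      induction m, hm using Nat.le_induction with
      | base => exact fun x hx hxQ => hbase x ⟨hx, hxQ⟩
      | succ m hm ih =>
        intro x hx hxQ
        obtain ⟨b, hb, c, hc, hbc⟩ := id hx
        obtain ⟨m', rfl⟩ := Nat.exists_eq_succ_of_ne_zero (show m ≠ 0 by omega)
        have hcQ : c ∈ E.QQ pi P hP := by
          apply E.lemN pi hpi _ (E.QQ_prime pi P hP) j hj hd m' (by omega) b hb c hc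
          rw [← hbc]
          exact hxQ
        have hbQ : b ∈ E.QQ pi P hP := by
          have : b = x - c * E.z pi (m' + 1) := by rw [hbc]; ring
          rw [this]
          exact sub_mem hxQ (Ideal.mul_mem_right _ _ hcQ)
        have h5 : (⟨x, E.Rs_le_R pi _ hx⟩ : E.R pi) = ⟨b, E.Rs_le_R pi _ hb⟩ +
            ⟨E.z pi (m' + 1), E.Rs_le_R pi _ (E.z_mem_Rs pi _)⟩ * ⟨c, E.Rs_le_R pi _ hc⟩ := by
          apply Subtype.ext
          change x = b + E.z pi (m' + 1) * c
          rw [hbc]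
          have : (m'.succ) = m' + 1 := rfl
          rw [mul_comm (E.z pi (m' + 1))]
        rw [h5]
        exact add_mem (ih b hb hbQ) (Ideal.mul_mem_left _ _ (ih c hc hcQ))
    intro x hx
    obtain ⟨n, hn⟩ := x.2
    exact key (max n (j + 1)) (le_max_right _ _) x.1 (E.Rs_mono pi (le_max_left _ _) hn)
      ((E.mem_QQ_iff pi (hP := hP) x).2 hx)

omit hpi in
/-- the derivations of large index preserve a given ideal -/
theorem del_ideal (Q : Ideal D) : ∃ N, ∀ f ∈ Q, ∀ i, N ≤ i → E.del i f ∈ Q := by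
  obtain ⟨s, hs⟩ := IsNoetherian.noetherian Q
  obtain ⟨n, hn⟩ := E.exists_Ds s id
  refine ⟨n, fun f hf i hi => ?_⟩
  rw [← hs] at hf
  obtain ⟨g, _, hg⟩ := Submodule.mem_span_finset.1 hf
  rw [← hg, map_sum]
  apply Submodule.sum_mem
  intro a ha
  have hn' : a ∈ E.Ds n := hn a ha
  rw [smul_eq_mul, mul_comm, E.del_const hi hn']
  apply Ideal.mul_mem_right
  rw [← hs]
  exact Submodule.subset_span ha

omit hpi in
theorem del_principal {j : ℕ} {p : D} (hp : p ∈ E.Ds j) : ∀ f ∈ Ideal.span {p}, ∀ i, j ≤ i →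
    E.del i f ∈ Ideal.span {p} := by
  intro f hf i hi
  obtain ⟨a, rfl⟩ := Ideal.mem_span_singleton.1 hf
  rw [E.del_const hi hp]
  exact Ideal.mul_mem_right _ _ (Ideal.mem_span_singleton_self _)

end noeth


/-! ### the enumeration of the primes -/

section enum

variable [UniqueFactorizationMonoid D] [Countable D]

theorem exists_pi : ∃ pi : ℕ → D, (∀ n, pi n ∈ E.Ds n) ∧ (∀ n, pi n ≠ 0) ∧
    (∀ n, pi n = 1 ∨ Prime (pi n)) ∧
    (∀ i j, i ≠ j → Prime (pi i) → Prime (pi j) → ¬ Associated (pi i) (pi j)) ∧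
    ∀ p, Prime p → ∃ n, Associated p (pi n) := by
  classical
  have : Countable (Associates D) := Quotient.countable
  obtain ⟨enc, henc⟩ := exists_injective_nat (Associates D)
  let r : Associates D → D := fun c => Quot.out c
  have hr : ∀ c, Associates.mk (r c) = c := fun c => Quot.out_eq c
  choose N hN using fun c => E.fin (r c)
  let cd : Associates D → ℕ := fun c => Nat.pair (enc c) (N c)
  have hcd : Function.Injective cd := fun a b hab => henc (Nat.pair_eq_pair.1 hab).1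
  have hcdN : ∀ c, N c ≤ cd c := fun c => Nat.right_le_pair _ _
  let pi : ℕ → D := fun n => if h : ∃ c, Prime (r c) ∧ cd c = n then r h.choose else 1
  have hpi : ∀ n, pi n = 1 ∨ ∃ c, Prime (r c) ∧ cd c = n ∧ pi n = r c := by
    intro n
    by_cases h : ∃ c, Prime (r c) ∧ cd c = n
    · right
      refine ⟨h.choose, h.choose_spec.1, h.choose_spec.2, ?_⟩
      simp only [pi]
      rw [dif_pos h]
    · left
      simp only [pi]
      rw [dif_neg h]
  refine ⟨pi, ?_, ?_, ?_, ?_, ?_⟩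
  · intro n
    rcases hpi n with h | ⟨c, _, hc, h⟩
    · rw [h]; exact one_mem _
    · rw [h]
      exact E.Ds_mono ((hcdN c).trans hc.le) (hN c)
  · intro n
    rcases hpi n with h | ⟨c, hp, _, h⟩
    · rw [h]; exact one_ne_zero
    · rw [h]; exact hp.ne_zero
  · intro n
    rcases hpi n with h | ⟨c, hp, _, h⟩
    · exact Or.inl h
    · right
      rw [h]; exact hp
  · intro i j hij hi hj ha
    rcases hpi i with h | ⟨c, _, hc, h⟩
    · rw [h] at hi
      exact hi.not_unit isUnit_one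
    rcases hpi j with h' | ⟨c', _, hc', h'⟩
    · rw [h'] at hj
      exact hj.not_unit isUnit_one
    rw [h, h'] at ha
    have h2 : c = c' := by
      rw [← hr c, ← hr c']
      exact Associates.mk_eq_mk_iff_associated.2 ha
    apply hij
    rw [← hc, ← hc', h2]
  · intro p hp
    have h1 : Associated p (r (Associates.mk p)) :=
      Associates.mk_eq_mk_iff_associated.1 (hr (Associates.mk p)).symm
    have h2 : Prime (r (Associates.mk p)) := h1.prime hp
    refine ⟨cd (Associates.mk p), ?_⟩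
    have h3 : ∃ c, Prime (r c) ∧ cd c = cd (Associates.mk p) := ⟨_, h2, rfl⟩
    have h4 : pi (cd (Associates.mk p)) = r h3.choose := by
      simp only [pi]
      rw [dif_pos h3]
    rw [h4, hcd h3.choose_spec.2]
    exact h1

end enum

section final

variable [UniqueFactorizationMonoid D] [IsNoetherianRing D] (pi : ℕ → D)
  (hpi : ∀ n, pi n ∈ E.Ds n) (hpi0 : ∀ n, pi n ≠ 0) (hpr : ∀ n, pi n = 1 ∨ Prime (pi n))
  (hne : ∀ i j, i ≠ j → Prime (pi i) → Prime (pi j) → ¬ Associated (pi i) (pi j))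
  (hall : ∀ p, Prime p → ∃ n, Associated p (pi n))

include hpi hpr hall in
theorem exists_index (Q : Ideal D) (hQ : Q.IsPrime) (hQ0 : Q ≠ ⊥) :
    ∃ j, pi j ∈ Q ∧ ∀ f ∈ Q, ∀ i, j ≤ i → E.del i f ∈ Q := by
  classical
  obtain ⟨N, hN⟩ := E.del_ideal Q
  by_cases hex : ∃ j, N ≤ j ∧ pi j ∈ Q
  · obtain ⟨j, hj, hjQ⟩ := hex
    exact ⟨j, hjQ, fun f hf i hi => hN f hf i (hj.trans hi)⟩
  push Not at hex
  have hprime : ∀ j, pi j ∈ Q → Prime (pi j) := by
    intro j hj
    refine (hpr j).resolve_left fun h => ?_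
    rw [h] at hj
    exact hQ.ne_top ((Ideal.eq_top_iff_one _).2 hj)
  have hfac : ∀ q ∈ Q, q ≠ 0 → ∃ j, pi j ∈ Q ∧ pi j ∣ q := by
    intro q hq hq0
    obtain ⟨s, hs, hsq⟩ := UniqueFactorizationMonoid.exists_prime_factors q hq0
    have h1 : s.prod ∈ Q := by
      obtain ⟨u, hu⟩ := hsq.symm
      rw [← hu]
      exact Ideal.mul_mem_right _ _ hq
    obtain ⟨p, hp, hpQ⟩ := (hQ.multiset_prod_mem_iff_exists_mem s).1 h1
    obtain ⟨n, hn⟩ := hall p (hs p hp)
    refine ⟨n, ?_, ?_⟩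
    · obtain ⟨u, hu⟩ := hn
      rw [← hu]
      exact Ideal.mul_mem_right _ _ hpQ
    · exact (hn.dvd_iff_dvd_left.1 ((Multiset.dvd_prod hp).trans hsq.dvd))
  let T : Finset ℕ := (Finset.range N).filter fun j => pi j ∈ Q
  have hT : ∀ j, pi j ∈ Q → j ∈ T := by
    intro j hj
    rw [Finset.mem_filter, Finset.mem_range]
    refine ⟨?_, hj⟩
    by_contra h
    exact hex j (not_lt.1 h) hj
  have hcov : (Q : Set D) ⊆ ⋃ j ∈ (T : Set ℕ), (Ideal.span {pi j} : Ideal D) := by
    intro q hq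
    rw [Set.mem_iUnion₂]
    by_cases hq0 : q = 0
    · obtain ⟨q', hq', hq0'⟩ := Submodule.exists_mem_ne_zero_of_ne_bot hQ0
      obtain ⟨j, hj, _⟩ := hfac q' hq' hq0'
      refine ⟨j, hT j hj, ?_⟩
      rw [hq0]
      exact zero_mem _
    · obtain ⟨j, hj, hjq⟩ := hfac q hq hq0
      exact ⟨j, hT j hj, Ideal.mem_span_singleton.2 hjq⟩
  obtain ⟨j, hj, hjQ⟩ := (Ideal.subset_union_prime 0 0 (fun i hi _ _ =>
    (Ideal.span_singleton_prime (hprime i (Finset.mem_filter.1 hi).2).ne_zero).2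
      (hprime i (Finset.mem_filter.1 hi).2))).1 hcov
  have hjQ' : pi j ∈ Q := (Finset.mem_filter.1 hj).2
  have hQe : Q = Ideal.span {pi j} := le_antisymm hjQ
    ((Ideal.span_singleton_le_iff_mem _).2 hjQ')
  refine ⟨j, hjQ', ?_⟩
  rw [hQe]
  exact E.del_principal (hpi j)

include hpi hpr hall in
theorem noetherian : IsNoetherianRing (E.R pi) := by
  apply IsNoetherianRing.of_prime_ne_bot
  intro P hP hP0
  have hQ0 : E.QQ pi P hP ≠ ⊥ := by
    obtain ⟨x, hx, hx0⟩ := Submodule.exists_mem_ne_zero_of_ne_bot hP0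
    intro h
    have h1 := (E.mem_QQ_iff pi (hP := hP) x).2 hx
    rw [h, Ideal.mem_bot] at h1
    exact hx0 (Subtype.ext h1)
  obtain ⟨j, hj, hd⟩ := E.exists_index pi hpi hpr hall _ (E.QQ_prime pi P hP) hQ0
  exact E.fg_of_index pi hpi P hP j hj hd

/-- the spectra agree -/
def specIso : PrimeSpectrum D ≃o PrimeSpectrum (E.R pi) where
  toFun Q := ⟨Q.asIdeal.comap (E.R pi).subtype, Q.isPrime.comap _⟩
  invFun P := ⟨E.QQ pi P.asIdeal P.isPrime, E.QQ_prime pi _ _⟩
  left_inv Q := by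
    apply PrimeSpectrum.ext
    ext d
    change d ^ 2 ∈ Q.asIdeal ↔ _
    exact ⟨fun h => Q.isPrime.mem_of_pow_mem 2 h, fun h => Ideal.pow_mem_of_mem _ h 2 (by norm_num)⟩
  right_inv P := by
    apply PrimeSpectrum.ext
    ext d
    exact E.mem_QQ_iff pi (hP := P.isPrime) d
  map_rel_iff' := by
    intro Q Q'
    constructor
    · intro h d hd
      have h1 : (⟨d ^ 2, E.sq_mem_R pi d⟩ : E.R pi) ∈ Q.asIdeal.comap (E.R pi).subtype :=
        Ideal.pow_mem_of_mem _ hd 2 (by norm_num)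
      have h2 : d ^ 2 ∈ Q'.asIdeal := h h1
      exact Q'.isPrime.mem_of_pow_mem 2 h2
    · intro h d hd
      exact h hd

theorem krullDim_eq : ringKrullDim (E.R pi) = ringKrullDim D :=
  (Order.krullDim_eq_of_orderIso (E.specIso pi)).symm

include hpi hpi0 in
/-- every element of `D` has a nonzero multiple in `R` -/
theorem exists_mul (n : ℕ) : ∀ d ∈ E.Ds n, ∃ r ∈ E.R pi, r ≠ 0 ∧ r * d ∈ E.R pi := by
  induction n with
  | zero => exact fun d hd => ⟨1, one_mem _, one_ne_zero, by rw [one_mul]; exact E.Rs_le_R pi 0 hd⟩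
  | succ n ih =>
    intro d hd
    obtain ⟨r1, hr1, hr10, h1⟩ := ih _ (hpi n)
    obtain ⟨r2, hr2, hr20, h2⟩ := ih _ (E.tau'_mem n)
    obtain ⟨r3, hr3, hr30, h3⟩ := ih _ (E.pj_mem hd)
    obtain ⟨r4, hr4, hr40, h4⟩ := ih _ (E.del_mem hd)
    -- the multiple of `τ_n`
    have h5 : (r1 * pi n * r2) * E.tau n ∈ E.R pi := by
      have : (r1 * pi n * r2) * E.tau n = r1 * r2 * E.z pi n - r1 * (r2 * E.tau' n) := by
        unfold z; ring
      rw [this]
      exact sub_mem (mul_mem (mul_mem hr1 hr2) (E.Rs_le_R pi _ (E.z_mem_Rs pi n)))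
        (mul_mem hr1 h2)
    refine ⟨(r1 * pi n * r2) * r3 * r4, mul_mem (mul_mem (mul_mem h1 hr2) hr3) hr4,
      mul_ne_zero (mul_ne_zero (mul_ne_zero (mul_ne_zero hr10 (hpi0 n)) hr20) hr30) hr40, ?_⟩
    have : (r1 * pi n * r2) * r3 * r4 * d = (r1 * pi n * r2) * r4 * (r3 * E.pj n d) +
        ((r1 * pi n * r2) * E.tau n) * (r4 * E.del n d) * r3 := by
      unfold pj; ring
    rw [this]
    exact add_mem (mul_mem (mul_mem (mul_mem h1 hr2) hr4) h3) (mul_mem (mul_mem h5 h4) hr3)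

include hpi hpi0 in
theorem exists_mul' (d : D) : ∃ r ∈ E.R pi, r ≠ 0 ∧ r * d ∈ E.R pi := by
  obtain ⟨n, hn⟩ := E.fin d
  exact E.exists_mul pi hpi hpi0 n d hn

include hpi hpi0 hpr hne in
/-- seminormality -/
theorem seminormal (x : FractionRing (E.R pi))
    (h2 : x ^ 2 ∈ Set.range (algebraMap (E.R pi) (FractionRing (E.R pi))))
    (h3 : x ^ 3 ∈ Set.range (algebraMap (E.R pi) (FractionRing (E.R pi)))) :
    x ∈ Set.range (algebraMap (E.R pi) (FractionRing (E.R pi))) := by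
  obtain ⟨a, ha⟩ := h2
  obtain ⟨b, hb⟩ := h3
  by_cases hx : x = 0
  · exact ⟨0, by rw [map_zero, hx]⟩
  have hinj := IsFractionRing.injective (E.R pi) (FractionRing (E.R pi))
  have hab : a ^ 3 = b ^ 2 := by
    apply hinj
    rw [map_pow, map_pow, ha, hb]; ring
  have hab' : (a : D) ^ 3 = (b : D) ^ 2 := congrArg Subtype.val hab
  have ha0 : (a : D) ≠ 0 := by
    intro h
    have h0 : a = 0 := Subtype.ext h
    rw [h0, map_zero] at ha
    exact hx (eq_zero_of_pow_eq_zero ha.symm)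
  have hdvd : (a : D) ^ 2 ∣ (b : D) ^ 2 := ⟨a, by rw [← hab']; ring⟩
  have hdvd' : (a : D) ∣ (b : D) := (IsIntegrallyClosed.pow_dvd_pow_iff (by norm_num)).1 hdvd
  obtain ⟨d, hd⟩ := hdvd'
  have h4 : (a : D) = d ^ 2 := by
    have : (a : D) ^ 2 * (a - d ^ 2) = 0 := by
      rw [hd] at hab'
      linear_combination hab'
    exact sub_eq_zero.1 ((mul_eq_zero.1 this).resolve_left (pow_ne_zero _ ha0))
  have h5 : d ^ 3 ∈ E.R pi := by
    have : d ^ 3 = (b : D) := by rw [hd, h4]; ring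
    rw [this]
    exact b.2
  have h6 := E.mem_R_of_sq_cube pi hpi hpi0 hpr hne d h5
  refine ⟨⟨d, h6⟩, ?_⟩
  have h7 : b = a * ⟨d, h6⟩ := Subtype.ext hd
  have h8 : algebraMap (E.R pi) (FractionRing (E.R pi)) a ≠ 0 := by
    rw [ha]; exact pow_ne_zero _ hx
  apply mul_left_cancel₀ h8
  rw [← map_mul, ← h7, hb, ha]; ring

/-- the `R`-module `R^n / R` -/
abbrev quotMod (R : Type) [CommRing R] [IsDomain R] : Type :=
  (integralClosure R (FractionRing R)) ⧸
    LinearMap.range (Algebra.linearMap R (integralClosure R (FractionRing R)))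

include hpi hpi0 hpr hne hall in
/-- height one primes are associated -/
theorem assoc (P : Ideal (E.R pi)) (hP : P.IsPrime) (hP1 : P.height = 1) :
    ∃ m : quotMod (E.R pi), ∀ r : E.R pi, r ∈ P ↔ r • m = 0 := by
  have hnoeth := E.noetherian pi hpi hpr hall
  have hP0 : P ≠ ⊥ := Ideal.ne_bot_of_height_eq_one hP1
  have hQp := E.QQ_prime pi P hP
  have hQ0 : E.QQ pi P hP ≠ ⊥ := by
    obtain ⟨x, hx, hx0⟩ := Submodule.exists_mem_ne_zero_of_ne_bot hP0
    intro h
    have h1 := (E.mem_QQ_iff pi (hP := hP) x).2 hx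
    rw [h, Ideal.mem_bot] at h1
    exact hx0 (Subtype.ext h1)
  obtain ⟨p, hpQ, hp⟩ := hQp.exists_mem_prime_of_ne_bot hQ0
  obtain ⟨j, hj⟩ := hall p hp
  have hjp : Prime (pi j) := hj.prime hp
  have hjQ : pi j ∈ E.QQ pi P hP := by
    obtain ⟨u, hu⟩ := hj
    rw [← hu]
    exact Ideal.mul_mem_right _ _ hpQ
  -- primes contained in `P`
  have hmin : ∀ P' : Ideal (E.R pi), P'.IsPrime → P' ≤ P → P' ≠ ⊥ → P' = P := by
    intro P' hP' hle hne'
    by_contra hPP
    have hlt : P' < P := lt_of_le_of_ne hle hPP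
    have h1 := Ideal.height_add_one_le_of_lt_of_isPrime hlt
    rw [hP1] at h1
    have h2 : P'.height ≠ 0 := fun h => hne' (Ideal.height_eq_zero_iff_eq_bot.1 h)
    have h3 : (1 : ℕ∞) ≤ P'.height := Order.one_le_iff_ne_zero.2 h2
    have h4 : (1 : ℕ∞) + 1 ≤ 1 := (add_le_add_left h3 1).trans h1
    exact absurd h4 (by decide)
  -- `Q` is generated by `π_j`
  have hspan : (Ideal.span {pi j}).IsPrime := (Ideal.span_singleton_prime hjp.ne_zero).2 hjp
  have hP2 : (Ideal.span {pi j}).comap (E.R pi).subtype = P := by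
    apply hmin _ (hspan.comap _)
    · intro x hx
      rw [← E.mem_QQ_iff pi (hP := hP) x]
      exact (Ideal.span_singleton_le_iff_mem _).2 hjQ hx
    · intro h
      have h1 : (⟨pi j ^ 2, E.sq_mem_R pi _⟩ : E.R pi) ∈
          (Ideal.span {pi j}).comap (E.R pi).subtype := by
        change pi j ^ 2 ∈ Ideal.span {pi j}
        exact Ideal.pow_mem_of_mem _ (Ideal.mem_span_singleton_self _) 2 (by norm_num)
      rw [h, Ideal.mem_bot] at h1
      exact pow_ne_zero 2 hjp.ne_zero (congrArg Subtype.val h1)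
  have hQs : E.QQ pi P hP = Ideal.span {pi j} := by
    ext d
    rw [E.mem_QQ, ← hP2]
    change d ^ 2 ∈ Ideal.span {pi j} ↔ _
    exact ⟨fun h => hspan.mem_of_pow_mem 2 h, fun h => Ideal.pow_mem_of_mem _ h 2 (by norm_num)⟩
  -- the element `τ_j` of the normalization
  obtain ⟨s, hs, hs0, hst⟩ := E.exists_mul' pi hpi hpi0 (E.tau j)
  let F := FractionRing (E.R pi)
  have hinj := IsFractionRing.injective (E.R pi) F
  let s' : E.R pi := ⟨s, hs⟩
  let t' : E.R pi := ⟨s * E.tau j, hst⟩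
  have hs'0 : algebraMap (E.R pi) F s' ≠ 0 := by
    intro h
    rw [← map_zero (algebraMap (E.R pi) F)] at h
    exact hs0 (congrArg Subtype.val (hinj h))
  let x : F := algebraMap (E.R pi) F t' / algebraMap (E.R pi) F s'
  have hx2 : x ^ 2 = algebraMap (E.R pi) F ⟨E.tau j ^ 2, E.sq_mem_R pi _⟩ := by
    change (algebraMap (E.R pi) F t' / algebraMap (E.R pi) F s') ^ 2 = _
    rw [div_pow, div_eq_iff (pow_ne_zero _ hs'0), ← map_pow, ← map_pow, ← map_mul]
    congr 1
    apply Subtype.ext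
    change (s * E.tau j) ^ 2 = E.tau j ^ 2 * s ^ 2
    ring
  have hxint : IsIntegral (E.R pi) x := by
    apply IsIntegral.of_pow (n := 2) (by norm_num)
    rw [hx2]
    exact isIntegral_algebraMap
  let M := integralClosure (E.R pi) F
  let N : Submodule (E.R pi) M := LinearMap.range (Algebra.linearMap (E.R pi) M)
  let xM : M := ⟨x, hxint⟩
  -- the conductor of `τ_j`
  have hcol : ∀ r : E.R pi, r ∈ N.colon {xM} ↔ (r : D) * E.tau j ∈ E.R pi := by
    intro r
    rw [Submodule.mem_colon_singleton]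
    constructor
    · rintro ⟨c, hc⟩
      have h1 : algebraMap (E.R pi) F c = algebraMap (E.R pi) F r * x := by
        have := congrArg Subtype.val hc
        rw [Algebra.smul_def] at this
        exact this
      have h2 : algebraMap (E.R pi) F (c * s') = algebraMap (E.R pi) F (r * t') := by
        rw [map_mul, map_mul, h1, mul_assoc]
        congr 1
        exact div_mul_cancel₀ _ hs'0
      have h3 : (c : D) * s = r * (s * E.tau j) := congrArg Subtype.val (hinj h2)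
      have h4 : (r : D) * E.tau j = c := by
        apply mul_right_cancel₀ hs0
        rw [h3]; ring
      rw [h4]
      exact c.2
    · intro h
      refine ⟨⟨(r : D) * E.tau j, h⟩, ?_⟩
      apply Subtype.ext
      rw [Algebra.smul_def]
      change algebraMap (E.R pi) F ⟨(r : D) * E.tau j, h⟩ = algebraMap (E.R pi) F r *
        (algebraMap (E.R pi) F t' / algebraMap (E.R pi) F s')
      rw [← mul_div_assoc, eq_div_iff hs'0, ← map_mul, ← map_mul]
      congr 1
      apply Subtype.ext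
      change (r : D) * E.tau j * s = r * (s * E.tau j)
      ring
  have hle : N.colon {xM} ≤ P := by
    intro r hr
    rw [hcol] at hr
    by_contra hrP
    have h1 : (r : D) ^ 2 * E.tau j ∈ E.R pi := by
      have : (r : D) ^ 2 * E.tau j = r * (r * E.tau j) := by ring
      rw [this]
      exact mul_mem r.2 hr
    obtain ⟨m, hm⟩ := h1
    have h2 : (r : D) ^ 2 * E.tau j ∈ E.Ds (j + 1) :=
      mul_mem (E.Ds_mono (Nat.zero_le _) (E.sq_mem _)) (E.tau_mem j)
    have h3 : (r : D) ^ 2 * E.tau j ∈ E.Rs pi (j + 1) :=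
      E.Rs_inter pi hpi (le_max_left (j + 1) m) (E.Rs_mono pi (le_max_right (j + 1) m) hm) h2 hpi0
    have h4 : (r : D) ^ 2 ∈ Ideal.span {pi j} := by
      apply E.lemM pi hpi _ hspan j (Ideal.mem_span_singleton_self _) (E.del_principal (hpi j)) j
        le_rfl _ h3 _ (E.const_le pi _ (E.sq_mem _))
      rw [E.add_self'_of]
      exact zero_mem _
    apply hrP
    rw [← E.mem_QQ_iff pi (hP := hP), hQs]
    exact hspan.mem_of_pow_mem 2 h4
  have hmem : P ∈ (N.colon {xM}).minimalPrimes := by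
    refine ⟨⟨hP, hle⟩, ?_⟩
    rintro P' ⟨hP', hle'⟩ hP'P
    rw [hmin P' hP' hP'P]
    intro h
    have h1 : s' ∈ N.colon {xM} := (hcol s').2 hst
    have h2 := hle' h1
    rw [h, Ideal.mem_bot] at h2
    exact hs0 (congrArg Subtype.val h2)
  obtain ⟨y, hy⟩ := Submodule.exists_eq_colon_of_mem_minimalPrimes hmem
  refine ⟨Submodule.Quotient.mk y, fun r => ?_⟩
  rw [hy, Submodule.mem_colon_singleton, ← Submodule.Quotient.mk_smul,
    Submodule.Quotient.mk_eq_zero]

end final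

end Tau

end Pool.Agent.X276.Semi
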