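import Pool.Agent.X276.Localizing

set_option autoImplicit false

universe w

open CategoryTheory CategoryTheory.Limits

noncomputable section

namespace Pool.Agent.X276.Derived

section residue

variable {R : Type} [CommRing R] (p : Ideal R) [p.IsPrime]

/-- the map `R / p → L` given by an element killed by `p` -/
def spanMap (L : Type) [AddCommGroup L] [Module R L] (e : L) (h1 : ∀ r : R, r • e = 0 ↔ r ∈ p) :
    (R ⧸ p) →ₗ[R] L :=
  Submodule.liftQ p (LinearMap.toSpanSingleton R L e) fun r hr => (h1 r).2 hr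

theorem spanMap_loc (L : Type) [AddCommGroup L] [Module R L] (e : L)
    (h1 : ∀ r : R, r • e = 0 ↔ r ∈ p) (h2 : ∀ s : R, s ∉ p → ∀ l : L, s • l = 0 → l = 0)
    (h2' : ∀ s : R, s ∉ p → ∀ l : L, ∃ l', s • l' = l)
    (h3 : ∀ l : L, ∃ s r : R, s ∉ p ∧ s • l = r • e) :
    IsLocalizedModule p.primeCompl (spanMap p L e h1) where
  map_units s := by
    rw [Module.End.isUnit_iff]
    constructor
    · rw [injective_iff_map_eq_zero]
      exact fun l hl => h2 s s.2 l hl
    · exact fun l => h2' s s.2 l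
  surj y := by
    obtain ⟨s, r, hs, h⟩ := h3 y
    exact ⟨(Submodule.Quotient.mk r, ⟨s, hs⟩), h⟩
  exists_of_eq := by
    intro a b hab
    obtain ⟨a, rfl⟩ := Submodule.Quotient.mk_surjective _ a
    obtain ⟨b, rfl⟩ := Submodule.Quotient.mk_surjective _ b
    have h : a • e = b • e := hab
    refine ⟨1, ?_⟩
    rw [one_smul, one_smul, Submodule.Quotient.eq, ← h1, sub_smul, h, sub_self]

theorem residue_equiv (L : Type) [AddCommGroup L] [Module R L] (e : L)
    (h1 : ∀ r : R, r • e = 0 ↔ r ∈ p) (h2 : ∀ s : R, s ∉ p → ∀ l : L, s • l = 0 → l = 0)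
    (h2' : ∀ s : R, s ∉ p → ∀ l : L, ∃ l', s • l' = l)
    (h3 : ∀ l : L, ∃ s r : R, s ∉ p ∧ s • l = r • e) :
    Nonempty (p.ResidueField ≃ₗ[R] L) := by
  have g1 : ∀ r : R, r • (1 : p.ResidueField) = 0 ↔ r ∈ p := by
    intro r
    rw [← Algebra.algebraMap_eq_smul_one, Ideal.algebraMap_residueField_eq_zero]
  have gs : ∀ s : R, s ∉ p → algebraMap R p.ResidueField s ≠ 0 := fun s hs h =>
    hs (Ideal.algebraMap_residueField_eq_zero.1 h)
  have A := spanMap_loc p p.ResidueField 1 g1 (fun s hs l hl => by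
      rw [Algebra.smul_def] at hl
      exact (mul_eq_zero.1 hl).resolve_left (gs s hs))
    (fun s hs l => ⟨(algebraMap R p.ResidueField s)⁻¹ * l, by
      rw [Algebra.smul_def, mul_inv_cancel_left₀ (gs s hs)]⟩)
    (fun l => by
      obtain ⟨a, b, hb, rfl⟩ := IsFractionRing.div_surjective (A := R ⧸ p) l
      obtain ⟨a, rfl⟩ := Ideal.Quotient.mk_surjective a
      obtain ⟨b, rfl⟩ := Ideal.Quotient.mk_surjective b
      have hb' : b ∉ p := by
        intro h
        rw [Ideal.Quotient.eq_zero_iff_mem.2 h] at hb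
        exact nonZeroDivisors.ne_zero hb rfl
      refine ⟨b, a, hb', ?_⟩
      have h4 : ∀ r : R, algebraMap (R ⧸ p) p.ResidueField (Ideal.Quotient.mk p r) =
        algebraMap R p.ResidueField r := fun r => rfl
      rw [h4, h4, Algebra.smul_def, Algebra.smul_def, mul_one, mul_div_cancel₀ _ (gs b hb')])
  have B := spanMap_loc p L e h1 h2 h2' h3
  exact ⟨IsLocalizedModule.linearEquiv p.primeCompl (spanMap p p.ResidueField 1 g1)
    (spanMap p L e h1)⟩

end residue

/-! ### subquotients -/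

section quo

variable {R : Type} [CommRing R] {N : Type} [AddCommGroup N] [Module R N]

/-- subquotients -/
abbrev quo (A B : Submodule R N) : Type := B ⧸ A.submoduleOf B

/-- inclusion of subquotients -/
def qf (A : Submodule R N) {B C : Submodule R N} (h : B ≤ C) : quo A B →ₗ[R] quo A C :=
  Submodule.mapQ _ _ (Submodule.inclusion h) fun _ hx => hx

/-- projection of subquotients -/
def qg {A B : Submodule R N} (C : Submodule R N) (h : A ≤ B) : quo A C →ₗ[R] quo B C :=
  Submodule.mapQ _ _ LinearMap.id fun _ hx => h hx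

theorem qf_inj (A : Submodule R N) {B C : Submodule R N} (h : B ≤ C) :
    Function.Injective (qf A h) := by
  rw [injective_iff_map_eq_zero]
  intro a ha
  obtain ⟨a, rfl⟩ := Submodule.Quotient.mk_surjective _ a
  have h1 : (Submodule.Quotient.mk (Submodule.inclusion h a) : quo A C) = 0 := ha
  rw [Submodule.Quotient.mk_eq_zero] at h1 ⊢
  exact h1

theorem qg_surj {A B : Submodule R N} (C : Submodule R N) (h : A ≤ B) :
    Function.Surjective (qg C h) := by
  intro a
  obtain ⟨a, rfl⟩ := Submodule.Quotient.mk_surjective _ a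
  exact ⟨Submodule.Quotient.mk a, rfl⟩

theorem q_exact {A B C : Submodule R N} (h1 : A ≤ B) (h2 : B ≤ C) :
    Function.Exact (qf A h2) (qg C h1) := by
  intro a
  obtain ⟨a, rfl⟩ := Submodule.Quotient.mk_surjective _ a
  have h3 : qg C h1 (Submodule.Quotient.mk a) = Submodule.Quotient.mk a := rfl
  rw [h3, Submodule.Quotient.mk_eq_zero]
  constructor
  · intro h
    exact ⟨Submodule.Quotient.mk ⟨a.1, h⟩, rfl⟩
  · rintro ⟨b, hb⟩
    obtain ⟨b, rfl⟩ := Submodule.Quotient.mk_surjective _ b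
    have h4 : (Submodule.Quotient.mk (Submodule.inclusion h2 b) : quo A C) =
      Submodule.Quotient.mk a := hb
    rw [Submodule.Quotient.eq] at h4
    have h5 : (b.1 - a.1 : N) ∈ A := h4
    have h6 : a.1 = b.1 - (b.1 - a.1) := by abel
    change a.1 ∈ B
    rw [h6]
    exact sub_mem b.2 (h1 h5)

variable [HasDerivedCategory.{w} (ModuleCat.{0} R)]
  {P : ObjectProperty (DerivedCategory (ModuleCat.{0} R))} (hP : IsLocalizing R P)

include hP

theorem IsLocalizing.quo_ext {A B C : Submodule R N} (h1 : A ≤ B) (h2 : B ≤ C)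
    (hAB : P (sing (R := R) (quo A B))) (hBC : P (sing (R := R) (quo B C))) :
    P (sing (R := R) (quo A C)) :=
  hP.ses₂ _ _ (qf_inj A h2) (qg_surj C h1) (q_exact h1 h2) hAB hBC

theorem IsLocalizing.quo_union {A C : Submodule R N} (B : ℕ → Submodule R N) (hB : Monotone B)
    (hA : ∀ n, A ≤ B n) (hC : ∀ n, B n ≤ C) (hu : ∀ x ∈ C, ∃ n, x ∈ B n)
    (h : ∀ n, P (sing (R := R) (quo A (B n)))) : P (sing (R := R) (quo A C)) := by
  refine hP.union (fun n => LinearMap.range (qf A (hC n))) ?_ ?_ ?_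
  · intro m n hmn
    rintro _ ⟨a, rfl⟩
    refine ⟨qf A (hB hmn) a, ?_⟩
    obtain ⟨a, rfl⟩ := Submodule.Quotient.mk_surjective _ a
    rfl
  · intro x
    obtain ⟨x, rfl⟩ := Submodule.Quotient.mk_surjective _ x
    obtain ⟨n, hn⟩ := hu x.1 x.2
    exact ⟨n, Submodule.Quotient.mk ⟨x.1, hn⟩, rfl⟩
  · intro n
    exact hP.equiv (LinearEquiv.ofInjective _ (qf_inj A (hC n))) (h n)

theorem IsLocalizing.quo_ses₁ {A B : Submodule R N} (h1 : A ≤ B)
    (hB : P (sing (R := R) B)) (hAB : P (sing (R := R) (quo A B))) : P (sing (R := R) A) := by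
  refine hP.ses₁ (Submodule.inclusion h1) (A.submoduleOf B).mkQ (Submodule.inclusion_injective h1)
    (Submodule.mkQ_surjective _) ?_ hB hAB
  intro x
  rw [Submodule.mkQ_apply, Submodule.Quotient.mk_eq_zero]
  constructor
  · intro hx
    exact ⟨⟨x.1, hx⟩, rfl⟩
  · rintro ⟨y, rfl⟩
    exact y.2

theorem IsLocalizing.quo_ses₂ {A B : Submodule R N} (h1 : A ≤ B)
    (hA : P (sing (R := R) A)) (hAB : P (sing (R := R) (quo A B))) : P (sing (R := R) B) := by
  refine hP.ses₂ (Submodule.inclusion h1) (A.submoduleOf B).mkQ (Submodule.inclusion_injective h1)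
    (Submodule.mkQ_surjective _) ?_ hA hAB
  intro x
  rw [Submodule.mkQ_apply, Submodule.Quotient.mk_eq_zero]
  constructor
  · intro hx
    exact ⟨⟨x.1, hx⟩, rfl⟩
  · rintro ⟨y, rfl⟩
    exact y.2

theorem IsLocalizing.quo_equiv {A B A' B' : Submodule R N} (φ : N ≃ₗ[R] N)
    (hA : ∀ x, φ x ∈ A' ↔ x ∈ A) (hB : ∀ x, φ x ∈ B' ↔ x ∈ B)
    (h : P (sing (R := R) (quo A B))) : P (sing (R := R) (quo A' B')) := by
  have hB' : B.map φ.toLinearMap = B' := by
    ext x
    constructor
    · rintro ⟨y, hy, rfl⟩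
      exact (hB y).2 hy
    · intro hx
      refine ⟨φ.symm x, ?_, φ.apply_symm_apply x⟩
      rw [SetLike.mem_coe, ← hB, φ.apply_symm_apply]
      exact hx
  let e : B ≃ₗ[R] B' := φ.ofSubmodules B B' hB'
  refine hP.equiv (Submodule.Quotient.equiv _ _ e ?_) h
  ext x
  constructor
  · rintro ⟨y, hy, rfl⟩
    exact (hA y.1).2 hy
  · intro hx
    refine ⟨e.symm x, ?_, e.apply_symm_apply x⟩
    have h1 : φ (e.symm x).1 = x.1 := congrArg Subtype.val (e.apply_symm_apply x)
    change (e.symm x).1 ∈ A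
    rw [← hA, h1]
    exact hx

end quo

end Pool.Agent.X276.Derived
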