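import Pool.Agent.X276.SubQuo

set_option autoImplicit false
set_option linter.all false

universe w

open CategoryTheory CategoryTheory.Limits

noncomputable section

namespace Pool.Agent.X276.Derived

variable (Γ : Type) [AddCommGroup Γ] [LinearOrder Γ] [IsOrderedAddMonoid Γ]

/-- the field -/
abbrev K : Type := HahnSeries Γ ℚ

/-- the valuation ring -/
def V : Subring (K Γ) where
  carrier := {a | a ≠ 0 → 0 ≤ a.order}
  mul_mem' := by
    intro a b ha hb hab
    have h1 : a ≠ 0 := left_ne_zero_of_mul hab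
    have h2 : b ≠ 0 := right_ne_zero_of_mul hab
    rw [HahnSeries.order_mul h1 h2]
    exact add_nonneg (ha h1) (hb h2)
  one_mem' := fun _ => by rw [HahnSeries.order_one]
  add_mem' := by
    intro a b ha hb hab
    refine le_trans (le_min ?_ ?_) (HahnSeries.min_order_le_order_add hab)
    · by_cases h : a = 0
      · rw [h, HahnSeries.order_zero]
      · exact ha h
    · by_cases h : b = 0
      · rw [h, HahnSeries.order_zero]
      · exact hb h
  zero_mem' := fun h => absurd rfl h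
  neg_mem' := by
    intro a ha h
    rw [HahnSeries.order_neg]
    exact ha (neg_ne_zero.1 h)

variable {Γ}

/-- fractional ideals given by upper sets -/
def up (S : Set Γ) (hS : IsUpperSet S) : Submodule (V Γ) (K Γ) where
  carrier := {a | a ≠ 0 → a.order ∈ S}
  add_mem' := by
    intro a b ha hb hab
    by_cases h1 : a = 0
    · rw [h1, zero_add] at hab ⊢
      exact hb hab
    by_cases h2 : b = 0
    · rw [h2, add_zero] at hab ⊢
      exact ha hab
    rcases le_total a.order b.order with h | h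
    · have h3 := HahnSeries.min_order_le_order_add hab
      rw [min_eq_left h] at h3
      exact hS h3 (ha h1)
    · have h3 := HahnSeries.min_order_le_order_add hab
      rw [min_eq_right h] at h3
      exact hS h3 (hb h2)
  zero_mem' := fun h => absurd rfl h
  smul_mem' := by
    intro c a ha hca
    have h0 : (c : K Γ) * a ≠ 0 := hca
    have h1 : (c : K Γ) ≠ 0 := left_ne_zero_of_mul h0
    have h2 : a ≠ 0 := right_ne_zero_of_mul h0
    change ((c : K Γ) * a).order ∈ S
    rw [HahnSeries.order_mul h1 h2]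
    exact hS (le_add_of_nonneg_left (c.2 h1)) (ha h2)

theorem mem_up {S : Set Γ} {hS : IsUpperSet S} {a : K Γ} : a ∈ up S hS ↔ (a ≠ 0 → a.order ∈ S) :=
  Iff.rfl

theorem order_inv' {a : K Γ} (ha : a ≠ 0) : (a⁻¹).order = - a.order := by
  have h := HahnSeries.order_mul ha (inv_ne_zero ha)
  rw [mul_inv_cancel₀ ha, HahnSeries.order_one] at h
  exact eq_neg_of_add_eq_zero_right h.symm

section H

variable (H : AddSubgroup Γ)

/-- the localization of `V` at the prime corresponding to `H` -/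
def Uu : Submodule (V Γ) (K Γ) := up {γ | ∃ h ∈ H, h ≤ γ} (fun _ _ hab ⟨h, hh, ha⟩ =>
  ⟨h, hh, ha.trans hab⟩)

/-- its maximal ideal -/
def Mm : Submodule (V Γ) (K Γ) := up {γ | ∀ h ∈ H, h < γ} (fun _ _ hab ha h hh =>
  (ha h hh).trans_le hab)

theorem Mm_le : Mm H ≤ Uu H := fun _ ha h0 => ⟨0, zero_mem H, (ha h0 0 (zero_mem H)).le⟩

/-- the prime ideal -/
def pp : Ideal (V Γ) := (Mm H).comap (Algebra.linearMap (V Γ) (K Γ))

theorem mem_pp {v : V Γ} : v ∈ pp H ↔ (v : K Γ) ∈ Mm H := Iff.rfl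

variable (hc : ∀ a b, 0 ≤ a → a ≤ b → b ∈ H → a ∈ H)

include hc

theorem order_mem_of_notMem {v : K Γ} (hv : v ∈ Uu H) (h : v ∉ Mm H) : v ≠ 0 ∧ v.order ∈ H := by
  have h0 : v ≠ 0 := by
    rintro rfl
    exact h (zero_mem _)
  refine ⟨h0, ?_⟩
  obtain ⟨h1, hh1, h2⟩ := hv h0
  have h3 : ∃ h' ∈ H, v.order ≤ h' := by
    by_contra h4
    push Not at h4
    exact h fun _ => h4
  obtain ⟨h', hh', h4⟩ := h3
  have h5 := hc (v.order - h1) (h' - h1) (sub_nonneg.2 h2) (sub_le_sub_right h4 _)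
    (sub_mem hh' hh1)
  have h6 : v.order = (v.order - h1) + h1 := by abel
  rw [h6]
  exact add_mem h5 hh1

omit hc in
theorem V_mem_Uu {v : K Γ} (hv : v ∈ V Γ) : v ∈ Uu H := fun h0 => ⟨0, zero_mem H, hv h0⟩

theorem pp_prime : (pp H).IsPrime := by
  refine ⟨?_, ?_⟩
  · rw [Ne, Ideal.eq_top_iff_one]
    intro h
    have h1 := h (one_ne_zero) 0 (zero_mem H)
    have h2 : (1 : K Γ).order = 0 := HahnSeries.order_one
    have h3 : (0 : Γ) < (1 : K Γ).order := h1
    rw [h2] at h3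
    exact lt_irrefl _ h3
  · intro a b hab
    by_contra h
    push Not at h
    obtain ⟨ha0, ha⟩ := order_mem_of_notMem H hc (V_mem_Uu H a.2) h.1
    obtain ⟨hb0, hb⟩ := order_mem_of_notMem H hc (V_mem_Uu H b.2) h.2
    have h1 : (a : K Γ) * b ≠ 0 := mul_ne_zero ha0 hb0
    have h2 := hab h1 _ (add_mem ha hb)
    have h3 : (a : K Γ).order + (b : K Γ).order < ((a : K Γ) * (b : K Γ)).order := h2
    rw [HahnSeries.order_mul ha0 hb0] at h3
    exact lt_irrefl _ h3

theorem notMem_pp {s : V Γ} (hs : s ∉ pp H) : (s : K Γ) ≠ 0 ∧ (s : K Γ).order ∈ H :=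
  order_mem_of_notMem H hc (V_mem_Uu H s.2) hs

theorem kappa_equiv [(pp H).IsPrime] :
    Nonempty ((pp H).ResidueField ≃ₗ[V Γ] quo (Mm H) (Uu H)) := by
  have h1U : (1 : K Γ) ∈ Uu H := V_mem_Uu H (one_mem _)
  refine residue_equiv (pp H) (quo (Mm H) (Uu H)) (Submodule.Quotient.mk ⟨1, h1U⟩) ?_ ?_ ?_ ?_
  · intro r
    rw [← Submodule.Quotient.mk_smul, Submodule.Quotient.mk_eq_zero]
    change (r : K Γ) * 1 ∈ Mm H ↔ _
    rw [mul_one, mem_pp]
  · intro s hs l hl
    obtain ⟨l, rfl⟩ := Submodule.Quotient.mk_surjective _ l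
    rw [← Submodule.Quotient.mk_smul, Submodule.Quotient.mk_eq_zero] at hl
    rw [Submodule.Quotient.mk_eq_zero]
    obtain ⟨hs0, hs1⟩ := notMem_pp H hc hs
    have h2 : (s : K Γ) * l.1 ∈ Mm H := hl
    intro hl00 h hh
    have hl0 : l.1 ≠ 0 := hl00
    have h3 := h2 (mul_ne_zero hs0 hl0) (h + (s : K Γ).order) (add_mem hh hs1)
    have h4 : h + (s : K Γ).order < ((s : K Γ) * l.1).order := h3
    rw [HahnSeries.order_mul hs0 hl0, add_comm (s : K Γ).order] at h4
    exact lt_of_add_lt_add_right h4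
  · intro s hs l
    obtain ⟨l, rfl⟩ := Submodule.Quotient.mk_surjective _ l
    obtain ⟨hs0, hs1⟩ := notMem_pp H hc hs
    have h2 : (s : K Γ)⁻¹ * l.1 ∈ Uu H := by
      intro h0
      have hl0 : l.1 ≠ 0 := right_ne_zero_of_mul h0
      obtain ⟨h, hh, h3⟩ := l.2 hl0
      refine ⟨-(s : K Γ).order + h, add_mem (neg_mem hs1) hh, ?_⟩
      rw [HahnSeries.order_mul (inv_ne_zero hs0) hl0, order_inv' hs0]
      exact add_le_add_right h3 _
    refine ⟨Submodule.Quotient.mk ⟨_, h2⟩, ?_⟩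
    rw [← Submodule.Quotient.mk_smul]
    congr 1
    apply Subtype.ext
    exact mul_inv_cancel_left₀ hs0 _
  · intro l
    obtain ⟨l, rfl⟩ := Submodule.Quotient.mk_surjective _ l
    by_cases hl : l.1 ∈ Mm H
    · refine ⟨1, 0, ?_, ?_⟩
      · intro h
        exact (pp_prime H hc).ne_top ((Ideal.eq_top_iff_one _).2 h)
      · rw [one_smul, zero_smul, Submodule.Quotient.mk_eq_zero]
        exact hl
    · obtain ⟨hl0, hl1⟩ := order_mem_of_notMem H hc l.2 hl
      let t : K Γ := HahnSeries.single |l.1.order| (1 : ℚ)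
      have ht0 : t ≠ 0 := HahnSeries.single_ne_zero one_ne_zero
      have ht1 : t.order = |l.1.order| := HahnSeries.order_single one_ne_zero
      have htV : t ∈ V Γ := fun _ => by rw [ht1]; exact abs_nonneg _
      have htlV : t * l.1 ∈ V Γ := fun _ => by
        rw [HahnSeries.order_mul ht0 hl0, ht1]
        have := neg_abs_le l.1.order
        exact neg_le_iff_add_nonneg'.1 this
      refine ⟨⟨t, htV⟩, ⟨t * l.1, htlV⟩, ?_, ?_⟩
      · intro h
        have h2 : ∀ h ∈ H, h < t.order := h ht0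
        have h3 : t.order ∈ H := by
          rw [ht1]
          rcases abs_choice l.1.order with h4 | h4
          · rw [h4]; exact hl1
          · rw [h4]; exact neg_mem hl1
        exact lt_irrefl _ (h2 _ h3)
      · rw [← Submodule.Quotient.mk_smul, ← Submodule.Quotient.mk_smul]
        congr 1
        apply Subtype.ext
        change t * l.1 = t * l.1 * 1
        rw [mul_one]

end H


/-- a descending sequence of convex subgroups with discrete steps -/
structure Chain (Γ : Type) [AddCommGroup Γ] [LinearOrder Γ] where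
  H : ℕ → AddSubgroup Γ
  e : ℕ → Γ
  H_zero : H 0 = ⊤
  H_succ_le : ∀ n, H (n + 1) ≤ H n
  conv : ∀ n a b, 0 ≤ a → a ≤ b → b ∈ H n → a ∈ H n
  e_pos : ∀ n, 0 < e n
  e_mem : ∀ n, e n ∈ H n
  e_gt : ∀ n, ∀ h ∈ H (n + 1), h < e n
  step : ∀ n γ, (∀ h ∈ H (n + 1), h < γ) → ∃ h ∈ H (n + 1), e n + h ≤ γ
  arch : ∀ n, ∀ h ∈ H n, ∃ k : ℕ, ∃ h' ∈ H (n + 1), h' ≤ h + k • e n
  inter : ∀ γ, 0 < γ → ∃ n, ∀ h ∈ H n, h < γ

/-- multiplication by a nonzero element of the field -/
def mulEquiv (x : K Γ) (hx : x ≠ 0) : K Γ ≃ₗ[V Γ] K Γ where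
  toFun a := x * a
  invFun a := x⁻¹ * a
  left_inv a := inv_mul_cancel_left₀ hx a
  right_inv a := mul_inv_cancel_left₀ hx a
  map_add' a b := mul_add x a b
  map_smul' c a := by
    change x * ((c : K Γ) * a) = (c : K Γ) * (x * a)
    ring

section chain

variable (E : Chain Γ)

/-- the module `x ^ (-k) U` -/
def Ww (n k : ℕ) : Submodule (V Γ) (K Γ) := up {γ | ∃ h ∈ E.H (n + 1), h ≤ γ + k • E.e n}
  (fun _ _ hab ⟨h, hh, ha⟩ => ⟨h, hh, ha.trans (add_le_add_left hab _)⟩)

theorem Ww_zero (n : ℕ) : Ww E n 0 = Uu (E.H (n + 1)) := by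
  unfold Ww Uu
  congr 1
  ext γ
  simp

theorem Ww_le (n : ℕ) : Monotone (Ww E n) := by
  apply monotone_nat_of_le_succ
  intro k a ha h0
  obtain ⟨h, hh, h1⟩ := ha h0
  refine ⟨h, hh, h1.trans ?_⟩
  rw [succ_nsmul, ← add_assoc]
  exact le_add_of_nonneg_right (E.e_pos n).le

/-- the uniformizer -/
def xx (n : ℕ) : K Γ := HahnSeries.single (E.e n) (1 : ℚ)

theorem xx_ne (n : ℕ) : xx E n ≠ 0 := HahnSeries.single_ne_zero one_ne_zero

theorem xx_order (n : ℕ) : (xx E n).order = E.e n := HahnSeries.order_single one_ne_zero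

theorem pow_order (n k : ℕ) : ((xx E n) ^ k).order = k • E.e n := by
  induction k with
  | zero => rw [pow_zero, zero_nsmul, HahnSeries.order_one]
  | succ k ih =>
    rw [pow_succ, HahnSeries.order_mul (pow_ne_zero _ (xx_ne E n)) (xx_ne E n), ih, xx_order,
      succ_nsmul]

/-- multiplication by `x ^ k` carries `x ^ (-k) U` to `U` -/
theorem mem_Ww (n k : ℕ) (a : K Γ) : (xx E n) ^ k * a ∈ Uu (E.H (n + 1)) ↔ a ∈ Ww E n k := by
  have hx := pow_ne_zero k (xx_ne E n)
  constructor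
  · intro h h0
    obtain ⟨c, hc, h1⟩ := h (mul_ne_zero hx h0)
    rw [HahnSeries.order_mul hx h0, pow_order, add_comm] at h1
    exact ⟨c, hc, h1⟩
  · intro h h0
    have h0' := right_ne_zero_of_mul h0
    obtain ⟨c, hc, h1⟩ := h h0'
    refine ⟨c, hc, ?_⟩
    rw [HahnSeries.order_mul hx h0', pow_order, add_comm]
    exact h1

theorem mem_Ww' (n k : ℕ) (a : K Γ) : (xx E n) ^ (k + 1) * a ∈ Mm (E.H (n + 1)) ↔
    a ∈ Ww E n k := by
  have hx := pow_ne_zero (k + 1) (xx_ne E n)
  constructor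
  · intro h h0
    have h1 := h (mul_ne_zero hx h0)
    rw [Set.mem_ofPred_eq, HahnSeries.order_mul hx h0, pow_order] at h1
    obtain ⟨c, hc, h2⟩ := E.step n _ h1
    refine ⟨c, hc, ?_⟩
    rw [succ_nsmul] at h2
    have h3 : k • E.e n + E.e n + a.order = E.e n + (a.order + k • E.e n) := by abel
    rw [h3] at h2
    exact le_of_add_le_add_left h2
  · intro h h0
    have h0' := right_ne_zero_of_mul h0
    obtain ⟨c, hc, h1⟩ := h h0'
    intro b hb
    rw [HahnSeries.order_mul hx h0', pow_order, succ_nsmul]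
    have h2 := E.e_gt n (b - c) (sub_mem hb hc)
    have h3 : k • E.e n + E.e n + a.order = E.e n + (a.order + k • E.e n) := by abel
    rw [h3]
    have h4 : b = (b - c) + c := by abel
    rw [h4]
    exact add_lt_add_of_lt_of_le h2 h1

theorem Ww_sub (n k : ℕ) : Ww E n k ≤ Uu (E.H n) := by
  intro a ha h0
  obtain ⟨h, hh, h1⟩ := ha h0
  refine ⟨h - k • E.e n, sub_mem (E.H_succ_le n hh) (nsmul_mem (E.e_mem n) k), ?_⟩
  exact sub_le_iff_le_add.2 h1

theorem Ww_union (n : ℕ) (a : K Γ) (ha : a ∈ Uu (E.H n)) : ∃ k, a ∈ Ww E n k := by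
  by_cases h0 : a = 0
  · exact ⟨0, fun h => absurd h0 h⟩
  obtain ⟨h, hh, h1⟩ := ha h0
  obtain ⟨k, h', hh', h2⟩ := E.arch n h hh
  exact ⟨k, fun _ => ⟨h', hh', h2.trans (add_le_add_left h1 _)⟩⟩

variable [HasDerivedCategory.{w} (ModuleCat.{0} (V Γ))]
  {P : ObjectProperty (DerivedCategory (ModuleCat.{0} (V Γ)))} (hP : IsLocalizing (V Γ) P)
  (hres : ∀ (p : Ideal (V Γ)) [p.IsPrime], P (sing (R := V Γ) p.ResidueField))

include hP hres

theorem T_quo (H : AddSubgroup Γ) (hc : ∀ a b, 0 ≤ a → a ≤ b → b ∈ H → a ∈ H) :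
    P (sing (R := V Γ) (quo (Mm H) (Uu H))) := by
  have := pp_prime H hc
  exact hP.equiv (kappa_equiv H hc).some (hres (pp H))

theorem T_U (n : ℕ) : P (sing (R := V Γ) (Uu (E.H n))) := by
  induction n with
  | zero =>
    have h1 := T_quo hP hres (E.H 0) (E.conv 0)
    have h2 : Mm (E.H 0) = ⊥ := by
      rw [eq_bot_iff]
      intro a ha
      rw [Submodule.mem_bot]
      by_contra h0
      have h3 := ha h0 a.order (by rw [E.H_zero]; exact AddSubgroup.mem_top _)
      exact lt_irrefl _ h3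
    have h3 : P (sing (R := V Γ) (Mm (E.H 0))) := by
      have : Subsingleton (Mm (E.H 0)) := by rw [h2]; infer_instance
      exact hP.zero _
    exact hP.quo_ses₂ (Mm_le _) h3 h1
  | succ n ih =>
    have hk : ∀ k, P (sing (R := V Γ) (quo (Uu (E.H (n + 1))) (Ww E n k))) := by
      intro k
      induction k with
      | zero =>
        rw [Ww_zero]
        have : Subsingleton (quo (Uu (E.H (n + 1))) (Uu (E.H (n + 1)))) := by
          rw [Submodule.Quotient.subsingleton_iff]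
          exact Submodule.submoduleOf_self _
        exact hP.zero _
      | succ k ihk =>
        have h0 : Uu (E.H (n + 1)) ≤ Ww E n k := by
          rw [← Ww_zero]
          exact Ww_le E n (Nat.zero_le k)
        refine hP.quo_ext h0 (Ww_le E n (Nat.le_succ k)) ihk ?_
        have h1 := T_quo hP hres (E.H (n + 1)) (E.conv (n + 1))
        refine hP.quo_equiv (mulEquiv (xx E n ^ (k + 1)) (pow_ne_zero _ (xx_ne E n))).symm
          ?_ ?_ h1
        · intro a
          rw [← mem_Ww' E n k]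
          change xx E n ^ (k + 1) * ((xx E n ^ (k + 1))⁻¹ * a) ∈ _ ↔ _
          rw [mul_inv_cancel_left₀ (pow_ne_zero _ (xx_ne E n))]
        · intro a
          rw [← mem_Ww E n (k + 1)]
          change xx E n ^ (k + 1) * ((xx E n ^ (k + 1))⁻¹ * a) ∈ _ ↔ _
          rw [mul_inv_cancel_left₀ (pow_ne_zero _ (xx_ne E n))]
    have h1 : P (sing (R := V Γ) (quo (Uu (E.H (n + 1))) (Uu (E.H n)))) :=
      hP.quo_union (Ww E n) (Ww_le E n) (fun k => by
        rw [← Ww_zero]
        exact Ww_le E n (Nat.zero_le k)) (Ww_sub E n) (Ww_union E n) hk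
    refine hP.quo_ses₁ ?_ ih h1
    rw [← Ww_zero]
    exact Ww_sub E n 0

theorem T_M (n : ℕ) : P (sing (R := V Γ) (Mm (E.H n))) :=
  hP.quo_ses₁ (Mm_le _) (T_U E hP hres n) (T_quo hP hres (E.H n) (E.conv n))

include E

theorem T_max : P (sing (R := V Γ) (Mm (⊥ : AddSubgroup Γ))) := by
  have hmem : ∀ n, Mm (E.H n) ≤ Mm (⊥ : AddSubgroup Γ) := by
    intro n a ha h0 h hh
    rw [AddSubgroup.mem_bot] at hh
    rw [hh]
    exact ha h0 0 (zero_mem _)
  have hmono : Monotone fun n => Mm (E.H n) := by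
    apply monotone_nat_of_le_succ
    intro n a ha h0 h hh
    exact ha h0 h (E.H_succ_le n hh)
  refine hP.union (fun n => (Mm (E.H n)).submoduleOf (Mm ⊥)) ?_ ?_ ?_
  · intro m n hmn a ha
    exact hmono hmn ha
  · rintro ⟨a, ha⟩
    by_cases h0 : a = 0
    · exact ⟨0, fun h => absurd h0 h⟩
    obtain ⟨n, hn⟩ := E.inter a.order (ha h0 0 (zero_mem _))
    exact ⟨n, fun _ => hn⟩
  · intro n
    exact hP.equiv (Submodule.submoduleOfEquivOfLe (hmem n)).symm (T_M E hP hres n)

theorem T_V : P (sing (R := V Γ) (V Γ)) := by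
  have hc : ∀ a b : Γ, 0 ≤ a → a ≤ b → b ∈ (⊥ : AddSubgroup Γ) → a ∈ (⊥ : AddSubgroup Γ) := by
    intro a b ha hab hb
    rw [AddSubgroup.mem_bot] at hb ⊢
    exact le_antisymm (hab.trans hb.le) ha
  have h1 : P (sing (R := V Γ) (Uu (⊥ : AddSubgroup Γ))) :=
    hP.quo_ses₂ (Mm_le _) (T_max E hP hres) (T_quo hP hres ⊥ hc)
  have e : Uu (⊥ : AddSubgroup Γ) ≃ₗ[V Γ] V Γ :=
    { toFun := fun a => ⟨a.1, fun h0 => by
        obtain ⟨h, hh, h2⟩ := a.2 h0
        rw [AddSubgroup.mem_bot] at hh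
        rw [hh] at h2
        exact h2⟩
      invFun := fun a => ⟨a.1, V_mem_Uu _ a.2⟩
      left_inv := fun a => rfl
      right_inv := fun a => rfl
      map_add' := fun a b => rfl
      map_smul' := fun a b => rfl }
  exact hP.equiv e h1

end chain

end Pool.Agent.X276.Derived
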